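import Pool.Agent.Lib_helper88.RN.Limits

/-!
# Noisy states: the numerical condition holds at `d = 2/3` for every `α ∈ (0,4]`
-/

open scoped BigOperators ComplexOrder Kronecker MatrixOrder Topology
open MeasureTheory Set Matrix Filter

namespace Pool.Agent.RN

open Pool.Agent.RC

theorem pow_two_thirds (m : ℕ) : ((2 : ℝ) / 3) ^ (2 * m) = (4 / 9) ^ m := by
  rw [pow_mul]
  norm_num

/-- abstract form, nonnegative ratios, range `(0,2)` -/
theorem abs02 (r : ℕ → ℝ) (T P : ℝ) (h0 : r 0 = 1) (hn : ∀ m, 0 ≤ r m) (h1 : r 1 ≤ 1 / 2)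
    (h2 : r 1 / 5 ≤ r 2) (ha : ∀ m, r (m + 2) ≤ r (m + 1)) (hT : HasSum r T)
    (hP : HasSum (fun m => r m * (4 / 9 : ℝ) ^ m) P) : P * P ≤ T := by
  have hT1 := (hasSum_nat_add_iff' (f := r) 1).2 hT
  have hT2 := (hasSum_nat_add_iff' (f := r) 2).2 hT
  have hP1 := (hasSum_nat_add_iff' (f := fun m => r m * (4 / 9 : ℝ) ^ m) 1).2 hP
  have hP2 := (hasSum_nat_add_iff' (f := fun m => r m * (4 / 9 : ℝ) ^ m) 2).2 hP
  simp only [Finset.sum_range_succ, Finset.sum_range_zero, zero_add, h0, pow_zero, mul_one,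
    pow_one] at hT1 hT2 hP1 hP2
  have hle : ∀ m, r (m + 1) ≤ r 1 := by
    intro m
    induction m with
    | zero => exact le_rfl
    | succ m ih => exact (ha m).trans ih
  -- first bound
  have hg : HasSum (fun m : ℕ => r 1 * (4 / 9) * (4 / 9 : ℝ) ^ m) (r 1 * (4 / 9) * (1 - 4 / 9)⁻¹) :=
    (hasSum_geometric_of_lt_one (by norm_num) (by norm_num)).mul_left _
  have b1 : P - 1 ≤ r 1 * (4 / 9) * (1 - 4 / 9)⁻¹ := by
    apply hasSum_le _ hP1 hg
    intro m
    have := mul_le_mul_of_nonneg_right (hle m) (pow_nonneg (by norm_num : (0 : ℝ) ≤ 4 / 9) (m + 1))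
    calc r (m + 1) * (4 / 9 : ℝ) ^ (m + 1) ≤ r 1 * (4 / 9 : ℝ) ^ (m + 1) := this
      _ = r 1 * (4 / 9) * (4 / 9 : ℝ) ^ m := by ring
  -- second bound
  have b2 : P - (1 + r 1 * (4 / 9)) ≤ (4 / 9) ^ 2 * (T - (1 + r 1)) := by
    apply hasSum_le _ hP2 (hT2.mul_left ((4 / 9 : ℝ) ^ 2))
    intro m
    have h3 : (4 / 9 : ℝ) ^ (m + 2) ≤ (4 / 9) ^ 2 :=
      pow_le_pow_of_le_one (by norm_num) (by norm_num) (by omega)
    have := mul_le_mul_of_nonneg_left h3 (hn (m + 2))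
    calc r (m + 2) * (4 / 9 : ℝ) ^ (m + 2) ≤ r (m + 2) * (4 / 9) ^ 2 := this
      _ = (4 / 9) ^ 2 * r (m + 2) := by ring
  have b3 : r 2 ≤ T - (1 + r 1) := by
    have := sum_le_hasSum (Finset.range 1) (fun m _ => hn (m + 2)) hT2
    simpa using this
  have b4 : 0 ≤ P - 1 := hP1.nonneg fun m => mul_nonneg (hn _) (by positivity)
  have hr1 := hn 1
  set x := r 1 with hx
  set R := T - (1 + x) with hR
  set S := P - 1 with hS
  have c1 : S ≤ 4 / 5 * x := by
    have : x * (4 / 9) * (1 - 4 / 9 : ℝ)⁻¹ = 4 / 5 * x := by norm_num; ring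
    linarith
  have c2 : S ≤ 4 / 9 * x + 16 / 81 * R := by
    have : P - (1 + x * (4 / 9)) = S - 4 / 9 * x := by rw [hS]; ring
    rw [this] at b2
    linarith
  have c3 : S ≤ 2 / 5 := by linarith
  have c4 : S * S ≤ 2 / 5 * S := mul_le_mul_of_nonneg_right c3 b4
  have e : P * P = 1 + 2 * S + S * S := by rw [hS]; ring
  have e2 : T = 1 + x + R := by rw [hR]; ring
  rw [e, e2]
  have c5 : x / 5 ≤ R := h2.trans b3
  linarith

/-- abstract form, nonnegative ratios with small total -/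
theorem abs34 (r : ℕ → ℝ) (T P : ℝ) (h0 : r 0 = 1) (hn : ∀ m, 0 ≤ r m) (hT : HasSum r T)
    (hT' : T ≤ 25 / 16)
    (hP : HasSum (fun m => r m * (4 / 9 : ℝ) ^ m) P) : P * P ≤ T := by
  have hT1 := (hasSum_nat_add_iff' (f := r) 1).2 hT
  have hP1 := (hasSum_nat_add_iff' (f := fun m => r m * (4 / 9 : ℝ) ^ m) 1).2 hP
  simp only [Finset.sum_range_succ, Finset.sum_range_zero, zero_add, h0, pow_zero, mul_one]
    at hT1 hP1
  have b1 : P - 1 ≤ 4 / 9 * (T - 1) := by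
    apply hasSum_le _ hP1 (hT1.mul_left (4 / 9 : ℝ))
    intro m
    have h3 : (4 / 9 : ℝ) ^ (m + 1) ≤ (4 / 9) ^ 1 :=
      pow_le_pow_of_le_one (by norm_num) (by norm_num) (by omega)
    have := mul_le_mul_of_nonneg_left h3 (hn (m + 1))
    calc r (m + 1) * (4 / 9 : ℝ) ^ (m + 1) ≤ r (m + 1) * (4 / 9) ^ 1 := this
      _ = 4 / 9 * r (m + 1) := by ring
  have b4 : 0 ≤ P - 1 := hP1.nonneg fun m => mul_nonneg (hn _) (by positivity)
  have b5 : 0 ≤ T - 1 := hT1.nonneg fun m => hn _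
  set S := P - 1 with hS
  have c : S * S ≤ (4 / 9 * (9 / 16)) * S := by
    apply mul_le_mul_of_nonneg_right _ b4
    linarith
  have e : P * P = 1 + 2 * S + S * S := by rw [hS]; ring
  rw [e]
  linarith

/-- abstract form, negative tail -/
theorem abs23 (W : ℕ → ℝ) (L P : ℝ) (hW : 0 < W 0) (hn : ∀ m, W (m + 1) ≤ 0) (hL : HasSum W L)
    (hP : HasSum (fun m => W m * (4 / 9 : ℝ) ^ m) P) : W 0 * L ≤ P * P := by
  have hT1 := (hasSum_nat_add_iff' (f := W) 1).2 hL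
  have hP1 := (hasSum_nat_add_iff' (f := fun m => W m * (4 / 9 : ℝ) ^ m) 1).2 hP
  simp only [Finset.sum_range_succ, Finset.sum_range_zero, zero_add, pow_zero, mul_one]
    at hT1 hP1
  have b1 : 4 / 9 * (L - W 0) ≤ P - W 0 := by
    apply hasSum_le _ (hT1.mul_left (4 / 9 : ℝ)) hP1
    intro m
    have h3 : (4 / 9 : ℝ) ^ (m + 1) ≤ (4 / 9) ^ 1 :=
      pow_le_pow_of_le_one (by norm_num) (by norm_num) (by omega)
    have := mul_le_mul_of_nonpos_left h3 (hn m)
    calc 4 / 9 * W (m + 1) = W (m + 1) * (4 / 9) ^ 1 := by ring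
      _ ≤ W (m + 1) * (4 / 9 : ℝ) ^ (m + 1) := this
  have b5 : L - W 0 ≤ 0 := hT1.nonpos fun m => hn _
  have e : P * P = W 0 * W 0 + 2 * W 0 * (P - W 0) + (P - W 0) * (P - W 0) := by ring
  rw [e]
  have h1 := mul_self_nonneg (P - W 0)
  have h2 := mul_le_mul_of_nonneg_left b1 hW.le
  have h3 := mul_nonneg_of_nonpos_of_nonpos b5 (neg_nonpos.2 hW.le)
  nlinarith

theorem unnorm {α Z g L : ℝ} (hZ : Z ≠ 0) (hz : Z = α * (α - 1) / 2)
    (key : g / Z * (g / Z) ≤ L / Z) : g * g ≤ α * (α - 1) / 2 * L := by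
  have h5 := mul_le_mul_of_nonneg_right key (mul_self_nonneg Z)
  have e1 : g / Z * (g / Z) * (Z * Z) = g * g := by field_simp
  have e2 : L / Z * (Z * Z) = Z * L := by field_simp
  rw [e1, e2, hz] at h5
  exact h5

theorem convexOn_rpow_const' {b : ℝ} (hb : 0 < b) : ConvexOn ℝ univ fun x : ℝ => b ^ x := by
  have h : (fun x : ℝ => b ^ x) = fun x => Real.exp (Real.log b * x) := by
    funext x
    rw [Real.rpow_def_of_pos hb]
  rw [h]
  exact convexOn_exp.comp_linearMap (LinearMap.mul ℝ ℝ (Real.log b))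

theorem bet_ratio (α : ℝ) (n : ℕ) (h0 : 0 < α) (hα : α < n) :
    bet α (n + 2) / (n + 2 : ℝ) =
      ((n - α) * (n + 1 - α) / ((n + 1) * (n + 2))) * (bet α n / n) := by
  have h := bet_rec α n h0 hα
  have hn : (0 : ℝ) < n := h0.trans hα
  field_simp
  linarith

theorem cond02 (α : ℝ) (h0 : 0 < α) (h2 : α < 2) (h1 : α ≠ 1) :
    gg α (2 / 3) (2 / 3) ≤ α * (α - 1) / 2 * (2 ^ (α - 1) - 1) := by
  obtain ⟨c, hc, hex⟩ := expands02 α h0 h2 h1
  have hc0 : c ≠ 0 := by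
    rintro rfl
    simp at hc
  set w : ℕ → ℝ := fun m => bet α (2 * (m + 1)) / (2 * ((m : ℝ) + 1)) with hw
  have hm : ∀ m : ℕ, α < ((2 * (m + 1) : ℕ) : ℝ) := by
    intro m
    push_cast
    have : (0 : ℝ) ≤ m := Nat.cast_nonneg m
    linarith
  have hb : ∀ m : ℕ, 0 < w m := fun m => by
    have := bet_pos α _ h0 (hm m)
    rw [hw]
    positivity
  have hrec : ∀ m : ℕ, w (m + 1) = ((2 * (m + 1) - α) * (2 * (m + 1) + 1 - α) /
      ((2 * (m + 1) + 1) * (2 * (m + 1) + 2))) * w m := by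
    intro m
    have h5 := bet_ratio α (2 * (m + 1)) h0 (hm m)
    push_cast at h5
    rw [hw]
    simp only
    push_cast
    rw [← h5]
    have : 2 * (m + 1 + 1) = 2 * (m + 1) + 2 := by ring
    rw [this]
    congr 1
    ring
  have hz := hex.zero h0 (by linarith)
  have hz' : c * w 0 = α * (α - 1) / 2 := hz
  have hsum := hex.one h0 (by linarith)
  have hrat := hex.ratio h0 (by linarith) (t := 2 / 3) (by norm_num) (by norm_num)
  simp only [pow_two_thirds] at hrat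
  have w0 : w 0 ≠ 0 := (hb 0).ne'
  have hcw : c * w 0 ≠ 0 := mul_ne_zero hc0 w0
  have hT : HasSum (fun m => w m / w 0) ((2 ^ (α - 1) - 1) / (c * w 0)) := by
    refine (hsum.div_const (c * w 0)).congr_fun fun m => ?_
    show w m / w 0 = c * w m / (c * w 0)
    rw [mul_div_mul_left _ _ hc0]
  have hP : HasSum (fun m => w m / w 0 * (4 / 9 : ℝ) ^ m)
      (gs α (2 / 3) / (2 / 3) ^ 2 / (c * w 0)) := by
    refine (hrat.div_const (c * w 0)).congr_fun fun m => ?_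
    show w m / w 0 * (4 / 9 : ℝ) ^ m = c * w m * (4 / 9) ^ m / (c * w 0)
    rw [mul_assoc, mul_div_mul_left _ _ hc0]
    ring
  have r1 : w 1 / w 0 = (2 - α) * (3 - α) / 12 := by
    have := hrec 0
    rw [zero_add] at this
    rw [this, mul_div_assoc, div_self w0, mul_one]
    push_cast
    ring
  have r2 : w 2 / w 0 = (4 - α) * (5 - α) / 30 * (w 1 / w 0) := by
    have := hrec 1
    norm_num at this
    rw [this]
    ring
  have key := abs02 (fun m => w m / w 0) _ _ (div_self w0) (fun m => (div_pos (hb m) (hb 0)).le)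
    (by
      show w 1 / w 0 ≤ 1 / 2
      rw [r1]
      nlinarith)
    (by
      show w 1 / w 0 / 5 ≤ w 2 / w 0
      rw [r2]
      have h5 : 0 < w 1 / w 0 := div_pos (hb 1) (hb 0)
      have h6 : (1 : ℝ) / 5 ≤ (4 - α) * (5 - α) / 30 := by nlinarith
      have := mul_le_mul_of_nonneg_right h6 h5.le
      linarith)
    (by
      intro m
      show w (m + 2) / w 0 ≤ w (m + 1) / w 0
      apply div_le_div_of_nonneg_right _ (hb 0).le
      rw [hrec (m + 1)]
      have h5 : (0 : ℝ) ≤ m := Nat.cast_nonneg m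
      have h6 := (hb (m + 1)).le
      push_cast
      have h7 : ((2 * ((m : ℝ) + 1 + 1) - α) * (2 * ((m : ℝ) + 1 + 1) + 1 - α) /
          ((2 * ((m : ℝ) + 1 + 1) + 1) * (2 * ((m : ℝ) + 1 + 1) + 2))) ≤ 1 := by
        rw [div_le_one (by positivity)]
        nlinarith
      exact mul_le_of_le_one_left h6 h7)
    hT hP
  exact unnorm hcw hz' key

theorem cond34 (α : ℝ) (h3 : 3 < α) (h4 : α < 4) :
    gg α (2 / 3) (2 / 3) ≤ α * (α - 1) / 2 * (2 ^ (α - 1) - 1) := by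
  have h0 : 0 < α := by linarith
  obtain ⟨c, W, hc, hex, hW⟩ := expands24 α (by linarith) h4 (ne_of_gt h3)
  have hcpos : 0 < c := by
    rcases pos_and_pos_or_neg_and_neg_of_mul_pos hc with h | h
    · exact h.1
    · linarith [h.2]
  have hz := hex.zero h0 h4
  have hz0 : 0 < W 0 := by
    rw [hz]
    have : 0 < α - 1 := by linarith
    positivity
  have hb : ∀ m : ℕ, 0 < bet α (2 * (m + 2)) := fun m => bet_pos α _ h0 (by
    push_cast
    have : (0 : ℝ) ≤ m := Nat.cast_nonneg m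
    linarith)
  have hsum := hex.one h0 h4
  have hrat := hex.ratio h0 h4 (t := 2 / 3) (by norm_num) (by norm_num)
  simp only [pow_two_thirds] at hrat
  have hT : HasSum (fun m => W m / W 0) ((2 ^ (α - 1) - 1) / W 0) := hsum.div_const _
  have hP : HasSum (fun m => W m / W 0 * (4 / 9 : ℝ) ^ m)
      (gs α (2 / 3) / (2 / 3) ^ 2 / W 0) := by
    refine (hrat.div_const (W 0)).congr_fun fun m => ?_
    ring
  have hn : ∀ m, 0 ≤ W m / W 0 := by
    intro m
    rcases m with _ | m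
    · rw [div_self hz0.ne']; exact zero_le_one
    · apply div_nonneg _ hz0.le
      rw [hW m]
      have h5 := hb m
      positivity
  have hconv : (2 : ℝ) ^ (α - 1) ≤ 4 * α - 8 := by
    have h5 : ConvexOn ℝ univ fun x : ℝ => (2 : ℝ) ^ x := convexOn_rpow_const' two_pos
    have h6 := h5.2 (mem_univ (2 : ℝ)) (mem_univ (3 : ℝ)) (by linarith : (0 : ℝ) ≤ 4 - α)
      (by linarith : (0 : ℝ) ≤ α - 3) (by ring)
    simp only [smul_eq_mul] at h6
    have e1 : (4 - α) * 2 + (α - 3) * 3 = α - 1 := by ring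
    rw [e1] at h6
    have e2 : (2 : ℝ) ^ (2 : ℝ) = 4 := by norm_num
    have e3 : (2 : ℝ) ^ (3 : ℝ) = 8 := by norm_num
    rw [e2, e3] at h6
    linarith
  have hT' : (2 ^ (α - 1) - 1) / W 0 ≤ 25 / 16 := by
    rw [div_le_iff₀ hz0, hz]
    nlinarith [sq_nonneg (α - 3)]
  have key := abs34 (fun m => W m / W 0) _ _ (div_self hz0.ne') hn hT hT' hP
  exact unnorm hz0.ne' hz key

theorem cond23 (α : ℝ) (h2 : 2 < α) (h3 : α < 3) :
    α * (α - 1) / 2 * (2 ^ (α - 1) - 1) ≤ gg α (2 / 3) (2 / 3) := by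
  have h0 : 0 < α := by linarith
  have h4 : α < 4 := by linarith
  obtain ⟨c, W, hc, hex, hW⟩ := expands24 α h2 h4 (ne_of_lt h3)
  have hcneg : c < 0 := by
    rcases pos_and_pos_or_neg_and_neg_of_mul_pos hc with h | h
    · linarith [h.2]
    · exact h.1
  have hz := hex.zero h0 h4
  have hz0 : 0 < W 0 := by
    rw [hz]
    have : 0 < α - 1 := by linarith
    positivity
  have hb : ∀ m : ℕ, 0 < bet α (2 * (m + 2)) := fun m => bet_pos α _ h0 (by
    push_cast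
    have : (0 : ℝ) ≤ m := Nat.cast_nonneg m
    linarith)
  have hsum := hex.one h0 h4
  have hrat := hex.ratio h0 h4 (t := 2 / 3) (by norm_num) (by norm_num)
  simp only [pow_two_thirds] at hrat
  have key := abs23 W _ _ hz0 (fun m => by
    rw [hW m]
    apply mul_nonpos_of_nonpos_of_nonneg hcneg.le
    have h5 := hb m
    positivity) hsum hrat
  rw [hz] at key
  exact key

theorem tendsto_cond (α₀ : ℝ) (h0 : 0 < α₀) (F : Filter ℝ) (hF : F ≤ 𝓝 α₀) :
    Tendsto (fun α => gg α (2 / 3) (2 / 3)) F (𝓝 (gg α₀ (2 / 3) (2 / 3))) ∧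
    Tendsto (fun α : ℝ => α * (α - 1) / 2 * (2 ^ (α - 1) - 1)) F
      (𝓝 (α₀ * (α₀ - 1) / 2 * (2 ^ (α₀ - 1) - 1))) := by
  have a : |(2 / 3 : ℝ)| ≤ 1 := by rw [abs_of_pos (by norm_num)]; norm_num
  constructor
  · apply Tendsto.mono_left _ hF
    exact ((tendsto_gs_exp _ a α₀ h0).div_const _).mul ((tendsto_gs_exp _ a α₀ h0).div_const _)
  · apply Tendsto.mono_left _ hF
    have h1 : Continuous fun α : ℝ => α * (α - 1) / 2 := by fun_prop
    exact (h1.tendsto α₀).mul (tendsto_L α₀)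

/-- the condition at `d = 2/3` on `(0,2] ∪ [3,4]` -/
theorem cond_pos (α : ℝ) (hα : (0 < α ∧ α ≤ 2) ∨ (3 ≤ α ∧ α ≤ 4)) (hα1 : α ≠ 1) :
    gg α (2 / 3) (2 / 3) ≤ α * (α - 1) / 2 * (2 ^ (α - 1) - 1) := by
  rcases hα with ⟨h0, h2⟩ | ⟨h3, h4⟩
  · rcases eq_or_lt_of_le h2 with rfl | h2'
    · obtain ⟨t1, t2⟩ := tendsto_cond 2 two_pos (𝓝[<] 2) nhdsWithin_le_nhds
      apply le_of_tendsto_of_tendsto t1 t2
      have hev : ∀ᶠ α : ℝ in 𝓝[<] 2, α ∈ Ioo (1 : ℝ) 2 := Ioo_mem_nhdsLT (by norm_num)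
      filter_upwards [hev] with α hα
      exact cond02 α (by linarith [hα.1]) hα.2 (ne_of_gt hα.1)
    · exact cond02 α h0 h2' hα1
  · rcases eq_or_lt_of_le h3 with rfl | h3'
    · obtain ⟨t1, t2⟩ := tendsto_cond 3 three_pos (𝓝[>] 3) nhdsWithin_le_nhds
      apply le_of_tendsto_of_tendsto t1 t2
      have hev : ∀ᶠ α : ℝ in 𝓝[>] 3, α ∈ Ioo (3 : ℝ) 4 := Ioo_mem_nhdsGT (by norm_num)
      filter_upwards [hev] with α hα
      exact cond34 α hα.1 hα.2
    rcases eq_or_lt_of_le h4 with rfl | h4'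
    · obtain ⟨t1, t2⟩ := tendsto_cond 4 four_pos (𝓝[<] 4) nhdsWithin_le_nhds
      apply le_of_tendsto_of_tendsto t1 t2
      have hev : ∀ᶠ α : ℝ in 𝓝[<] 4, α ∈ Ioo (3 : ℝ) 4 := Ioo_mem_nhdsLT (by norm_num)
      filter_upwards [hev] with α hα
      exact cond34 α hα.1 hα.2
    exact cond34 α h3' h4'

/-- the reversed condition at `d = 2/3` on `[2,3]` -/
theorem cond_neg (α : ℝ) (h2 : 2 ≤ α) (h3 : α ≤ 3) :
    α * (α - 1) / 2 * (2 ^ (α - 1) - 1) ≤ gg α (2 / 3) (2 / 3) := by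
  rcases eq_or_lt_of_le h2 with rfl | h2'
  · obtain ⟨t1, t2⟩ := tendsto_cond 2 two_pos (𝓝[>] 2) nhdsWithin_le_nhds
    apply le_of_tendsto_of_tendsto t2 t1
    have hev : ∀ᶠ α : ℝ in 𝓝[>] 2, α ∈ Ioo (2 : ℝ) 3 := Ioo_mem_nhdsGT (by norm_num)
    filter_upwards [hev] with α hα
    exact cond23 α hα.1 hα.2
  rcases eq_or_lt_of_le h3 with rfl | h3'
  · obtain ⟨t1, t2⟩ := tendsto_cond 3 three_pos (𝓝[<] 3) nhdsWithin_le_nhds
    apply le_of_tendsto_of_tendsto t2 t1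
    have hev : ∀ᶠ α : ℝ in 𝓝[<] 3, α ∈ Ioo (2 : ℝ) 3 := Ioo_mem_nhdsLT (by norm_num)
    filter_upwards [hev] with α hα
    exact cond23 α hα.1 hα.2
  exact cond23 α h2' h3'

/-- the condition at `α = 1`, `d = 5/6` -/
theorem cond_one : (gs1 (5 / 6) / (5 / 6) ^ 2) * (gs1 (5 / 6) / (5 / 6) ^ 2) * 2 ≤ Real.log 2 := by
  have l2 := Real.log_two_gt_d9
  have u2 := Real.log_two_lt_d9
  -- `log (11/12)`
  have a1 := Real.abs_log_sub_add_sum_range_le (x := 1 / 12) (by norm_num) 3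
  -- `log (2/3)`
  have a2 := Real.abs_log_sub_add_sum_range_le (x := 1 / 3) (by norm_num) 8
  norm_num [Finset.sum_range_succ] at a1 a2
  rw [abs_le] at a1 a2
  have e1 : Real.log (11 / 6) = Real.log 2 + Real.log (11 / 12) := by
    rw [← Real.log_mul (by norm_num) (by norm_num)]
    norm_num
  have e2 : Real.log (1 / 6) = Real.log (2 / 3) - 2 * Real.log 2 := by
    have : (1 / 6 : ℝ) = 2 / 3 / (2 ^ 2) := by norm_num
    rw [this, Real.log_div (by norm_num) (by norm_num), Real.log_pow]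
    norm_num
  have b1 : Real.log (11 / 6) ≤ 0.60621 := by
    rw [e1]
    have := a1.2
    norm_num at this ⊢
    linarith
  have b2 : Real.log (1 / 6) ≤ -1.79166 := by
    rw [e2]
    have := a2.2
    norm_num at this ⊢
    linarith
  have g1 : gs1 (5 / 6) / (5 / 6) ^ 2 ≤ 0.5853 := by
    unfold gs1
    have e3 : (1 : ℝ) + 5 / 6 = 11 / 6 := by norm_num
    have e4 : (1 : ℝ) - 5 / 6 = 1 / 6 := by norm_num
    rw [e3, e4]
    norm_num at b1 b2 ⊢
    linarith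
  have g0 : 0 ≤ gs1 (5 / 6) / (5 / 6) ^ 2 := by
    have c1 : 0.6 ≤ Real.log (11 / 6) := by
      rw [e1]
      have := a1.1
      norm_num at this ⊢
      linarith
    have c2 : -1.8 ≤ Real.log (1 / 6) := by
      rw [e2]
      have := a2.1
      norm_num at this ⊢
      linarith
    apply div_nonneg _ (by positivity)
    unfold gs1
    have e3 : (1 : ℝ) + 5 / 6 = 11 / 6 := by norm_num
    have e4 : (1 : ℝ) - 5 / 6 = 1 / 6 := by norm_num
    rw [e3, e4]
    norm_num at c1 c2 ⊢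
    linarith
  nlinarith

end Pool.Agent.RN
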