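import Pool.Agent.Lib_helper88.RN.FlagState

/-!
# Examples of `NoisyMixture`
-/

open scoped BigOperators ComplexOrder Kronecker MatrixOrder Topology
open Matrix

namespace Pool.Agent.RN

open Pool.Agent.RC Pool.Agent.Lib_helper98.Renyi

variable {ι : Type} [Fintype ι] [DecidableEq ι]

/-- likelihood ratio at most `r`, one component -/
theorem noisyMixture_of_ratio {σ : Fin 2 → Matrix ι ι ℂ} {r : ℝ}
    (h1 : ((r : ℂ) • σ 1 - σ 0).PosSemidef) (h2 : ((r : ℂ) • σ 0 - σ 1).PosSemidef) :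
    NoisyMixture r σ := by
  refine ⟨1, fun _ => 1, fun _ => Matrix.isHermitian_one, fun _ => Matrix.one_mul 1, ?_, ?_, ?_⟩
  · simp
  · intro i x; rw [Matrix.one_mul, Matrix.mul_one]
  · intro i
    right
    rw [Matrix.one_mul, Matrix.one_mul]
    exact ⟨h1, h2⟩

/-- every pair with a binary symmetric input noise of strength `q`, `1/(r+1) ≤ q ≤ 1/2` -/
theorem noisyMixture_of_input {ω : Fin 2 → Matrix ι ι ℂ} (h : ∀ x, IsDensity (ω x)) {q r : ℝ}
    (hr : 0 < r) (hq : 1 / (r + 1) ≤ q) (hq' : q ≤ 1 / 2) :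
    NoisyMixture r (fun x => ((1 - q : ℝ) : ℂ) • ω x + ((q : ℝ) : ℂ) • ω (x + 1)) := by
  have e : (0 : Fin 2) + 1 = 1 := rfl
  have e' : (1 : Fin 2) + 1 = 0 := rfl
  have hq1 : 1 ≤ q * (r + 1) := by
    rwa [div_le_iff₀ (by linarith)] at hq
  have c1 : 0 ≤ r * q - (1 - q) := by linarith
  have hr1 : 1 ≤ r := by
    by_contra hlt
    push Not at hlt
    nlinarith
  have c2 : 0 ≤ r * (1 - q) - q := by nlinarith
  apply noisyMixture_of_ratio
  · simp only [e, e']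
    have h1 := (psd_smul_real (h 0).1 c1).add (psd_smul_real (h 1).1 c2)
    have h2 : ((r * q - (1 - q) : ℝ) : ℂ) • ω 0 + ((r * (1 - q) - q : ℝ) : ℂ) • ω 1 =
        (r : ℂ) • (((1 - q : ℝ) : ℂ) • ω 1 + ((q : ℝ) : ℂ) • ω 0) -
          (((1 - q : ℝ) : ℂ) • ω 0 + ((q : ℝ) : ℂ) • ω 1) := by
      ext i j
      simp only [Matrix.sub_apply, Matrix.smul_apply, Matrix.add_apply, smul_eq_mul]
      push_cast
      ring
    rwa [h2] at h1
  · simp only [e, e']
    have h1 := (psd_smul_real (h 1).1 c1).add (psd_smul_real (h 0).1 c2)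
    have h2 : ((r * q - (1 - q) : ℝ) : ℂ) • ω 1 + ((r * (1 - q) - q : ℝ) : ℂ) • ω 0 =
        (r : ℂ) • (((1 - q : ℝ) : ℂ) • ω 0 + ((q : ℝ) : ℂ) • ω 1) -
          (((1 - q : ℝ) : ℂ) • ω 1 + ((q : ℝ) : ℂ) • ω 0) := by
      ext i j
      simp only [Matrix.sub_apply, Matrix.smul_apply, Matrix.add_apply, smul_eq_mul]
      push_cast
      ring
    rwa [h2] at h1

end Pool.Agent.RN
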