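import Pool.Agent.Lib_helper88.RN.Cond
import Pool.Agent.Lib_helper95.RC.State

/-!
# Flagged mixtures: additivity of `G` and `G1`
-/

open scoped BigOperators ComplexOrder Kronecker MatrixOrder Topology
open MeasureTheory Set Matrix Filter Polynomial

namespace Pool.Agent.RN

open Pool.Agent.RC Pool.Agent.Lib_helper98.Renyi

variable {ι κ : Type} [Fintype ι] [DecidableEq ι] [Fintype κ] [DecidableEq κ]

theorem aeval_flag (P M : Matrix ι ι ℂ) (hP : P * P = P) (h : P * M = M * P) (p : ℝ[X]) :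
    aeval (P * M) p = P * aeval M p + (p.eval 0) • (1 - P) := by
  induction p using Polynomial.induction_on' with
  | add p q hp hq =>
    rw [map_add, map_add, hp, hq, Matrix.mul_add, Polynomial.eval_add, add_smul]
    abel
  | monomial n a =>
    rw [aeval_monomial, aeval_monomial, Algebra.algebraMap_eq_smul_one, Matrix.smul_mul,
      Matrix.one_mul, Matrix.smul_mul, Matrix.one_mul, Matrix.mul_smul]
    rcases Nat.eq_zero_or_pos n with rfl | hn
    · rw [pow_zero, pow_zero, Matrix.mul_one, Polynomial.eval_monomial, pow_zero, mul_one,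
        ← smul_add, add_sub_cancel]
    · rw [pow_flag P M hP h n hn]
      have : (monomial n a).eval 0 = 0 := by
        rw [Polynomial.eval_monomial, zero_pow (by omega), mul_zero]
      rw [this, zero_smul, add_zero]

/-- orthogonal projections commuting with `M` -/
structure Fam {J : Type} [Fintype J] (P : J → Matrix ι ι ℂ) (A D : Matrix ι ι ℂ) : Prop where
  herm : ∀ i, (P i).IsHermitian
  idem : ∀ i, P i * P i = P i
  sum : ∑ i, P i = 1
  commA : ∀ i, P i * A = A * P i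
  commD : ∀ i, P i * D = D * P i

theorem trF_flag {J : Type} [Fintype J] (f : ℝ → ℝ) (hf : f 0 = 0) {M : Matrix ι ι ℂ}
    (hM : M.IsHermitian) (P : J → Matrix ι ι ℂ) (h1 : ∀ i, (P i).IsHermitian)
    (h2 : ∀ i, P i * P i = P i) (h3 : ∑ i, P i = 1) (h4 : ∀ i, P i * M = M * P i) :
    RC.trF f M = ∑ i, RC.trF f (P i * M) := by
  classical
  have hH : ∀ i, (P i * M).IsHermitian := by
    intro i
    rw [Matrix.IsHermitian, conjTranspose_mul, (h1 i).eq, hM.eq, h4 i]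
  obtain ⟨p, hp, hp0⟩ := exists_poly_spectra (Finset.univ : Finset (Option J))
    (fun o => Option.elim o M fun i => P i * M) {0} f
  have e0 : p.eval 0 = 0 := by
    rw [hp0 0 (Finset.mem_singleton_self 0), hf]
  have eM : cfc f M = aeval M p := cfc_eq_aeval hM f p (hp none (Finset.mem_univ _))
  have eP : ∀ i, cfc f (P i * M) = P i * aeval M p := by
    intro i
    rw [cfc_eq_aeval (hH i) f p (hp (some i) (Finset.mem_univ _)), aeval_flag _ _ (h2 i) (h4 i),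
      e0, zero_smul, add_zero]
  rw [trF_eq_cfc f hM, eM]
  have : ∀ i, RC.trF f (P i * M) = (Matrix.trace (P i * aeval M p)).re := by
    intro i
    rw [trF_eq_cfc f (hH i), eP i]
  simp only [this]
  rw [← Complex.re_sum, ← Matrix.trace_sum, ← Finset.sum_mul, h3, Matrix.one_mul]

theorem psd_flag {P M : Matrix ι ι ℂ} (h1 : P.IsHermitian) (h2 : P * P = P)
    (h4 : P * M = M * P) (hM : M.PosSemidef) : (P * M).PosSemidef := by
  have e : P * M = P * M * Pᴴ := by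
    rw [h1.eq, Matrix.mul_assoc, ← h4, ← Matrix.mul_assoc, h2]
  rw [e]
  exact hM.mul_mul_conjTranspose_same P

theorem Fam.block {J : Type} [Fintype J] {P : J → Matrix ι ι ℂ} {A D : Matrix ι ι ℂ}
    (h : Fam P A D) (hp : IsPsdPair A D) (i : J) : IsPsdPair (P i * A) (P i * D) where
  pos := psd_flag (h.herm i) (h.idem i) (h.commA i) hp.pos
  sub := by
    rw [← Matrix.mul_sub]
    exact psd_flag (h.herm i) (h.idem i) (by rw [Matrix.mul_sub, Matrix.sub_mul, h.commA,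
      h.commD]) hp.sub
  add := by
    rw [← Matrix.mul_add]
    exact psd_flag (h.herm i) (h.idem i) (by rw [Matrix.mul_add, Matrix.add_mul, h.commA,
      h.commD]) hp.add

theorem Fam.G_sum {J : Type} [Fintype J] {P : J → Matrix ι ι ℂ} {A D : Matrix ι ι ℂ}
    (h : Fam P A D) (hp : IsPsdPair A D) {α : ℝ} (hα : 0 < α) :
    G α A D = ∑ i, G α (P i * A) (P i * D) := by
  have hf : (fun x : ℝ => x ^ α) 0 = 0 := Real.zero_rpow hα.ne'
  unfold G
  rw [trF_flag _ hf hp.pos.1 P h.herm h.idem h.sum h.commA,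
    trF_flag _ hf hp.add.1 P h.herm h.idem h.sum (fun i => by
      rw [Matrix.mul_add, Matrix.add_mul, h.commA, h.commD]),
    trF_flag _ hf hp.sub.1 P h.herm h.idem h.sum (fun i => by
      rw [Matrix.mul_sub, Matrix.sub_mul, h.commA, h.commD]),
    ← Finset.sum_add_distrib, Finset.sum_div, ← Finset.sum_sub_distrib]
  refine Finset.sum_congr rfl fun i _ => ?_
  rw [Matrix.mul_add, Matrix.mul_sub]

theorem Fam.G1_sum {J : Type} [Fintype J] {P : J → Matrix ι ι ℂ} {A D : Matrix ι ι ℂ}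
    (h : Fam P A D) (hp : IsPsdPair A D) :
    G1 A D = ∑ i, G1 (P i * A) (P i * D) := by
  have hf : (fun x : ℝ => x * Real.log x) 0 = 0 := by simp
  unfold G1
  rw [trF_flag _ hf hp.pos.1 P h.herm h.idem h.sum h.commA,
    trF_flag _ hf hp.add.1 P h.herm h.idem h.sum (fun i => by
      rw [Matrix.mul_add, Matrix.add_mul, h.commA, h.commD]),
    trF_flag _ hf hp.sub.1 P h.herm h.idem h.sum (fun i => by
      rw [Matrix.mul_sub, Matrix.sub_mul, h.commA, h.commD]),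
    ← Finset.sum_add_distrib, Finset.sum_div, ← Finset.sum_sub_distrib]
  refine Finset.sum_congr rfl fun i _ => ?_
  rw [Matrix.mul_add, Matrix.mul_sub]

theorem Fam.kron {J K : Type} [Fintype J] [Fintype K] {P : J → Matrix ι ι ℂ}
    {A₁ D₁ : Matrix ι ι ℂ} (h₁ : Fam P A₁ D₁) {Q : K → Matrix κ κ ℂ} {A₂ D₂ : Matrix κ κ ℂ}
    (h₂ : Fam Q A₂ D₂) :
    Fam (fun p : J × K => P p.1 ⊗ₖ Q p.2) (A₁ ⊗ₖ A₂) (D₁ ⊗ₖ D₂) where
  herm := by
    intro p
    rw [Matrix.IsHermitian, conjTranspose_kronecker, (h₁.herm _).eq, (h₂.herm _).eq]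
  idem := by
    intro p
    rw [← Matrix.mul_kronecker_mul, h₁.idem, h₂.idem]
  sum := by
    have : ∑ p : J × K, P p.1 ⊗ₖ Q p.2 = (∑ i, P i) ⊗ₖ (∑ j, Q j) := by
      ext a b
      simp only [Matrix.sum_apply, Matrix.kroneckerMap_apply]
      rw [Fintype.sum_prod_type, Finset.sum_mul_sum]
    rw [this, h₁.sum, h₂.sum, Matrix.one_kronecker_one]
  commA := by
    intro p
    rw [← Matrix.mul_kronecker_mul, ← Matrix.mul_kronecker_mul, h₁.commA, h₂.commA]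
  commD := by
    intro p
    rw [← Matrix.mul_kronecker_mul, ← Matrix.mul_kronecker_mul, h₁.commD, h₂.commD]

/-- inequality `≥` for flagged sums from the blocks -/
theorem flag_le {J K : Type} [Fintype J] [Fintype K] {P : J → Matrix ι ι ℂ}
    {A₁ D₁ : Matrix ι ι ℂ} (h₁ : Fam P A₁ D₁) (p₁ : IsPsdPair A₁ D₁) {Q : K → Matrix κ κ ℂ}
    {A₂ D₂ : Matrix κ κ ℂ} (h₂ : Fam Q A₂ D₂) (p₂ : IsPsdPair A₂ D₂) {α : ℝ} (hα : 0 < α) (c : ℝ)
    (hb : ∀ i j, G α (P i * A₁) (P i * D₁) * G α (Q j * A₂) (Q j * D₂) ≤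
      c * G α ((P i * A₁) ⊗ₖ (Q j * A₂)) ((P i * D₁) ⊗ₖ (Q j * D₂))) :
    G α A₁ D₁ * G α A₂ D₂ ≤ c * G α (A₁ ⊗ₖ A₂) (D₁ ⊗ₖ D₂) := by
  rw [h₁.G_sum p₁ hα, h₂.G_sum p₂ hα, (h₁.kron h₂).G_sum (p₁.kron p₂) hα, Finset.sum_mul_sum,
    Fintype.sum_prod_type, Finset.mul_sum]
  refine Finset.sum_le_sum fun i _ => ?_
  rw [Finset.mul_sum]
  refine Finset.sum_le_sum fun j _ => ?_
  rw [← Matrix.mul_kronecker_mul, ← Matrix.mul_kronecker_mul]
  exact hb i j

theorem flag_ge {J K : Type} [Fintype J] [Fintype K] {P : J → Matrix ι ι ℂ}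
    {A₁ D₁ : Matrix ι ι ℂ} (h₁ : Fam P A₁ D₁) (p₁ : IsPsdPair A₁ D₁) {Q : K → Matrix κ κ ℂ}
    {A₂ D₂ : Matrix κ κ ℂ} (h₂ : Fam Q A₂ D₂) (p₂ : IsPsdPair A₂ D₂) {α : ℝ} (hα : 0 < α) (c : ℝ)
    (hb : ∀ i j, c * G α ((P i * A₁) ⊗ₖ (Q j * A₂)) ((P i * D₁) ⊗ₖ (Q j * D₂)) ≤
      G α (P i * A₁) (P i * D₁) * G α (Q j * A₂) (Q j * D₂)) :
    c * G α (A₁ ⊗ₖ A₂) (D₁ ⊗ₖ D₂) ≤ G α A₁ D₁ * G α A₂ D₂ := by
  rw [h₁.G_sum p₁ hα, h₂.G_sum p₂ hα, (h₁.kron h₂).G_sum (p₁.kron p₂) hα, Finset.sum_mul_sum,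
    Fintype.sum_prod_type, Finset.mul_sum]
  refine Finset.sum_le_sum fun i _ => ?_
  rw [Finset.mul_sum]
  refine Finset.sum_le_sum fun j _ => ?_
  rw [← Matrix.mul_kronecker_mul, ← Matrix.mul_kronecker_mul]
  exact hb i j

theorem flag_one {J K : Type} [Fintype J] [Fintype K] {P : J → Matrix ι ι ℂ}
    {A₁ D₁ : Matrix ι ι ℂ} (h₁ : Fam P A₁ D₁) (p₁ : IsPsdPair A₁ D₁) {Q : K → Matrix κ κ ℂ}
    {A₂ D₂ : Matrix κ κ ℂ} (h₂ : Fam Q A₂ D₂) (p₂ : IsPsdPair A₂ D₂) (c : ℝ)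
    (hb : ∀ i j, G1 (P i * A₁) (P i * D₁) * G1 (Q j * A₂) (Q j * D₂) ≤
      c * G1 ((P i * A₁) ⊗ₖ (Q j * A₂)) ((P i * D₁) ⊗ₖ (Q j * D₂))) :
    G1 A₁ D₁ * G1 A₂ D₂ ≤ c * G1 (A₁ ⊗ₖ A₂) (D₁ ⊗ₖ D₂) := by
  rw [h₁.G1_sum p₁, h₂.G1_sum p₂, (h₁.kron h₂).G1_sum (p₁.kron p₂), Finset.sum_mul_sum,
    Fintype.sum_prod_type, Finset.mul_sum]
  refine Finset.sum_le_sum fun i _ => ?_
  rw [Finset.mul_sum]
  refine Finset.sum_le_sum fun j _ => ?_
  rw [← Matrix.mul_kronecker_mul, ← Matrix.mul_kronecker_mul]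
  exact hb i j

end Pool.Agent.RN
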