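import Pool.Agent.Lib_helper88.RN.FlagAdd

/-!
# Flagged mixtures of noisy and rank-two components: the state-level theorem
-/

open scoped BigOperators ComplexOrder Kronecker MatrixOrder Topology
open MeasureTheory Set Matrix Filter

namespace Pool.Agent.RN

open Pool.Agent.RC Pool.Agent.Lib_helper98.Renyi

/-- The two states are flagged mixtures: there are orthogonal projections `P i`, summing to the
identity and commuting with both states, such that for each `i` either `P i * (σ 0 - σ 1)` is a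
difference `v v* - w w*` of two rank-one positive matrices, or the component is noisy:
`P i * σ 0 ≤ r P i * σ 1` and `P i * σ 1 ≤ r P i * σ 0`. -/
def NoisyMixture {b : Type*} [Fintype b] [DecidableEq b] (r : ℝ)
    (σ : Fin 2 → Matrix b b ℂ) : Prop :=
  ∃ (m : ℕ) (P : Fin m → Matrix b b ℂ), (∀ i, (P i).IsHermitian) ∧ (∀ i, P i * P i = P i) ∧
    ∑ i, P i = 1 ∧ (∀ i x, P i * σ x = σ x * P i) ∧
    ∀ i, (∃ v w : b → ℂ, P i * (σ 0 - σ 1) = vecMulVec v (star v) - vecMulVec w (star w)) ∨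
      ((P i * ((r : ℂ) • σ 1 - σ 0)).PosSemidef ∧ (P i * ((r : ℂ) • σ 0 - σ 1)).PosSemidef)

variable {ι κ : Type} [Fintype ι] [DecidableEq ι] [Fintype κ] [DecidableEq κ]

/-- a block: rank two or noisy -/
def Blk (d : ℝ) (A D : Matrix ι ι ℂ) : Prop := Flag A D ∨ PNoise A D d

theorem block_le (α : ℝ) (hα : (0 < α ∧ α ≤ 2) ∨ (3 ≤ α ∧ α ≤ 4)) (h1 : α ≠ 1)
    {A₁ D₁ : Matrix ι ι ℂ} (p₁ : IsPsdPair A₁ D₁) (b₁ : Blk (2 / 3) A₁ D₁)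
    {A₂ D₂ : Matrix κ κ ℂ} (p₂ : IsPsdPair A₂ D₂) (b₂ : Blk (2 / 3) A₂ D₂) :
    G α A₁ D₁ * G α A₂ D₂ ≤ (2 ^ (α - 1) - 1) * G α (A₁ ⊗ₖ A₂) (D₁ ⊗ₖ D₂) := by
  have key : ∀ {ι κ : Type} [Fintype ι] [DecidableEq ι] [Fintype κ] [DecidableEq κ]
      (A₁ D₁ : Matrix ι ι ℂ) (_ : IsPsdPair A₁ D₁) (_ : Flag A₁ D₁)
      (A₂ D₂ : Matrix κ κ ℂ) (_ : IsPsdPair A₂ D₂),
      G α A₁ D₁ * G α A₂ D₂ ≤ (2 ^ (α - 1) - 1) * G α (A₁ ⊗ₖ A₂) (D₁ ⊗ₖ D₂) := by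
    intro ι κ _ _ _ _ A₁ D₁ q₁ hf A₂ D₂ q₂
    rcases hα with h | h
    · exact final02 α h.1 h.2 h1 A₁ D₁ q₁ hf A₂ D₂ q₂
    · exact final34 α h.1 h.2 A₁ D₁ q₁ hf A₂ D₂ q₂
  rcases b₁ with f₁ | n₁
  · exact key _ _ p₁ f₁ _ _ p₂
  rcases b₂ with f₂ | n₂
  · have := key _ _ p₂ f₂ _ _ p₁
    rwa [G_swap, mul_comm (G α _ _)] at this
  have h0 : 0 < α := by
    rcases hα with h | h
    · exact h.1
    · linarith [h.1]
  obtain ⟨k1, k2⟩ := MI_pos α hα h1 (by norm_num) (by norm_num) n₁ (by norm_num) (by norm_num) n₂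
  have hC : α * (α - 1) / 2 ≠ 0 :=
    div_ne_zero (mul_ne_zero h0.ne' (sub_ne_zero.2 h1)) two_ne_zero
  refine k2.trans ((mul_le_mul_of_nonneg_right (cond_pos α hα h1) k1).trans (le_of_eq ?_))
  unfold mid
  field_simp

theorem block_ge (α : ℝ) (h2 : 2 ≤ α) (h3 : α ≤ 3)
    {A₁ D₁ : Matrix ι ι ℂ} (p₁ : IsPsdPair A₁ D₁) (b₁ : Blk (2 / 3) A₁ D₁)
    {A₂ D₂ : Matrix κ κ ℂ} (p₂ : IsPsdPair A₂ D₂) (b₂ : Blk (2 / 3) A₂ D₂) :
    (2 ^ (α - 1) - 1) * G α (A₁ ⊗ₖ A₂) (D₁ ⊗ₖ D₂) ≤ G α A₁ D₁ * G α A₂ D₂ := by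
  rcases b₁ with f₁ | n₁
  · exact final23 α h2 h3 _ _ p₁ f₁ _ _ p₂
  rcases b₂ with f₂ | n₂
  · have := final23 α h2 h3 _ _ p₂ f₂ _ _ p₁
    rwa [G_swap, mul_comm (G α _ _)] at this
  obtain ⟨k1, k2⟩ := MI_neg α h2 h3 (by norm_num) (by norm_num) n₁ (by norm_num) (by norm_num) n₂
  have hC : α - 1 ≠ 0 := (by linarith : (0 : ℝ) < α - 1).ne'
  have h0 : α ≠ 0 := (by linarith : (0 : ℝ) < α).ne'
  refine le_trans (le_of_eq ?_) ((mul_le_mul_of_nonneg_right (cond_neg α h2 h3) k1).trans k2)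
  unfold mid
  field_simp

theorem block_one {A₁ D₁ : Matrix ι ι ℂ} (p₁ : IsPsdPair A₁ D₁) (b₁ : Blk (5 / 6) A₁ D₁)
    {A₂ D₂ : Matrix κ κ ℂ} (p₂ : IsPsdPair A₂ D₂) (b₂ : Blk (5 / 6) A₂ D₂) :
    G1 A₁ D₁ * G1 A₂ D₂ ≤ Real.log 2 * G1 (A₁ ⊗ₖ A₂) (D₁ ⊗ₖ D₂) := by
  rcases b₁ with f₁ | n₁
  · exact final_one _ _ p₁ f₁ _ _ p₂
  rcases b₂ with f₂ | n₂
  · have := final_one _ _ p₂ f₂ _ _ p₁
    rwa [G1_swap, mul_comm (G1 _ _)] at this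
  obtain ⟨k1, k2⟩ := MI_one (by norm_num) (by norm_num) n₁ (by norm_num) (by norm_num) n₂
  refine k2.trans ?_
  have := mul_le_mul_of_nonneg_right cond_one k1
  linarith

/-! ### the states -/

theorem pnoise_conj {ρ Δ X : Matrix ι ι ℂ} (hX : Xᴴ = X) {d : ℝ} (h : PNoise ρ Δ d) :
    PNoise (X * ρ * X) (X * Δ * X) d where
  pos := by
    have := h.pos.mul_mul_conjTranspose_same X
    rwa [hX] at this
  sub := by
    have := h.sub.mul_mul_conjTranspose_same X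
    rw [hX, Matrix.mul_sub, Matrix.sub_mul, Matrix.mul_smul, Matrix.smul_mul] at this
    exact this
  add := by
    have := h.add.mul_mul_conjTranspose_same X
    rw [hX, Matrix.mul_add, Matrix.add_mul, Matrix.mul_smul, Matrix.smul_mul] at this
    exact this

theorem pnoise_comp {σ : Fin 2 → Matrix ι ι ℂ} (h : ∀ x, IsDensity (σ x)) {P : Matrix ι ι ℂ}
    (hP : P.IsHermitian) (hP2 : P * P = P) (hc : ∀ x, P * σ x = σ x * P) {r : ℝ} (hr : 0 ≤ r)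
    (h1 : (P * ((r : ℂ) • σ 1 - σ 0)).PosSemidef) (h2 : (P * ((r : ℂ) • σ 0 - σ 1)).PosSemidef) :
    PNoise (P * rhoOf σ) (P * delOf σ) ((r - 1) / (r + 1)) where
  pos := psd_flag hP hP2 (comm_rhoOf hc) (rhoOf_posSemidef h)
  sub := by
    have hr1 : (r + 1 : ℝ) ≠ 0 := by linarith
    have e : (((r - 1) / (r + 1) : ℝ) : ℂ) • (P * rhoOf σ) - P * delOf σ =
        ((1 / (r + 1) : ℝ) : ℂ) • (P * ((r : ℂ) • σ 1 - σ 0)) := by
      rw [← Matrix.mul_smul, ← Matrix.mul_sub, ← Matrix.mul_smul]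
      congr 1
      ext i j
      simp only [rhoOf, delOf, Matrix.sub_apply, Matrix.smul_apply, Matrix.add_apply, smul_eq_mul]
      have hr2 : ((r : ℂ) + 1) ≠ 0 := by exact_mod_cast hr1
      push_cast
      field_simp
      ring
    rw [e]
    exact psd_smul_real h1 (by positivity)
  add := by
    have hr1 : (r + 1 : ℝ) ≠ 0 := by linarith
    have e : (((r - 1) / (r + 1) : ℝ) : ℂ) • (P * rhoOf σ) + P * delOf σ =
        ((1 / (r + 1) : ℝ) : ℂ) • (P * ((r : ℂ) • σ 0 - σ 1)) := by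
      rw [← Matrix.mul_smul, ← Matrix.mul_add, ← Matrix.mul_smul]
      congr 1
      ext i j
      simp only [rhoOf, delOf, Matrix.sub_apply, Matrix.smul_apply, Matrix.add_apply, smul_eq_mul]
      have hr2 : ((r : ℂ) + 1) ≠ 0 := by exact_mod_cast hr1
      push_cast
      field_simp
      ring
    rw [e]
    exact psd_smul_real h2 (by positivity)

/-- the flagged family of a mixture, `α ≠ 1` -/
theorem fam_state {σ : Fin 2 → Matrix ι ι ℂ} (h : ∀ x, IsDensity (σ x)) {r : ℝ} (hr : 0 ≤ r)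
    (hf : NoisyMixture r σ) {α : ℝ} (hα : 0 < α) :
    ∃ (m : ℕ) (P : Fin m → Matrix ι ι ℂ), Fam P (Aop α σ) (Dop α σ) ∧
      ∀ i, Blk ((r - 1) / (r + 1)) (P i * Aop α σ) (P i * Dop α σ) := by
  obtain ⟨m, P, h1, h2, h3, h4, h5⟩ := hf
  have hρ := rhoOf_posSemidef h
  have hX := mpow_isHermitian hρ ((1 - α) / (2 * α))
  have c1 : ∀ i, P i * mpow (rhoOf σ) ((1 - α) / (2 * α)) =
      mpow (rhoOf σ) ((1 - α) / (2 * α)) * P i := fun i =>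
    comm_mpow hρ.1 (comm_rhoOf (h4 i)) _
  set X := mpow (rhoOf σ) ((1 - α) / (2 * α)) with hXdef
  have eD : Dop α σ = X * delOf σ * X := rfl
  have eA : Aop α σ = X * rhoOf σ * X := (sandwich_rho h hα).symm
  have cX : ∀ (i : Fin m) (M : Matrix ι ι ℂ), P i * (X * M * X) = X * (P i * M) * X := by
    intro i M
    rw [← Matrix.mul_assoc, ← Matrix.mul_assoc, c1 i, Matrix.mul_assoc X]
  refine ⟨m, P, ⟨h1, h2, h3, fun i => comm_mpow hρ.1 (comm_rhoOf (h4 i)) _, fun i => ?_⟩,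
    fun i => ?_⟩
  · rw [eD, cX, comm_delOf (h4 i)]
    simp only [Matrix.mul_assoc]
    rw [c1 i]
  · rw [eA, eD, cX, cX]
    rcases h5 i with h6 | ⟨h6, h7⟩
    · left
      apply Sig11.flag
      apply sig11_conj hX
      have : P i * delOf σ = (1 / 2 : ℂ) • (P i * (σ 0 - σ 1)) := by
        rw [delOf, Matrix.mul_smul]
      rw [this]
      exact sig11_half h6
    · right
      exact pnoise_conj hX (pnoise_comp h (h1 i) (h2 i) (h4 i) hr h6 h7)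

theorem fam_state_one {σ : Fin 2 → Matrix ι ι ℂ} (h : ∀ x, IsDensity (σ x)) {r : ℝ} (hr : 0 ≤ r)
    (hf : NoisyMixture r σ) :
    ∃ (m : ℕ) (P : Fin m → Matrix ι ι ℂ), Fam P (rhoOf σ) (delOf σ) ∧
      ∀ i, Blk ((r - 1) / (r + 1)) (P i * rhoOf σ) (P i * delOf σ) := by
  obtain ⟨m, P, h1, h2, h3, h4, h5⟩ := hf
  refine ⟨m, P, ⟨h1, h2, h3, fun i => comm_rhoOf (h4 i), fun i => comm_delOf (h4 i)⟩,
    fun i => ?_⟩
  rcases h5 i with h6 | ⟨h6, h7⟩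
  · left
    apply Sig11.flag
    rw [delOf, Matrix.mul_smul]
    exact sig11_half h6
  · right
    exact pnoise_comp h (h1 i) (h2 i) (h4 i) hr h6 h7

theorem mixture_le {σ₁ : Fin 2 → Matrix ι ι ℂ} {σ₂ : Fin 2 → Matrix κ κ ℂ}
    (h₁ : ∀ x, IsDensity (σ₁ x)) (h₂ : ∀ x, IsDensity (σ₂ x)) (α : ℝ)
    (hf₁ : NoisyMixture (if α = 1 then 11 else 5) σ₁)
    (hf₂ : NoisyMixture (if α = 1 then 11 else 5) σ₂)
    (hα : (0 < α ∧ α ≤ 2) ∨ (3 ≤ α ∧ α ≤ 4)) : Hsum α σ₁ σ₂ ≤ Fval α σ₁ σ₂ := by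
  have h0 : 0 < α := by
    rcases hα with h | h
    · exact h.1
    · linarith [h.1]
  by_cases h1 : α = 1
  · rw [if_pos h1] at hf₁ hf₂
    subst h1
    have p₁ := psdPair_state_one h₁
    have p₂ := psdPair_state_one h₂
    apply Hsum_le_Fval_one h₁ h₂
    rw [p₁.GfunOne_eq, p₂.GfunOne_eq, (p₁.kron p₂).GfunOne_eq]
    obtain ⟨m, P, f₁, b₁⟩ := fam_state_one h₁ (by norm_num) hf₁
    obtain ⟨n, Q, f₂, b₂⟩ := fam_state_one h₂ (by norm_num) hf₂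
    have e : ((11 : ℝ) - 1) / (11 + 1) = 5 / 6 := by norm_num
    rw [e] at b₁ b₂
    exact flag_one f₁ p₁ f₂ p₂ _ fun i j =>
      block_one (f₁.block p₁ i) (b₁ i) (f₂.block p₂ j) (b₂ j)
  · rw [if_neg h1] at hf₁ hf₂
    have p₁ := psdPair_state h₁ h0
    have p₂ := psdPair_state h₂ h0
    apply Hsum_le_Fval h₁ h₂ h0 h1
    rw [p₁.Gfun_eq h0, p₂.Gfun_eq h0, (p₁.kron p₂).Gfun_eq h0]
    obtain ⟨m, P, f₁, b₁⟩ := fam_state h₁ (by norm_num) hf₁ h0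
    obtain ⟨n, Q, f₂, b₂⟩ := fam_state h₂ (by norm_num) hf₂ h0
    have e : ((5 : ℝ) - 1) / (5 + 1) = 2 / 3 := by norm_num
    rw [e] at b₁ b₂
    exact flag_le f₁ p₁ f₂ p₂ h0 _ fun i j =>
      block_le α hα h1 (f₁.block p₁ i) (b₁ i) (f₂.block p₂ j) (b₂ j)

theorem mixture_ge {σ₁ : Fin 2 → Matrix ι ι ℂ} {σ₂ : Fin 2 → Matrix κ κ ℂ}
    (h₁ : ∀ x, IsDensity (σ₁ x)) (h₂ : ∀ x, IsDensity (σ₂ x)) (α : ℝ)
    (hf₁ : NoisyMixture (if α = 1 then 11 else 5) σ₁)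
    (hf₂ : NoisyMixture (if α = 1 then 11 else 5) σ₂)
    (h2 : 2 ≤ α) (h3 : α ≤ 3) : Fval α σ₁ σ₂ ≤ Hsum α σ₁ σ₂ := by
  have h0 : 0 < α := by linarith
  have h1 : α ≠ 1 := (by linarith : (1 : ℝ) < α).ne'
  rw [if_neg h1] at hf₁ hf₂
  have p₁ := psdPair_state h₁ h0
  have p₂ := psdPair_state h₂ h0
  apply Fval_le_Hsum_of_one_lt h₁ h₂ (by linarith)
  rw [p₁.Gfun_eq h0, p₂.Gfun_eq h0, (p₁.kron p₂).Gfun_eq h0]
  obtain ⟨m, P, f₁, b₁⟩ := fam_state h₁ (by norm_num) hf₁ h0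
  obtain ⟨n, Q, f₂, b₂⟩ := fam_state h₂ (by norm_num) hf₂ h0
  have e : ((5 : ℝ) - 1) / (5 + 1) = 2 / 3 := by norm_num
  rw [e] at b₁ b₂
  exact flag_ge f₁ p₁ f₂ p₂ h0 _ fun i j =>
    block_ge α h2 h3 (f₁.block p₁ i) (b₁ i) (f₂.block p₂ j) (b₂ j)

end Pool.Agent.RN
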