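import Pool.Agent.Lib_helper98.RC.T2

/-!
# The kernel bound behind `T_n ≥ T_2^(n/2)`
-/

open scoped BigOperators ComplexOrder Kronecker MatrixOrder Topology
open MeasureTheory Set Matrix Filter

namespace Pool.Agent.RN

open Pool.Agent.RC Pool.Agent.RC.KER

/-- `x^m / ((x+r)^(m+1) (y+r))` -/
noncomputable def kb (m : ℕ) (x y r : ℝ) : ℝ := x ^ m * ((x + r) ^ (m + 1))⁻¹ * (y + r)⁻¹

theorem kb_nonneg (m : ℕ) {x y r : ℝ} (hx : 0 < x) (hy : 0 < y) (hr : 0 < r) : 0 ≤ kb m x y r := by
  unfold kb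
  positivity

/-- Hermite-Hadamard in the variable `z/(z+r)` -/
theorem kb_int (m : ℕ) {x y r : ℝ} (hx : 0 < x) (hy : 0 < y) (hr : 0 < r) :
    ∫ t in (0 : ℝ)..1, (t * x + (1 - t) * y) ^ m * ((t * x + (1 - t) * y + r) ^ (m + 2))⁻¹ ≤
      (kb m x y r + kb m y x r) / 2 := by
  have hX : 0 < x + r := by linarith
  have hY : 0 < y + r := by linarith
  have hu : uIcc (0 : ℝ) 1 = Icc 0 1 := uIcc_of_le zero_le_one
  set p : ℝ := x / (x + r) with hp
  set q : ℝ := y / (y + r) with hq
  have hp0 : 0 ≤ p := by positivity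
  have hq0 : 0 ≤ q := by positivity
  set F : ℝ → ℝ := fun l => (l * p + (1 - l) * q) ^ m with hF
  have hFc : Continuous F := by
    rw [hF]
    fun_prop
  have hsub := subst (p := -2) hX hY (F := F) hFc.continuousOn
  have e1 : ∀ t ∈ uIcc (0 : ℝ) 1, (t * (x + r) + (1 - t) * (y + r)) ^ (-2 : ℝ) *
      F (t * (x + r) / (t * (x + r) + (1 - t) * (y + r))) =
      (t * x + (1 - t) * y) ^ m * ((t * x + (1 - t) * y + r) ^ (m + 2))⁻¹ := by
    intro t ht
    rw [hu] at ht
    have hL := comb_pos hX hY ht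
    have e : t * x + (1 - t) * y + r = t * (x + r) + (1 - t) * (y + r) := by ring
    rw [e]
    set L := t * (x + r) + (1 - t) * (y + r) with hLdef
    have hLr : L ^ (-2 : ℝ) = (L ^ 2)⁻¹ := by
      rw [Real.rpow_neg hL.le]
      norm_num
    rw [hLr]
    simp only [hF]
    have e2 : t * (x + r) / L * p + (1 - t * (x + r) / L) * q = (t * x + (1 - t) * y) / L := by
      rw [hp, hq]
      have e3 : 1 - t * (x + r) / L = (1 - t) * (y + r) / L := by
        rw [eq_div_iff hL.ne', sub_mul, div_mul_cancel₀ _ hL.ne', hLdef]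
        ring
      rw [e3]
      field_simp
    rw [e2, div_pow, pow_add]
    field_simp
  rw [intervalIntegral.integral_congr e1] at hsub
  rw [hsub]
  have e4 : ∀ l ∈ uIcc (0 : ℝ) 1, ((x + r) * (y + r)) ^ (-2 + 1 : ℝ) *
      (l * (y + r) + (1 - l) * (x + r)) ^ (-(-2 + 2) : ℝ) * F l =
      ((x + r) * (y + r))⁻¹ * F l := by
    intro l _
    have e5 : (-2 + 1 : ℝ) = -1 := by norm_num
    have e6 : (-(-2 + 2) : ℝ) = 0 := by norm_num
    rw [e5, e6, Real.rpow_zero, mul_one, Real.rpow_neg_one]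
  rw [intervalIntegral.integral_congr e4, intervalIntegral.integral_const_mul]
  have hle : ∫ l in (0 : ℝ)..1, F l ≤ ∫ l in (0 : ℝ)..1, (l * p ^ m + (1 - l) * q ^ m) := by
    apply intervalIntegral.integral_mono_on zero_le_one (hFc.intervalIntegrable _ _)
    · apply Continuous.intervalIntegrable
      fun_prop
    · intro l hl
      have hc := (convexOn_pow m).2 (mem_Ici.2 hp0) (mem_Ici.2 hq0) hl.1
        (by linarith [hl.2] : (0 : ℝ) ≤ 1 - l) (by ring)
      simpa [smul_eq_mul] using hc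
  have hval : ∫ l in (0 : ℝ)..1, (l * p ^ m + (1 - l) * q ^ m) = (p ^ m + q ^ m) / 2 := by
    have h1 : (fun l : ℝ => l * p ^ m + (1 - l) * q ^ m) =
        fun l => (p ^ m - q ^ m) * l + q ^ m := by
      funext l; ring
    rw [h1, intervalIntegral.integral_add (by apply Continuous.intervalIntegrable; fun_prop)
      (by apply Continuous.intervalIntegrable; fun_prop), intervalIntegral.integral_const_mul,
      integral_id, intervalIntegral.integral_const]
    simp
    ring
  rw [hval] at hle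
  refine (mul_le_mul_of_nonneg_left hle (by positivity)).trans (le_of_eq ?_)
  unfold kb
  rw [hp, hq, div_pow, div_pow, pow_succ, pow_succ]
  field_simp

theorem kb_le (m : ℕ) {x y r s M : ℝ} (hr : 0 < r) (hs : 0 < s)
    (hsx : s ≤ x) (hsy : s ≤ y) (hxM : x ≤ M) :
    kb m x y r ≤ M ^ m * ((s + r) ^ (m + 2))⁻¹ := by
  unfold kb
  have hx : 0 < x := lt_of_lt_of_le hs hsx
  have hy : 0 < y := lt_of_lt_of_le hs hsy
  have hsr : 0 < s + r := by linarith
  have hM : 0 ≤ M := hx.le.trans hxM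
  have i1 : ((x + r) ^ (m + 1))⁻¹ ≤ ((s + r) ^ (m + 1))⁻¹ :=
    inv_anti₀ (by positivity) (by gcongr)
  have i2 : (y + r)⁻¹ ≤ (s + r)⁻¹ := inv_anti₀ hsr (by linarith)
  have e : M ^ m * ((s + r) ^ (m + 2))⁻¹ = M ^ m * ((s + r) ^ (m + 1))⁻¹ * (s + r)⁻¹ := by
    rw [pow_succ (s + r) (m + 1), mul_inv]
    ring
  rw [e]
  have hM' : 0 ≤ M ^ m := pow_nonneg hM m
  have hi : 0 ≤ ((s + r) ^ (m + 1))⁻¹ := by positivity
  apply mul_le_mul _ i2 (by positivity) (mul_nonneg hM' hi)
  exact mul_le_mul (pow_le_pow_left₀ hx.le hxM m) i1 (by positivity) hM'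

theorem kb_continuousOn (m : ℕ) {x y : ℝ} (hx : 0 < x) (hy : 0 < y) :
    ContinuousOn (fun r => kb m x y r) (Ioi 0) := by
  unfold kb
  have h1 : ContinuousOn (fun r : ℝ => ((x + r) ^ (m + 1))⁻¹) (Ioi 0) :=
    ContinuousOn.inv₀ (by fun_prop) fun r hr => by
      have : (0 : ℝ) < r := hr
      positivity
  have h3 : ContinuousOn (fun r : ℝ => (y + r)⁻¹) (Ioi 0) :=
    ContinuousOn.inv₀ (by fun_prop) fun r hr => by
      have : (0 : ℝ) < r := hr
      positivity
  exact (continuousOn_const.mul h1).mul h3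

theorem kb_integrable (m : ℕ) {α x y : ℝ} (h0 : 0 < α) (h4 : α < (m + 2 : ℕ)) (hx : 0 < x)
    (hy : 0 < y) : IntegrableOn (fun r => r ^ (α - 1) * kb m x y r) (Ioi 0) := by
  have hm : 0 < min x y := lt_min hx hy
  have h1 := (integrableOn_scalar α (min x y) (m + 2) h0 h4 hm).const_mul ((max x y) ^ m)
  refine Integrable.mono' h1 ?_ ?_
  · apply ContinuousOn.aestronglyMeasurable _ measurableSet_Ioi
    exact (ContinuousOn.rpow_const continuousOn_id (fun r hr => Or.inl (ne_of_gt hr))).mul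
      (kb_continuousOn m hx hy)
  · refine ae_restrict_of_forall_mem measurableSet_Ioi fun r hr => ?_
    have hr0 : (0 : ℝ) < r := hr
    rw [Real.norm_of_nonneg (mul_nonneg (by positivity) (kb_nonneg m hx hy hr0))]
    calc r ^ (α - 1) * kb m x y r
        ≤ r ^ (α - 1) * ((max x y) ^ m * ((min x y + r) ^ (m + 2))⁻¹) :=
          mul_le_mul_of_nonneg_left (kb_le m hr0 hm (min_le_left _ _) (min_le_right _ _)
            (le_max_left _ _)) (by positivity)
      _ = _ := by ring

/-- the bound for `hk` -/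
theorem hk_le_kb (m : ℕ) {α x y : ℝ} (h0 : 0 < α) (h4 : α < (m + 2 : ℕ)) (hx : 0 < x)
    (hy : 0 < y) : bet α (m + 2) * hk α x y ≤
      ∫ r in Ioi (0 : ℝ), r ^ (α - 1) * ((kb m x y r + kb m y x r) / 2) := by
  have hm : 0 < min x y := lt_min hx hy
  set F : ℝ → ℝ → ℝ := fun r t => r ^ (α - 1) * ((t * x + (1 - t) * y) ^ m *
    ((t * x + (1 - t) * y + r) ^ (m + 2))⁻¹) with hF
  have hpos : ∀ t ∈ Ioc (0 : ℝ) 1, 0 < t * x + (1 - t) * y := fun t ht =>
    comb_pos hx hy ⟨ht.1.le, ht.2⟩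
  have hlow : ∀ t ∈ Ioc (0 : ℝ) 1, min x y ≤ t * x + (1 - t) * y := fun t ht => by
    have e1 := mul_le_mul_of_nonneg_left (min_le_left x y) ht.1.le
    have e2 := mul_le_mul_of_nonneg_left (min_le_right x y) (by linarith [ht.2] : 0 ≤ 1 - t)
    linarith
  have hupp : ∀ t ∈ Ioc (0 : ℝ) 1, t * x + (1 - t) * y ≤ max x y := fun t ht => by
    have e1 := mul_le_mul_of_nonneg_left (le_max_left x y) ht.1.le
    have e2 := mul_le_mul_of_nonneg_left (le_max_right x y) (by linarith [ht.2] : 0 ≤ 1 - t)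
    linarith
  have hint : Integrable (Function.uncurry F)
      ((volume.restrict (Ioi (0 : ℝ))).prod (volume.restrict (Ioc (0 : ℝ) 1))) := by
    have h1 := (integrableOn_scalar α (min x y) (m + 2) h0 h4 hm).const_mul ((max x y) ^ m)
    have h2 : Integrable (fun p : ℝ × ℝ => (max x y) ^ m *
        (p.1 ^ (α - 1) * ((min x y + p.1) ^ (m + 2))⁻¹))
        ((volume.restrict (Ioi (0 : ℝ))).prod (volume.restrict (Ioc (0 : ℝ) 1))) :=
      Integrable.comp_fst h1 _
    refine Integrable.mono' h2 ?_ ?_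
    · apply Measurable.aestronglyMeasurable
      simp only [hF, Function.uncurry_def]
      fun_prop
    · have a1 : ∀ᵐ p ∂((volume.restrict (Ioi (0 : ℝ))).prod (volume.restrict (Ioc (0 : ℝ) 1))),
          p.1 ∈ Ioi (0 : ℝ) :=
        Measure.quasiMeasurePreserving_fst.ae (ae_restrict_mem measurableSet_Ioi)
      have a2 : ∀ᵐ p ∂((volume.restrict (Ioi (0 : ℝ))).prod (volume.restrict (Ioc (0 : ℝ) 1))),
          p.2 ∈ Ioc (0 : ℝ) 1 :=
        Measure.quasiMeasurePreserving_snd.ae (ae_restrict_mem measurableSet_Ioc)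
      filter_upwards [a1, a2] with p hp1 hp2
      have hr0 : (0 : ℝ) < p.1 := hp1
      have hl := hpos p.2 hp2
      have hl1 := hlow p.2 hp2
      have hl2 := hupp p.2 hp2
      simp only [hF, Function.uncurry_def]
      rw [Real.norm_of_nonneg (by positivity)]
      calc p.1 ^ (α - 1) * ((p.2 * x + (1 - p.2) * y) ^ m *
            ((p.2 * x + (1 - p.2) * y + p.1) ^ (m + 2))⁻¹)
          ≤ p.1 ^ (α - 1) * ((max x y) ^ m * ((min x y + p.1) ^ (m + 2))⁻¹) := by
            apply mul_le_mul_of_nonneg_left _ (by positivity)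
            apply mul_le_mul
            · gcongr
            · apply inv_anti₀ (by positivity)
              gcongr
            · positivity
            · positivity
        _ = _ := by ring
  have hR : ∀ t ∈ Ioc (0 : ℝ) 1, ∫ r in Ioi (0 : ℝ), F r t =
      bet α (m + 2) * (t * x + (1 - t) * y) ^ (α - 2) := by
    intro t ht
    have hl := hpos t ht
    have e : (fun r => F r t) = fun r => (t * x + (1 - t) * y) ^ m *
        (r ^ (α - 1) * ((t * x + (1 - t) * y + r) ^ (m + 2))⁻¹) := by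
      funext r; simp only [hF]; ring
    rw [e, integral_const_mul, bet_scale α _ (m + 2) hl]
    have e2 : (t * x + (1 - t) * y) ^ (α - 2) =
        (t * x + (1 - t) * y) ^ m * (t * x + (1 - t) * y) ^ (α - ((m + 2 : ℕ) : ℝ)) := by
      rw [← Real.rpow_natCast (t * x + (1 - t) * y) m, ← Real.rpow_add hl]
      congr 1
      push_cast
      ring
    rw [e2]
    ring
  have hswap := integral_integral_swap hint
  rw [setIntegral_congr_fun measurableSet_Ioc hR, integral_const_mul,
    ← intervalIntegral.integral_of_le zero_le_one] at hswap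
  have h5 : bet α (m + 2) * hk α x y = ∫ r in Ioi (0 : ℝ), ∫ t in Ioc (0 : ℝ) 1, F r t := by
    rw [hswap]
    rfl
  rw [h5]
  have hint2 := hint.integral_prod_left
  apply setIntegral_mono_on hint2 _ measurableSet_Ioi
  · intro r hr
    have hr0 : (0 : ℝ) < r := hr
    simp only [Function.uncurry_def, hF]
    rw [integral_const_mul]
    apply mul_le_mul_of_nonneg_left _ (by positivity)
    rw [← intervalIntegral.integral_of_le zero_le_one]
    exact kb_int m hx hy hr0
  · have h6 : IntegrableOn (fun r : ℝ => (r ^ (α - 1) * kb m x y r +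
        r ^ (α - 1) * kb m y x r) / 2) (Ioi 0) :=
      ((kb_integrable m h0 h4 hx hy).add (kb_integrable m h0 h4 hy hx)).div_const 2
    refine h6.congr_fun (fun r _ => ?_) measurableSet_Ioi
    show (r ^ (α - 1) * kb m x y r + r ^ (α - 1) * kb m y x r) / 2 =
      r ^ (α - 1) * ((kb m x y r + kb m y x r) / 2)
    ring

end Pool.Agent.RN
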