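import Pool.Agent.Lib_helper98.RC.T2
import Pool.Agent.Lib_helper92.RC.Dec24

/-!
# Noisy states (MP_859019_mp): the functional `T₂` for `α ∈ (0,2]`

`T₂` is supermultiplicative for all pairs also for `α ∈ (0,2]`, and it equals `In 2 / bet 2`
for `α ∈ (0,2)`.
-/

open scoped BigOperators ComplexOrder Kronecker MatrixOrder Topology
open MeasureTheory Set Matrix Filter

namespace Pool.Agent.RN

open Pool.Agent.RC Pool.Agent.RC.KER Pool.Agent.RC.DEC

variable {ι κ : Type} [Fintype ι] [DecidableEq ι] [Fintype κ] [DecidableEq κ]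

theorem hk_ge02 (α a b c d : ℝ) (h0 : 0 ≤ α) (h2 : α ≤ 2) (ha : 0 < a) (hb : 0 < b) (hc : 0 < c)
    (hd : 0 < d) : hk α a b * hk α c d ≤ (hk α (a * c) (b * d) + hk α (a * d) (b * c)) / 2 := by
  obtain ⟨W, F, hW, hF, hW', hF', e1, e2⟩ := setup α a b c d ha hb hc hd
  rw [e1, e2]
  refine mul_le_mul_of_nonneg_left (cheb_int hW hF fun s hs t ht => ?_)
    (div_nonneg (Real.rpow_nonneg (mul_pos ha hb).le _) (by norm_num))
  rw [hW', hW', hF', hF']
  have cW : ConvexOn ℝ (Ioi 0) fun x : ℝ => x ^ (-α) := convexOn_rpow_neg h0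
  have cF : ConvexOn ℝ (Ioi 0) fun x : ℝ => x ^ (α - 2) := by
    have h := convexOn_rpow_neg (q := 2 - α) (by linarith)
    rwa [neg_sub] at h
  rcases le_total |s - 1 / 2| |t - 1 / 2| with h | h
  · have a1 := S_mono cW hb ha hs ht h
    have a2 := S_mono cF hc hd hs ht h
    exact mul_nonneg_of_nonpos_of_nonpos (by linarith) (by linarith)
  · have a1 := S_mono cW hb ha ht hs h
    have a2 := S_mono cF hc hd ht hs h
    exact mul_nonneg (by linarith) (by linarith)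

theorem T2_kron_ge02 (α : ℝ) (h0 : 0 < α) (h2 : α ≤ 2) (A₁ D₁ : Matrix ι ι ℂ)
    (A₂ D₂ : Matrix κ κ ℂ) (hA₁ : A₁.PosDef) (hD₁ : D₁.IsHermitian) (hA₂ : A₂.PosDef)
    (hD₂ : D₂.IsHermitian) : T2 α A₁ D₁ * T2 α A₂ D₂ ≤ T2 α (A₁ ⊗ₖ A₂) (D₁ ⊗ₖ D₂) := by
  obtain ⟨a, b, E, F, ha, hb, hE, hF, e1, e2, e3⟩ := T2_kron_diag α A₁ D₁ A₂ D₂ hA₁ hD₁ hA₂ hD₂
  have h4 : α < 4 := by linarith
  rw [e1, e2, e3, T2_prod_dg α h0 h4 a ha b hb E hE F hF, T2_kron_dg α h0 h4 a ha b hb E hE F hF]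
  refine Finset.sum_le_sum fun i _ => Finset.sum_le_sum fun j _ => ?_
  refine mul_le_mul_of_nonneg_left ?_ (by positivity)
  refine Finset.sum_le_sum fun k _ => Finset.sum_le_sum fun l _ => ?_
  exact mul_le_mul_of_nonneg_left (hk_ge02 α _ _ _ _ h0.le h2 (ha i) (ha j) (hb k) (hb l))
    (by positivity)

/-- equality version of `DEC.main_ineq` -/
theorem main_eq {A D : Matrix ι ι ℂ} (h : IsPair A D) {α : ℝ} (h0 : 0 < α) {n : ℕ}
    (hα : α < n) (hi : IntegrableOn (fun r => r ^ (α - 1) * (n * qn A D n r -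
      (n - α) * (n + 1 - α) * tn A D n r)) (Ioi 0)) :
    ∫ r in Ioi (0 : ℝ), r ^ (α - 1) * (n * qn A D n r -
      (n - α) * (n + 1 - α) * tn A D n r) = 0 := by
  have hun : ⋃ m : ℕ, Ioc (1 / ((m : ℝ) + 1)) ((m : ℝ) + 1) = Ioi 0 := by
    ext x
    simp only [mem_iUnion, mem_Ioc, mem_Ioi]
    constructor
    · rintro ⟨m, h1, h2⟩
      have : (0 : ℝ) < 1 / ((m : ℝ) + 1) := by positivity
      linarith
    · intro hx
      obtain ⟨m, hm⟩ := exists_nat_gt (x + 1 / x)
      refine ⟨m, ?_, ?_⟩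
      · rw [div_lt_iff₀ (by positivity)]
        have h1 : 1 / x < m := by linarith
        rw [div_lt_iff₀ hx] at h1
        nlinarith
      · have : 0 < 1 / x := by positivity
        linarith
  have hmono : Monotone fun m : ℕ => Ioc (1 / ((m : ℝ) + 1)) ((m : ℝ) + 1) := by
    intro m m' hmm
    apply Ioc_subset_Ioc
    · apply one_div_le_one_div_of_le (by positivity)
      have : (m : ℝ) ≤ m' := by exact_mod_cast hmm
      linarith
    · have : (m : ℝ) ≤ m' := by exact_mod_cast hmm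
      linarith
  have hlim := tendsto_setIntegral_of_monotone (μ := volume)
    (f := fun r : ℝ => r ^ (α - 1) * (n * qn A D n r - (n - α) * (n + 1 - α) * tn A D n r))
    (s := fun m : ℕ => Ioc (1 / ((m : ℝ) + 1)) ((m : ℝ) + 1)) (fun m => measurableSet_Ioc) hmono
    (by rw [hun]; exact hi)
  rw [hun] at hlim
  have hlim2 : Tendsto (fun m : ℕ => Psi α A D n ((m : ℝ) + 1) - Psi α A D n (1 / ((m : ℝ) + 1)))
      atTop (𝓝 0) := by
    simpa using (tendsto_Psi_top h hα).sub (tendsto_Psi_zero h h0 hα)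
  refine tendsto_nhds_unique hlim (hlim2.congr fun m => ?_)
  have hab : 1 / ((m : ℝ) + 1) ≤ (m : ℝ) + 1 := by
    rw [div_le_iff₀ (by positivity)]; nlinarith [Nat.cast_nonneg (α := ℝ) m]
  have hpos : (0 : ℝ) < 1 / ((m : ℝ) + 1) := by positivity
  rw [← intervalIntegral.integral_of_le hab]
  symm
  apply intervalIntegral.integral_eq_sub_of_hasDerivAt_of_le hab
  · intro x hx
    exact (hasDerivAt_Psi h.pos α n (lt_of_lt_of_le hpos hx.1)).continuousAt.continuousWithinAt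
  · intro x hx
    exact hasDerivAt_Psi h.pos α n (lt_trans hpos hx.1)
  · rw [intervalIntegrable_iff_integrableOn_Ioc_of_le hab]
    exact hi.mono_set fun x hx => lt_trans hpos hx.1

theorem isPair_herm {A D : Matrix ι ι ℂ} (h : IsPair A D) : D.IsHermitian := by
  have h1 : D = A - (A - D) := by abel
  rw [h1]
  exact h.pos.1.sub h.sub.1

/-- for `α ∈ (0,2)` the functional `T₂` is `In 2 / bet 2` -/
theorem In2_eq_T2 (α : ℝ) (h0 : 0 < α) (h2 : α < 2) (A D : Matrix ι ι ℂ) (h : IsPair A D) :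
    In α A D 2 / bet α 2 = T2 α A D := by
  have hα : α < ((2 : ℕ) : ℝ) := by exact_mod_cast h2
  have i1 := integrableOn_tn' h h0 hα
  have i2 := S24.integrableOn_j2 h0 (by linarith) h.pos (isPair_herm h)
  have e0 : (fun r : ℝ => r ^ (α - 1) * (((2 : ℕ) : ℝ) * qn A D 2 r -
      (((2 : ℕ) : ℝ) - α) * (((2 : ℕ) : ℝ) + 1 - α) * tn A D 2 r)) = fun r =>
      2 * (r ^ (α - 1) * j2 A D r) - ((2 - α) * (3 - α)) * (r ^ (α - 1) * tn A D 2 r) := by
    funext r
    rw [S24.qn_two]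
    push_cast
    ring
  have key := main_eq h h0 hα (by
    rw [e0]
    exact (i2.const_mul _).sub (i1.const_mul _))
  rw [e0, integral_sub (i2.const_mul _) (i1.const_mul _), integral_const_mul,
    integral_const_mul] at key
  have hb2 : 0 < bet α 2 := S24.bet_pos' h0 hα
  have hb4 : 0 < bet α 4 := S24.bet_pos' h0 (by
    push_cast
    linarith)
  have hrec := bet_rec α 2 h0 hα
  push_cast at hrec
  norm_num at hrec
  unfold T2
  rw [div_eq_div_iff hb2.ne' (by positivity)]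
  have e1 : ((2 - α) * (3 - α)) * In α A D 2 = 2 * ∫ r in Ioi (0 : ℝ), r ^ (α - 1) * j2 A D r := by
    unfold In
    linarith
  have h3 : 0 < (2 - α) * (3 - α) := mul_pos (by linarith) (by linarith)
  apply mul_left_cancel₀ h3.ne'
  calc (2 - α) * (3 - α) * (In α A D 2 * (3 * bet α 4))
      = ((2 - α) * (3 - α) * In α A D 2) * (3 * bet α 4) := by ring
    _ = (∫ r in Ioi (0 : ℝ), r ^ (α - 1) * j2 A D r) * (6 * bet α 4) := by rw [e1]; ring
    _ = (∫ r in Ioi (0 : ℝ), r ^ (α - 1) * j2 A D r) * ((2 - α) * (3 - α) * bet α 2) := by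
        rw [hrec]
    _ = _ := by ring

end Pool.Agent.RN
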