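import Pool.Agent.Lib_helper88.RN.Master

/-!
# Noisy states: positive semidefinite `A`, closed ranges of `α`, and `α = 1`
-/

open scoped BigOperators ComplexOrder Kronecker MatrixOrder Topology
open MeasureTheory Set Matrix Filter

namespace Pool.Agent.RN

open Pool.Agent.RC

variable {ι κ : Type} [Fintype ι] [DecidableEq ι] [Fintype κ] [DecidableEq κ]

/-- `A ≥ 0` and `-d A ≤ D ≤ d A` -/
structure PNoise (A D : Matrix ι ι ℂ) (d : ℝ) : Prop where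
  pos : A.PosSemidef
  sub : ((d : ℂ) • A - D).PosSemidef
  add : ((d : ℂ) • A + D).PosSemidef

theorem PNoise.pair {A D : Matrix ι ι ℂ} {d : ℝ} (h : PNoise A D d) (hd : d ≤ 1) :
    IsPsdPair A D where
  pos := h.pos
  sub := by
    have h1 := h.sub.add (psd_smul_real h.pos (sub_nonneg.2 hd))
    have h2 : (d : ℂ) • A - D + ((1 - d : ℝ) : ℂ) • A = A - D := by
      rw [Complex.ofReal_sub, Complex.ofReal_one, sub_smul, one_smul]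
      abel
    rwa [h2] at h1
  add := by
    have h1 := h.add.add (psd_smul_real h.pos (sub_nonneg.2 hd))
    have h2 : (d : ℂ) • A + D + ((1 - d : ℝ) : ℂ) • A = A + D := by
      rw [Complex.ofReal_sub, Complex.ofReal_one, sub_smul, one_smul]
      abel
    rwa [h2] at h1

theorem PNoise.shift {A D : Matrix ι ι ℂ} {d : ℝ} (h : PNoise A D d) (hd : 0 ≤ d) (j : ℕ) :
    Noise (shift A j) D d := by
  have e := eps_posDef (ι := ι) j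
  refine ⟨?_, ?_, ?_⟩
  · unfold RC.shift
    rw [add_comm]
    exact e.add_posSemidef h.pos
  · have h1 := h.sub.add (psd_smul_real e.posSemidef hd)
    have h2 : (d : ℂ) • A - D + (d : ℂ) • (((1 / ((j : ℝ) + 1) : ℝ) : ℂ) •
        (1 : Matrix ι ι ℂ)) = (d : ℂ) • RC.shift A j - D := by
      unfold RC.shift
      rw [smul_add]
      abel
    rwa [h2] at h1
  · have h1 := h.add.add (psd_smul_real e.posSemidef hd)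
    have h2 : (d : ℂ) • A + D + (d : ℂ) • (((1 / ((j : ℝ) + 1) : ℝ) : ℂ) •
        (1 : Matrix ι ι ℂ)) = (d : ℂ) • RC.shift A j + D := by
      unfold RC.shift
      rw [smul_add]
      abel
    rwa [h2] at h1

/-- the two sides of the master inequality -/
noncomputable def lhs (α : ℝ) (A₁ D₁ : Matrix ι ι ℂ) (A₂ D₂ : Matrix κ κ ℂ) : ℝ :=
  G α A₁ D₁ * G α A₂ D₂

noncomputable def mid (α : ℝ) (A₁ D₁ : Matrix ι ι ℂ) (A₂ D₂ : Matrix κ κ ℂ) : ℝ :=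
  G α (A₁ ⊗ₖ A₂) (D₁ ⊗ₖ D₂) / (α * (α - 1) / 2)

noncomputable def gg (α d₁ d₂ : ℝ) : ℝ := (gs α d₁ / d₁ ^ 2) * (gs α d₂ / d₂ ^ 2)

theorem psd_pos (α : ℝ) (hα : (0 < α ∧ α < 2 ∧ α ≠ 1) ∨ (3 < α ∧ α < 4))
    {A₁ D₁ : Matrix ι ι ℂ} {d₁ : ℝ} (hd₁ : 0 < d₁) (hd₁' : d₁ ≤ 1) (h₁ : PNoise A₁ D₁ d₁)
    {A₂ D₂ : Matrix κ κ ℂ} {d₂ : ℝ} (hd₂ : 0 < d₂) (hd₂' : d₂ ≤ 1) (h₂ : PNoise A₂ D₂ d₂) :
    0 ≤ mid α A₁ D₁ A₂ D₂ ∧ lhs α A₁ D₁ A₂ D₂ ≤ gg α d₁ d₂ * mid α A₁ D₁ A₂ D₂ := by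
  have h0 : 0 < α := by
    rcases hα with h | h
    · exact h.1
    · linarith [h.1]
  have p₁ := h₁.pair hd₁'
  have p₂ := h₂.pair hd₂'
  have t12 := (tendsto_G_shift_kron h0 p₁.pos.1 p₁.herm p₂.pos.1 p₂.herm).div_const
    (α * (α - 1) / 2)
  have t1 := (tendsto_G_shift h0 p₁.pos.1 p₁.herm).mul (tendsto_G_shift h0 p₂.pos.1 p₂.herm)
  constructor
  · apply ge_of_tendsto' t12
    intro j
    exact (open_pos α hα hd₁ hd₁' (h₁.shift hd₁.le j) hd₂ hd₂' (h₂.shift hd₂.le j)).1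
  · apply le_of_tendsto_of_tendsto' t1 (t12.const_mul (gg α d₁ d₂))
    intro j
    exact (open_pos α hα hd₁ hd₁' (h₁.shift hd₁.le j) hd₂ hd₂' (h₂.shift hd₂.le j)).2

theorem psd_neg (α : ℝ) (h2 : 2 < α) (h3 : α < 3)
    {A₁ D₁ : Matrix ι ι ℂ} {d₁ : ℝ} (hd₁ : 0 < d₁) (hd₁' : d₁ ≤ 1) (h₁ : PNoise A₁ D₁ d₁)
    {A₂ D₂ : Matrix κ κ ℂ} {d₂ : ℝ} (hd₂ : 0 < d₂) (hd₂' : d₂ ≤ 1) (h₂ : PNoise A₂ D₂ d₂) :
    0 ≤ mid α A₁ D₁ A₂ D₂ ∧ gg α d₁ d₂ * mid α A₁ D₁ A₂ D₂ ≤ lhs α A₁ D₁ A₂ D₂ := by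
  have h0 : 0 < α := by linarith
  have p₁ := h₁.pair hd₁'
  have p₂ := h₂.pair hd₂'
  have t12 := (tendsto_G_shift_kron h0 p₁.pos.1 p₁.herm p₂.pos.1 p₂.herm).div_const
    (α * (α - 1) / 2)
  have t1 := (tendsto_G_shift h0 p₁.pos.1 p₁.herm).mul (tendsto_G_shift h0 p₂.pos.1 p₂.herm)
  constructor
  · apply ge_of_tendsto' t12
    intro j
    exact (open_neg α h2 h3 hd₁ hd₁' (h₁.shift hd₁.le j) hd₂ hd₂' (h₂.shift hd₂.le j)).1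
  · apply le_of_tendsto_of_tendsto' (t12.const_mul (gg α d₁ d₂)) t1
    intro j
    exact (open_neg α h2 h3 hd₁ hd₁' (h₁.shift hd₁.le j) hd₂ hd₂' (h₂.shift hd₂.le j)).2

/-- continuity in the exponent -/
theorem tendsto_gs_exp (d : ℝ) (hd : |d| ≤ 1) (α₀ : ℝ) (h : 0 < α₀) :
    Tendsto (fun α => gs α d) (𝓝 α₀) (𝓝 (gs α₀ d)) := by
  have h1 : ∀ x : ℝ, Tendsto (fun α : ℝ => x ^ α) (𝓝 α₀) (𝓝 (x ^ α₀)) := fun x =>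
    (Real.continuousAt_const_rpow' h.ne' : ContinuousAt (fun y => x ^ y) α₀)
  unfold gs
  exact (((h1 _).add (h1 _)).div_const 2).sub tendsto_const_nhds

theorem tendsto_sides' (A₁ D₁ : Matrix ι ι ℂ) (A₂ D₂ : Matrix κ κ ℂ) (d₁ d₂ : ℝ)
    (hd₁ : |d₁| ≤ 1) (hd₂ : |d₂| ≤ 1) (α₀ : ℝ) (h : 0 < α₀) (h1 : α₀ ≠ 1)
    (F : Filter ℝ) (hF : F ≤ 𝓝 α₀) :
    Tendsto (fun α => lhs α A₁ D₁ A₂ D₂) F (𝓝 (lhs α₀ A₁ D₁ A₂ D₂)) ∧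
    Tendsto (fun α => mid α A₁ D₁ A₂ D₂) F (𝓝 (mid α₀ A₁ D₁ A₂ D₂)) ∧
    Tendsto (fun α => gg α d₁ d₂) F (𝓝 (gg α₀ d₁ d₂)) := by
  refine ⟨?_, ?_, ?_⟩
  · exact ((tendsto_G_exp A₁ D₁ α₀ h).mul (tendsto_G_exp A₂ D₂ α₀ h)).mono_left hF
  · apply Tendsto.mono_left _ hF
    apply (tendsto_G_exp (A₁ ⊗ₖ A₂) (D₁ ⊗ₖ D₂) α₀ h).div
    · have : Continuous fun α : ℝ => α * (α - 1) / 2 := by fun_prop
      exact this.tendsto α₀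
    · have h2 : α₀ - 1 ≠ 0 := sub_ne_zero.2 h1
      exact div_ne_zero (mul_ne_zero h.ne' h2) two_ne_zero
  · apply Tendsto.mono_left _ hF
    exact ((tendsto_gs_exp d₁ hd₁ α₀ h).div_const _).mul ((tendsto_gs_exp d₂ hd₂ α₀ h).div_const _)

/-- the master inequality on `(0,2] ∪ [3,4]` -/
theorem MI_pos (α : ℝ) (hα : (0 < α ∧ α ≤ 2) ∨ (3 ≤ α ∧ α ≤ 4)) (hα1 : α ≠ 1)
    {A₁ D₁ : Matrix ι ι ℂ} {d₁ : ℝ} (hd₁ : 0 < d₁) (hd₁' : d₁ ≤ 1) (h₁ : PNoise A₁ D₁ d₁)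
    {A₂ D₂ : Matrix κ κ ℂ} {d₂ : ℝ} (hd₂ : 0 < d₂) (hd₂' : d₂ ≤ 1) (h₂ : PNoise A₂ D₂ d₂) :
    0 ≤ mid α A₁ D₁ A₂ D₂ ∧ lhs α A₁ D₁ A₂ D₂ ≤ gg α d₁ d₂ * mid α A₁ D₁ A₂ D₂ := by
  have a₁ : |d₁| ≤ 1 := by rw [abs_of_pos hd₁]; exact hd₁'
  have a₂ : |d₂| ≤ 1 := by rw [abs_of_pos hd₂]; exact hd₂'
  have lim : ∀ (α₀ : ℝ) (F : Filter ℝ) [F.NeBot], 0 < α₀ → α₀ ≠ 1 → F ≤ 𝓝 α₀ →
      (∀ᶠ α in F, (0 < α ∧ α < 2 ∧ α ≠ 1) ∨ (3 < α ∧ α < 4)) →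
      0 ≤ mid α₀ A₁ D₁ A₂ D₂ ∧ lhs α₀ A₁ D₁ A₂ D₂ ≤ gg α₀ d₁ d₂ * mid α₀ A₁ D₁ A₂ D₂ := by
    intro α₀ F _ h0 h1 hF hev
    obtain ⟨t1, t2, t3⟩ := tendsto_sides' A₁ D₁ A₂ D₂ d₁ d₂ a₁ a₂ α₀ h0 h1 F hF
    constructor
    · apply ge_of_tendsto t2
      filter_upwards [hev] with α hα
      exact (psd_pos α hα hd₁ hd₁' h₁ hd₂ hd₂' h₂).1
    · apply le_of_tendsto_of_tendsto t1 (t3.mul t2)
      filter_upwards [hev] with α hα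
      exact (psd_pos α hα hd₁ hd₁' h₁ hd₂ hd₂' h₂).2
  rcases hα with ⟨h0, h2⟩ | ⟨h3, h4⟩
  · rcases eq_or_lt_of_le h2 with rfl | h2'
    · apply lim 2 (𝓝[<] 2) two_pos (by norm_num) nhdsWithin_le_nhds
      have hev : ∀ᶠ α : ℝ in 𝓝[<] 2, α ∈ Ioo (1 : ℝ) 2 := Ioo_mem_nhdsLT (by norm_num)
      filter_upwards [hev] with α hα
      exact Or.inl ⟨by linarith [hα.1], hα.2, ne_of_gt hα.1⟩
    · exact psd_pos α (Or.inl ⟨h0, h2', hα1⟩) hd₁ hd₁' h₁ hd₂ hd₂' h₂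
  · rcases eq_or_lt_of_le h3 with rfl | h3'
    · apply lim 3 (𝓝[>] 3) three_pos (by norm_num) nhdsWithin_le_nhds
      have hev : ∀ᶠ α : ℝ in 𝓝[>] 3, α ∈ Ioo (3 : ℝ) 4 := Ioo_mem_nhdsGT (by norm_num)
      filter_upwards [hev] with α hα
      exact Or.inr hα
    rcases eq_or_lt_of_le h4 with rfl | h4'
    · apply lim 4 (𝓝[<] 4) four_pos (by norm_num) nhdsWithin_le_nhds
      have hev : ∀ᶠ α : ℝ in 𝓝[<] 4, α ∈ Ioo (3 : ℝ) 4 := Ioo_mem_nhdsLT (by norm_num)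
      filter_upwards [hev] with α hα
      exact Or.inr hα
    exact psd_pos α (Or.inr ⟨h3', h4'⟩) hd₁ hd₁' h₁ hd₂ hd₂' h₂

/-- the reversed master inequality on `[2,3]` -/
theorem MI_neg (α : ℝ) (h2 : 2 ≤ α) (h3 : α ≤ 3)
    {A₁ D₁ : Matrix ι ι ℂ} {d₁ : ℝ} (hd₁ : 0 < d₁) (hd₁' : d₁ ≤ 1) (h₁ : PNoise A₁ D₁ d₁)
    {A₂ D₂ : Matrix κ κ ℂ} {d₂ : ℝ} (hd₂ : 0 < d₂) (hd₂' : d₂ ≤ 1) (h₂ : PNoise A₂ D₂ d₂) :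
    0 ≤ mid α A₁ D₁ A₂ D₂ ∧ gg α d₁ d₂ * mid α A₁ D₁ A₂ D₂ ≤ lhs α A₁ D₁ A₂ D₂ := by
  have a₁ : |d₁| ≤ 1 := by rw [abs_of_pos hd₁]; exact hd₁'
  have a₂ : |d₂| ≤ 1 := by rw [abs_of_pos hd₂]; exact hd₂'
  have lim : ∀ (α₀ : ℝ) (F : Filter ℝ) [F.NeBot], 0 < α₀ → α₀ ≠ 1 → F ≤ 𝓝 α₀ →
      (∀ᶠ α in F, 2 < α ∧ α < 3) →
      0 ≤ mid α₀ A₁ D₁ A₂ D₂ ∧ gg α₀ d₁ d₂ * mid α₀ A₁ D₁ A₂ D₂ ≤ lhs α₀ A₁ D₁ A₂ D₂ := by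
    intro α₀ F _ h0 h1 hF hev
    obtain ⟨t1, t2, t3⟩ := tendsto_sides' A₁ D₁ A₂ D₂ d₁ d₂ a₁ a₂ α₀ h0 h1 F hF
    constructor
    · apply ge_of_tendsto t2
      filter_upwards [hev] with α hα
      exact (psd_neg α hα.1 hα.2 hd₁ hd₁' h₁ hd₂ hd₂' h₂).1
    · apply le_of_tendsto_of_tendsto (t3.mul t2) t1
      filter_upwards [hev] with α hα
      exact (psd_neg α hα.1 hα.2 hd₁ hd₁' h₁ hd₂ hd₂' h₂).2
  rcases eq_or_lt_of_le h2 with rfl | h2'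
  · apply lim 2 (𝓝[>] 2) two_pos (by norm_num) nhdsWithin_le_nhds
    have hev : ∀ᶠ α : ℝ in 𝓝[>] 2, α ∈ Ioo (2 : ℝ) 3 := Ioo_mem_nhdsGT (by norm_num)
    filter_upwards [hev] with α hα
    exact hα
  rcases eq_or_lt_of_le h3 with rfl | h3'
  · apply lim 3 (𝓝[<] 3) three_pos (by norm_num) nhdsWithin_le_nhds
    have hev : ∀ᶠ α : ℝ in 𝓝[<] 3, α ∈ Ioo (2 : ℝ) 3 := Ioo_mem_nhdsLT (by norm_num)
    filter_upwards [hev] with α hα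
    exact hα
  exact psd_neg α h2' h3' hd₁ hd₁' h₁ hd₂ hd₂' h₂

/-- the scalar functional at `α = 1` -/
noncomputable def gs1 (d : ℝ) : ℝ :=
  ((1 + d) * Real.log (1 + d) + (1 - d) * Real.log (1 - d)) / 2

/-- the master inequality at `α = 1` -/
theorem MI_one {A₁ D₁ : Matrix ι ι ℂ} {d₁ : ℝ} (hd₁ : 0 < d₁) (hd₁' : d₁ ≤ 1)
    (h₁ : PNoise A₁ D₁ d₁) {A₂ D₂ : Matrix κ κ ℂ} {d₂ : ℝ} (hd₂ : 0 < d₂) (hd₂' : d₂ ≤ 1)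
    (h₂ : PNoise A₂ D₂ d₂) : 0 ≤ G1 (A₁ ⊗ₖ A₂) (D₁ ⊗ₖ D₂) ∧
    G1 A₁ D₁ * G1 A₂ D₂ ≤ (gs1 d₁ / d₁ ^ 2) * (gs1 d₂ / d₂ ^ 2) *
      (2 * G1 (A₁ ⊗ₖ A₂) (D₁ ⊗ₖ D₂)) := by
  have p₁ := h₁.pair hd₁'
  have p₂ := h₂.pair hd₂'
  have hk := p₁.kron p₂
  have t1 := (tendsto_G1 A₁ D₁ p₁.pos p₁.sub p₁.add).mul
    (tendsto_G1 A₂ D₂ p₂.pos p₂.sub p₂.add)
  have t12 := tendsto_G1 (A₁ ⊗ₖ A₂) (D₁ ⊗ₖ D₂) hk.pos hk.sub hk.add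
  have tg : ∀ d : ℝ, 0 < d → d ≤ 1 → Tendsto (fun α => gs α d / (α - 1)) (𝓝[>] 1)
      (𝓝 (gs1 d)) := by
    intro d hd hd'
    have hu := (noise_unit hd.le hd').isPair le_rfl
    have := tendsto_G1 (1 : Matrix Unit Unit ℂ) ((d : ℂ) • 1) hu.pos.posSemidef hu.sub hu.add
    rw [G1_unit] at this
    unfold gs1
    simpa only [G_unit] using this
  have tα : Tendsto (fun α : ℝ => 2 / α) (𝓝[>] 1) (𝓝 (2 / 1)) := by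
    apply Tendsto.mono_left _ nhdsWithin_le_nhds
    exact (continuousAt_const.div continuousAt_id one_ne_zero : ContinuousAt (fun α : ℝ => 2 / α) 1)
  rw [div_one] at tα
  have hev : ∀ᶠ α : ℝ in 𝓝[>] 1, α ∈ Ioo (1 : ℝ) 2 := Ioo_mem_nhdsGT (by norm_num)
  constructor
  · apply ge_of_tendsto t12
    filter_upwards [hev] with α hα
    have h3 := (psd_pos α (Or.inl ⟨by linarith [hα.1], hα.2, ne_of_gt hα.1⟩) hd₁ hd₁' h₁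
      hd₂ hd₂' h₂).1
    unfold mid at h3
    have h4 : 0 < α - 1 := by linarith [hα.1]
    have h5 : 0 < α := by linarith
    have h6 : G α (A₁ ⊗ₖ A₂) (D₁ ⊗ₖ D₂) / (α - 1) =
        (G α (A₁ ⊗ₖ A₂) (D₁ ⊗ₖ D₂) / (α * (α - 1) / 2)) * (α / 2) := by
      field_simp
    rw [h6]
    positivity
  · have t3 := (((tg d₁ hd₁ hd₁').div_const (d₁ ^ 2)).mul
      ((tg d₂ hd₂ hd₂').div_const (d₂ ^ 2))).mul (tα.mul t12)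
    apply le_of_tendsto_of_tendsto t1 t3
    filter_upwards [hev] with α hα
    have h3 := (psd_pos α (Or.inl ⟨by linarith [hα.1], hα.2, ne_of_gt hα.1⟩) hd₁ hd₁' h₁
      hd₂ hd₂' h₂).2
    have h4 : 0 < α - 1 := by linarith [hα.1]
    have h5 : 0 < α := by linarith
    unfold lhs mid gg at h3
    have h6 := div_le_div_of_nonneg_right h3 (mul_pos h4 h4).le
    have e1 : G α A₁ D₁ / (α - 1) * (G α A₂ D₂ / (α - 1)) =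
        G α A₁ D₁ * G α A₂ D₂ / ((α - 1) * (α - 1)) := by
      rw [div_mul_div_comm]
    have e2 : gs α d₁ / (α - 1) / d₁ ^ 2 * (gs α d₂ / (α - 1) / d₂ ^ 2) *
        (2 / α * (G α (A₁ ⊗ₖ A₂) (D₁ ⊗ₖ D₂) / (α - 1))) =
        gs α d₁ / d₁ ^ 2 * (gs α d₂ / d₂ ^ 2) *
          (G α (A₁ ⊗ₖ A₂) (D₁ ⊗ₖ D₂) / (α * (α - 1) / 2)) / ((α - 1) * (α - 1)) := by
      field_simp
    show G α A₁ D₁ / (α - 1) * (G α A₂ D₂ / (α - 1)) ≤ _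
    rw [e1, e2]
    exact h6

end Pool.Agent.RN
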