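import Pool.Agent.Lib_helper88.RN.Series

/-!
# Noisy states: the master inequality
-/

open scoped BigOperators ComplexOrder Kronecker MatrixOrder Topology
open MeasureTheory Set Matrix Filter

namespace Pool.Agent.RN

open Pool.Agent.RC

variable {ι κ : Type} [Fintype ι] [DecidableEq ι] [Fintype κ] [DecidableEq κ]

/-- normalised series -/
theorem Expands.norm {α : ℝ} {W : ℕ → ℝ} (h : Expands α W) (A D : Matrix ι ι ℂ)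
    (hp : IsPair A D) : HasSum (fun m => W m / W 0 * Ts α A D m) (G α A D / W 0) := by
  have h1 := (h ι A D hp).div_const (W 0)
  refine h1.congr_fun fun m => ?_
  ring

/-- all weights of one sign: lower and upper bound -/
theorem norm_lower {α : ℝ} (h0 : 0 < α) (h4 : α < 4) {W : ℕ → ℝ} (h : Expands α W)
    (hW : W 0 ≠ 0) (hR : ∀ m, 0 ≤ W m / W 0) (A D : Matrix ι ι ℂ) (hp : IsPair A D) :
    Ts α A D 0 ≤ G α A D / W 0 := by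
  have h1 := h.norm A D hp
  have h2 := sum_le_hasSum (Finset.range 1) (fun m _ => mul_nonneg (hR m)
    (Ts_nonneg α h0 h4 A D hp m)) h1
  rw [Finset.sum_range_one, div_self hW, one_mul] at h2
  exact h2

theorem norm_upper {α : ℝ} (h0 : 0 < α) (h4 : α < 4) {W : ℕ → ℝ} (h : Expands α W)
    (hR : ∀ m, 0 ≤ W m / W 0) {A D : Matrix ι ι ℂ} {d : ℝ} (hd : 0 < d)
    (hd1 : d ≤ 1) (hp : Noise A D d) :
    G α A D / W 0 ≤ gs α d / d ^ 2 / W 0 * Ts α A D 0 := by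
  have h1 := h.norm A D (hp.isPair hd1)
  have h2 := ((h.ratio h0 h4 hd hd1).div_const (W 0)).mul_right (Ts α A D 0)
  apply hasSum_le _ h1 h2
  intro m
  have h3 := mul_le_mul_of_nonneg_left (Ts_noise α h0 h4 hd hp m) (hR m)
  calc W m / W 0 * Ts α A D m ≤ W m / W 0 * (d ^ (2 * m) * Ts α A D 0) := h3
    _ = W m * d ^ (2 * m) / W 0 * Ts α A D 0 := by ring

theorem master_pos {α : ℝ} (h0 : 0 < α) (h4 : α < 4) {W : ℕ → ℝ} (h : Expands α W)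
    (hW : W 0 ≠ 0) (hR : ∀ m, 0 ≤ W m / W 0)
    {A₁ D₁ : Matrix ι ι ℂ} {d₁ : ℝ} (hd₁ : 0 < d₁) (hd₁' : d₁ ≤ 1) (h₁ : Noise A₁ D₁ d₁)
    {A₂ D₂ : Matrix κ κ ℂ} {d₂ : ℝ} (hd₂ : 0 < d₂) (hd₂' : d₂ ≤ 1) (h₂ : Noise A₂ D₂ d₂)
    (hT : T2 α A₁ D₁ * T2 α A₂ D₂ ≤ T2 α (A₁ ⊗ₖ A₂) (D₁ ⊗ₖ D₂)) :
    0 ≤ G α (A₁ ⊗ₖ A₂) (D₁ ⊗ₖ D₂) / W 0 ∧
    G α A₁ D₁ * G α A₂ D₂ ≤ (gs α d₁ / d₁ ^ 2) * (gs α d₂ / d₂ ^ 2) *
      (G α (A₁ ⊗ₖ A₂) (D₁ ⊗ₖ D₂) / W 0) := by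
  have p₁ := h₁.isPair hd₁'
  have p₂ := h₂.isPair hd₂'
  have hp := p₁.kron p₂
  have l := norm_lower h0 h4 h hW hR _ _ hp
  have l₁ := norm_lower h0 h4 h hW hR _ _ p₁
  have l₂ := norm_lower h0 h4 h hW hR _ _ p₂
  have u₁ := norm_upper h0 h4 h hR hd₁ hd₁' h₁
  have u₂ := norm_upper h0 h4 h hR hd₂ hd₂' h₂
  have n := Ts_nonneg α h0 h4 _ _ hp 0
  have n₁ := Ts_nonneg α h0 h4 _ _ p₁ 0
  have n₂ := Ts_nonneg α h0 h4 _ _ p₂ 0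
  have hT' : Ts α A₁ D₁ 0 * Ts α A₂ D₂ 0 ≤ Ts α (A₁ ⊗ₖ A₂) (D₁ ⊗ₖ D₂) 0 := hT
  refine ⟨n.trans l, ?_⟩
  have hr : ∀ d : ℝ, 0 < d → d ≤ 1 → 0 ≤ gs α d / d ^ 2 / W 0 := by
    intro d hd hd'
    have h5 := (h.ratio h0 h4 hd hd').div_const (W 0)
    apply h5.nonneg
    intro m
    have := hR m
    have e : W m * d ^ (2 * m) / W 0 = W m / W 0 * d ^ (2 * m) := by ring
    rw [e]
    positivity
  have r₁ := hr d₁ hd₁ hd₁'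
  have r₂ := hr d₂ hd₂ hd₂'
  set X := G α (A₁ ⊗ₖ A₂) (D₁ ⊗ₖ D₂) / W 0
  have key : G α A₁ D₁ / W 0 * (G α A₂ D₂ / W 0) ≤
      (gs α d₁ / d₁ ^ 2 / W 0) * (gs α d₂ / d₂ ^ 2 / W 0) * X := by
    calc G α A₁ D₁ / W 0 * (G α A₂ D₂ / W 0)
        ≤ (gs α d₁ / d₁ ^ 2 / W 0 * Ts α A₁ D₁ 0) * (gs α d₂ / d₂ ^ 2 / W 0 * Ts α A₂ D₂ 0) :=
          mul_le_mul u₁ u₂ (n₂.trans l₂) (mul_nonneg r₁ n₁)
      _ = (gs α d₁ / d₁ ^ 2 / W 0) * (gs α d₂ / d₂ ^ 2 / W 0) *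
          (Ts α A₁ D₁ 0 * Ts α A₂ D₂ 0) := by ring
      _ ≤ _ := mul_le_mul_of_nonneg_left (hT'.trans l) (mul_nonneg r₁ r₂)
  have hWp : 0 < W 0 * W 0 := mul_self_pos.2 hW
  have e1 : G α A₁ D₁ / W 0 * (G α A₂ D₂ / W 0) = G α A₁ D₁ * G α A₂ D₂ / (W 0 * W 0) := by
    rw [div_mul_div_comm]
  have e2 : (gs α d₁ / d₁ ^ 2 / W 0) * (gs α d₂ / d₂ ^ 2 / W 0) * X =
      (gs α d₁ / d₁ ^ 2) * (gs α d₂ / d₂ ^ 2) * X / (W 0 * W 0) := by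
    rw [div_mul_div_comm]
    ring
  rw [e1, e2, div_le_div_iff_of_pos_right hWp] at key
  exact key

/-- the first weight positive, the other ones negative -/
theorem master_neg {α : ℝ} (h0 : 0 < α) (h4 : α < 4) {W : ℕ → ℝ} (h : Expands α W)
    (hW : 0 < W 0) (hR : ∀ m, W (m + 1) ≤ 0) (hL : 0 ≤ (2 : ℝ) ^ (α - 1) - 1)
    {A₁ D₁ : Matrix ι ι ℂ} {d₁ : ℝ} (hd₁ : 0 < d₁) (hd₁' : d₁ ≤ 1) (h₁ : Noise A₁ D₁ d₁)
    {A₂ D₂ : Matrix κ κ ℂ} {d₂ : ℝ} (hd₂ : 0 < d₂) (hd₂' : d₂ ≤ 1) (h₂ : Noise A₂ D₂ d₂)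
    (hT : T2 α (A₁ ⊗ₖ A₂) (D₁ ⊗ₖ D₂) ≤ T2 α A₁ D₁ * T2 α A₂ D₂) :
    0 ≤ G α (A₁ ⊗ₖ A₂) (D₁ ⊗ₖ D₂) / W 0 ∧
    (gs α d₁ / d₁ ^ 2) * (gs α d₂ / d₂ ^ 2) * (G α (A₁ ⊗ₖ A₂) (D₁ ⊗ₖ D₂) / W 0) ≤
      G α A₁ D₁ * G α A₂ D₂ := by
  have p₁ := h₁.isPair hd₁'
  have p₂ := h₂.isPair hd₂'
  have hp := p₁.kron p₂
  have n := Ts_nonneg α h0 h4 _ _ hp 0
  have n₁ := Ts_nonneg α h0 h4 _ _ p₁ 0
  have n₂ := Ts_nonneg α h0 h4 _ _ p₂ 0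
  have hT' : Ts α (A₁ ⊗ₖ A₂) (D₁ ⊗ₖ D₂) 0 ≤ Ts α A₁ D₁ 0 * Ts α A₂ D₂ 0 := hT
  -- `G ≥ g(d) T₀`
  have low : ∀ {ι : Type} [Fintype ι] [DecidableEq ι] {A D : Matrix ι ι ℂ} {d : ℝ}, 0 < d →
      d ≤ 1 → Noise A D d → gs α d / d ^ 2 * Ts α A D 0 ≤ G α A D := by
    intro ι _ _ A D d hd hd' hn
    have h1 := h ι A D (hn.isPair hd')
    have h2 := (h.ratio h0 h4 hd hd').mul_right (Ts α A D 0)
    apply hasSum_le _ h2 h1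
    intro m
    rcases m with _ | m
    · simp
    · have h3 := mul_le_mul_of_nonpos_left (Ts_noise α h0 h4 hd hn (m + 1)) (hR m)
      calc W (m + 1) * d ^ (2 * (m + 1)) * Ts α A D 0 =
          W (m + 1) * (d ^ (2 * (m + 1)) * Ts α A D 0) := by ring
        _ ≤ _ := h3
  -- `G ≤ W₀ T₀`
  have up : ∀ {ι : Type} [Fintype ι] [DecidableEq ι] {A D : Matrix ι ι ℂ}, IsPair A D →
      G α A D ≤ W 0 * Ts α A D 0 := by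
    intro ι _ _ A D hq
    have h1 := (hasSum_nat_add_iff' (f := fun m => W m * Ts α A D m) 1).2 (h ι A D hq)
    rw [Finset.sum_range_one] at h1
    have h2 := h1.nonpos fun m => mul_nonpos_of_nonpos_of_nonneg (hR m)
      (Ts_nonneg α h0 h4 A D hq (m + 1))
    linarith
  -- `g(d) ≥ L ≥ 0`
  have gl : ∀ d : ℝ, 0 < d → d ≤ 1 → 0 ≤ gs α d / d ^ 2 := by
    intro d hd hd'
    refine hL.trans ?_
    apply hasSum_le _ (h.one h0 h4) (h.ratio h0 h4 hd hd')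
    intro m
    rcases m with _ | m
    · simp
    · have h3 : d ^ (2 * (m + 1)) ≤ 1 := pow_le_one₀ hd.le hd'
      have := mul_le_mul_of_nonpos_left h3 (hR m)
      rw [mul_one] at this
      exact this
  have hG : 0 ≤ G α (A₁ ⊗ₖ A₂) (D₁ ⊗ₖ D₂) := by
    have h3 : Noise (A₁ ⊗ₖ A₂) (D₁ ⊗ₖ D₂) 1 :=
      ⟨hp.pos, by rw [Complex.ofReal_one, one_smul]; exact hp.sub,
        by rw [Complex.ofReal_one, one_smul]; exact hp.add⟩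
    exact (mul_nonneg (gl 1 one_pos le_rfl) n).trans (low one_pos le_rfl h3)
  refine ⟨div_nonneg hG hW.le, ?_⟩
  have g₁ := gl d₁ hd₁ hd₁'
  have g₂ := gl d₂ hd₂ hd₂'
  have b : G α (A₁ ⊗ₖ A₂) (D₁ ⊗ₖ D₂) / W 0 ≤ Ts α (A₁ ⊗ₖ A₂) (D₁ ⊗ₖ D₂) 0 := by
    rw [div_le_iff₀ hW, mul_comm]
    exact up hp
  calc (gs α d₁ / d₁ ^ 2) * (gs α d₂ / d₂ ^ 2) * (G α (A₁ ⊗ₖ A₂) (D₁ ⊗ₖ D₂) / W 0)
      ≤ (gs α d₁ / d₁ ^ 2) * (gs α d₂ / d₂ ^ 2) * (Ts α A₁ D₁ 0 * Ts α A₂ D₂ 0) :=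
        mul_le_mul_of_nonneg_left (b.trans hT') (mul_nonneg g₁ g₂)
    _ = (gs α d₁ / d₁ ^ 2 * Ts α A₁ D₁ 0) * (gs α d₂ / d₂ ^ 2 * Ts α A₂ D₂ 0) := by ring
    _ ≤ G α A₁ D₁ * G α A₂ D₂ := mul_le_mul (low hd₁ hd₁' h₁) (low hd₂ hd₂' h₂)
        (mul_nonneg g₂ n₂) ((mul_nonneg g₁ n₁).trans (low hd₁ hd₁' h₁))

/-- the master inequality, open ranges, positive definite `A` -/
theorem open_pos (α : ℝ) (hα : (0 < α ∧ α < 2 ∧ α ≠ 1) ∨ (3 < α ∧ α < 4))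
    {A₁ D₁ : Matrix ι ι ℂ} {d₁ : ℝ} (hd₁ : 0 < d₁) (hd₁' : d₁ ≤ 1) (h₁ : Noise A₁ D₁ d₁)
    {A₂ D₂ : Matrix κ κ ℂ} {d₂ : ℝ} (hd₂ : 0 < d₂) (hd₂' : d₂ ≤ 1) (h₂ : Noise A₂ D₂ d₂) :
    0 ≤ G α (A₁ ⊗ₖ A₂) (D₁ ⊗ₖ D₂) / (α * (α - 1) / 2) ∧
    G α A₁ D₁ * G α A₂ D₂ ≤ (gs α d₁ / d₁ ^ 2) * (gs α d₂ / d₂ ^ 2) *
      (G α (A₁ ⊗ₖ A₂) (D₁ ⊗ₖ D₂) / (α * (α - 1) / 2)) := by
  have q₁ := isPair_herm (h₁.isPair hd₁')
  have q₂ := isPair_herm (h₂.isPair hd₂')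
  rcases hα with ⟨h0, h2, h1⟩ | ⟨h3, h4⟩
  · obtain ⟨c, hc, hex⟩ := expands02 α h0 h2 h1
    have hc0 : c ≠ 0 := by
      rintro rfl
      simp at hc
    have hb : ∀ m : ℕ, 0 < bet α (2 * (m + 1)) := fun m => bet_pos α _ h0 (by
      push_cast
      have : (0 : ℝ) ≤ m := Nat.cast_nonneg m
      linarith)
    have hz := hex.zero h0 (by linarith)
    have hW : c * (bet α (2 * (0 + 1)) / (2 * (((0 : ℕ) : ℝ) + 1))) ≠ 0 := by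
      have := hb 0
      positivity
    have key := master_pos h0 (by linarith) hex hW (fun m => by
      show 0 ≤ c * (bet α (2 * (m + 1)) / (2 * ((m : ℝ) + 1))) /
        (c * (bet α (2 * (0 + 1)) / (2 * (((0 : ℕ) : ℝ) + 1))))
      rw [mul_div_mul_left _ _ hc0]
      have h5 := hb m
      have h6 := hb 0
      positivity) hd₁ hd₁' h₁ hd₂ hd₂' h₂
      (T2_kron_ge02 α h0 h2.le A₁ D₁ A₂ D₂ h₁.pos q₁ h₂.pos q₂)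
    rw [← hz]
    exact key
  · have h0 : 0 < α := by linarith
    obtain ⟨c, W, hc, hex, hW⟩ := expands24 α (by linarith) h4 (ne_of_gt h3)
    have hcpos : 0 < c := by
      rcases pos_and_pos_or_neg_and_neg_of_mul_pos hc with h | h
      · exact h.1
      · linarith [h.2]
    have hz := hex.zero h0 h4
    have hz0 : 0 < W 0 := by
      rw [hz]
      have : 0 < α - 1 := by linarith
      positivity
    have hb : ∀ m : ℕ, 0 < bet α (2 * (m + 2)) := fun m => bet_pos α _ h0 (by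
      push_cast
      have : (0 : ℝ) ≤ m := Nat.cast_nonneg m
      linarith)
    have key := master_pos h0 h4 hex hz0.ne' (fun m => by
      rcases m with _ | m
      · rw [div_self hz0.ne']; exact zero_le_one
      · apply div_nonneg _ hz0.le
        rw [hW m]
        have h5 := hb m
        positivity) hd₁ hd₁' h₁ hd₂ hd₂' h₂
      (T2_kron_ge α h3.le h4 A₁ D₁ A₂ D₂ h₁.pos q₁ h₂.pos q₂)
    rw [← hz]
    exact key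

theorem open_neg (α : ℝ) (h2 : 2 < α) (h3 : α < 3)
    {A₁ D₁ : Matrix ι ι ℂ} {d₁ : ℝ} (hd₁ : 0 < d₁) (hd₁' : d₁ ≤ 1) (h₁ : Noise A₁ D₁ d₁)
    {A₂ D₂ : Matrix κ κ ℂ} {d₂ : ℝ} (hd₂ : 0 < d₂) (hd₂' : d₂ ≤ 1) (h₂ : Noise A₂ D₂ d₂) :
    0 ≤ G α (A₁ ⊗ₖ A₂) (D₁ ⊗ₖ D₂) / (α * (α - 1) / 2) ∧
    (gs α d₁ / d₁ ^ 2) * (gs α d₂ / d₂ ^ 2) *
      (G α (A₁ ⊗ₖ A₂) (D₁ ⊗ₖ D₂) / (α * (α - 1) / 2)) ≤ G α A₁ D₁ * G α A₂ D₂ := by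
  have q₁ := isPair_herm (h₁.isPair hd₁')
  have q₂ := isPair_herm (h₂.isPair hd₂')
  have h0 : 0 < α := by linarith
  have h4 : α < 4 := by linarith
  obtain ⟨c, W, hc, hex, hW⟩ := expands24 α h2 h4 (ne_of_lt h3)
  have hcneg : c < 0 := by
    rcases pos_and_pos_or_neg_and_neg_of_mul_pos hc with h | h
    · linarith [h.2]
    · exact h.1
  have hz := hex.zero h0 h4
  have hz0 : 0 < W 0 := by
    rw [hz]
    have : 0 < α - 1 := by linarith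
    positivity
  have hb : ∀ m : ℕ, 0 < bet α (2 * (m + 2)) := fun m => bet_pos α _ h0 (by
    push_cast
    have : (0 : ℝ) ≤ m := Nat.cast_nonneg m
    linarith)
  have hL : 0 ≤ (2 : ℝ) ^ (α - 1) - 1 := by
    have : (1 : ℝ) ≤ 2 ^ (α - 1) := Real.one_le_rpow (by norm_num) (by linarith)
    linarith
  have key := master_neg h0 h4 hex hz0 (fun m => by
    rw [hW m]
    apply mul_nonpos_of_nonpos_of_nonneg hcneg.le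
    have h5 := hb m
    positivity) hL hd₁ hd₁' h₁ hd₂ hd₂' h₂
    (T2_kron_le α h2.le h3.le A₁ D₁ A₂ D₂ h₁.pos q₁ h₂.pos q₂)
  rw [← hz]
  exact key

end Pool.Agent.RN
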