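import Pool.Agent.Lib_helper88.RN.Young

/-!
# `T_n ≥ N (T_2/N)^(n/2)`, `N = Tr A^α`, and the bounds for `G`
-/

open scoped BigOperators ComplexOrder Kronecker MatrixOrder Topology
open MeasureTheory Set Matrix Filter

namespace Pool.Agent.RN

open Pool.Agent.RC Pool.Agent.RC.T2B

variable {ι κ : Type} [Fintype ι] [DecidableEq ι] [Fintype κ] [DecidableEq κ]

theorem pow_ratio_integrable {α x : ℝ} (n : ℕ) (h0 : 0 < α) (hα : α < n) (hx : 0 < x) :
    IntegrableOn (fun r : ℝ => r ^ (α - 1) * (x / (x + r)) ^ n) (Ioi 0) := by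
  have h1 : IntegrableOn (fun r : ℝ => x ^ n * (r ^ (α - 1) * ((x + r) ^ n)⁻¹)) (Ioi 0) :=
    (integrableOn_scalar α x n h0 hα hx).const_mul (x ^ n)
  refine h1.congr_fun (fun r _ => ?_) measurableSet_Ioi
  show x ^ n * (r ^ (α - 1) * ((x + r) ^ n)⁻¹) = r ^ (α - 1) * (x / (x + r)) ^ n
  rw [div_pow]
  ring

theorem pow_ratio_int {α x : ℝ} (n : ℕ) (hx : 0 < x) :
    ∫ r in Ioi (0 : ℝ), r ^ (α - 1) * (x / (x + r)) ^ n = bet α n * x ^ α := by
  have e : (fun r : ℝ => r ^ (α - 1) * (x / (x + r)) ^ n) =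
      fun r => x ^ n * (r ^ (α - 1) * ((x + r) ^ n)⁻¹) := by
    funext r
    rw [div_pow]
    ring
  rw [e, integral_const_mul, bet_scale α x n hx]
  have e2 : x ^ α = x ^ n * x ^ (α - n) := by
    rw [← Real.rpow_natCast x n, ← Real.rpow_add hx]
    congr 1
    ring
  rw [e2]
  ring

theorem dg_young (α : ℝ) (h0 : 0 < α) (h4 : α < 4) (a : ι → ℝ) (ha : ∀ i, 0 < a i)
    (E : Matrix ι ι ℂ) (hE : E.IsHermitian) (k : ℕ) (hk1 : 1 ≤ k) {J : ℝ} (hJ : 0 ≤ J) :
    ((k : ℝ) + 1) * J ^ k * (bet α (2 * (k + 1)) * T2 α (dg a) E) ≤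
      In α (dg a) E (2 * (k + 1)) + k * J ^ (k + 1) * (bet α (2 * (k + 1)) * ∑ i, a i ^ α) := by
  have hα : α < ((2 * k + 2 : ℕ) : ℝ) := by
    have : (1 : ℝ) ≤ k := by exact_mod_cast hk1
    push_cast
    linarith
  have hn : 2 * (k + 1) = 2 * k + 2 := by ring
  have hαn : α < ((2 * (k + 1) : ℕ) : ℝ) := by rw [hn]; exact hα
  -- the left side
  have hkbi : ∀ i j, IntegrableOn (fun r : ℝ => r ^ (α - 1) * kb (2 * k) (a i) (a j) r) (Ioi 0) :=
    fun i j => kb_integrable (2 * k) h0 hα (ha i) (ha j)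
  have hL : bet α (2 * (k + 1)) * T2 α (dg a) E ≤
      ∫ r in Ioi (0 : ℝ), r ^ (α - 1) * ∑ i, ∑ j, ‖E i j‖ ^ 2 * kb (2 * k) (a i) (a j) r := by
    have e1 : ∫ r in Ioi (0 : ℝ), r ^ (α - 1) * ∑ i, ∑ j, ‖E i j‖ ^ 2 * kb (2 * k) (a i) (a j) r =
        ∑ i, ∑ j, ‖E i j‖ ^ 2 * ∫ r in Ioi (0 : ℝ), r ^ (α - 1) * kb (2 * k) (a i) (a j) r := by
      have e2 : (fun r : ℝ => r ^ (α - 1) * ∑ i, ∑ j, ‖E i j‖ ^ 2 * kb (2 * k) (a i) (a j) r) =
          fun r => ∑ i, ∑ j, ‖E i j‖ ^ 2 * (r ^ (α - 1) * kb (2 * k) (a i) (a j) r) := by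
        funext r
        rw [Finset.mul_sum]
        refine Finset.sum_congr rfl fun i _ => ?_
        rw [Finset.mul_sum]
        refine Finset.sum_congr rfl fun j _ => ?_
        ring
      rw [e2, integral_finsetSum _ fun i _ => integrable_finsetSum _ fun j _ =>
        (hkbi i j).const_mul _]
      refine Finset.sum_congr rfl fun i _ => ?_
      rw [integral_finsetSum _ fun j _ => (hkbi i j).const_mul _]
      refine Finset.sum_congr rfl fun j _ => ?_
      rw [integral_const_mul]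
    have hsw : ∑ i, ∑ j, ‖E i j‖ ^ 2 * ∫ r in Ioi (0 : ℝ), r ^ (α - 1) *
        kb (2 * k) (a i) (a j) r = ∑ i, ∑ j, ‖E i j‖ ^ 2 * ∫ r in Ioi (0 : ℝ), r ^ (α - 1) *
        kb (2 * k) (a j) (a i) r := by
      rw [Finset.sum_comm]
      refine Finset.sum_congr rfl fun i _ => Finset.sum_congr rfl fun j _ => ?_
      rw [norm_symm hE i j]
    have e3 : ∑ i, ∑ j, ‖E i j‖ ^ 2 * ∫ r in Ioi (0 : ℝ), r ^ (α - 1) *
        kb (2 * k) (a i) (a j) r = ∑ i, ∑ j, ‖E i j‖ ^ 2 * ∫ r in Ioi (0 : ℝ), r ^ (α - 1) *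
        ((kb (2 * k) (a i) (a j) r + kb (2 * k) (a j) (a i) r) / 2) := by
      have e4 : ∀ i j, ∫ r in Ioi (0 : ℝ), r ^ (α - 1) *
          ((kb (2 * k) (a i) (a j) r + kb (2 * k) (a j) (a i) r) / 2) =
          ((∫ r in Ioi (0 : ℝ), r ^ (α - 1) * kb (2 * k) (a i) (a j) r) +
            ∫ r in Ioi (0 : ℝ), r ^ (α - 1) * kb (2 * k) (a j) (a i) r) / 2 := by
        intro i j
        rw [← integral_add (hkbi i j) (hkbi j i), ← integral_div]
        congr 1
        funext r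
        ring
      have e5 : ∑ i, ∑ j, ‖E i j‖ ^ 2 * ∫ r in Ioi (0 : ℝ), r ^ (α - 1) *
          ((kb (2 * k) (a i) (a j) r + kb (2 * k) (a j) (a i) r) / 2) =
          ((∑ i, ∑ j, ‖E i j‖ ^ 2 * ∫ r in Ioi (0 : ℝ), r ^ (α - 1) *
            kb (2 * k) (a i) (a j) r) + ∑ i, ∑ j, ‖E i j‖ ^ 2 * ∫ r in Ioi (0 : ℝ),
            r ^ (α - 1) * kb (2 * k) (a j) (a i) r) / 2 := by
        rw [← Finset.sum_add_distrib, Finset.sum_div]
        refine Finset.sum_congr rfl fun i _ => ?_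
        rw [← Finset.sum_add_distrib, Finset.sum_div]
        refine Finset.sum_congr rfl fun j _ => ?_
        rw [e4]
        ring
      rw [e5, ← hsw]
      ring
    rw [e1, e3, T2_dg α h0 h4 a ha E hE, Finset.mul_sum]
    refine Finset.sum_le_sum fun i _ => ?_
    rw [Finset.mul_sum]
    refine Finset.sum_le_sum fun j _ => ?_
    have h6 := hk_le_kb (2 * k) h0 hα (ha i) (ha j)
    rw [← hn] at h6
    calc bet α (2 * (k + 1)) * (‖E i j‖ ^ 2 * hk α (a i) (a j))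
        = ‖E i j‖ ^ 2 * (bet α (2 * (k + 1)) * hk α (a i) (a j)) := by ring
      _ ≤ _ := mul_le_mul_of_nonneg_left h6 (by positivity)
  -- integrate the pointwise inequality
  have hA : (dg a).PosDef := by
    unfold dg
    rw [Matrix.posDef_diagonal_iff]
    intro i
    exact_mod_cast ha i
  have hiT := integrableOn_tn α (dg a) E hA (2 * (k + 1)) h0 hαn
  have hiN : IntegrableOn (fun r : ℝ => ∑ i, r ^ (α - 1) * (a i / (a i + r)) ^ (2 * (k + 1)))
      (Ioi 0) := integrable_finsetSum _ fun i _ =>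
    pow_ratio_integrable (2 * (k + 1)) h0 hαn (ha i)
  have hiK : IntegrableOn (fun r : ℝ => r ^ (α - 1) * ∑ i, ∑ j, ‖E i j‖ ^ 2 *
      kb (2 * k) (a i) (a j) r) (Ioi 0) := by
    have h7 : IntegrableOn (fun r : ℝ => ∑ i, ∑ j, ‖E i j‖ ^ 2 * (r ^ (α - 1) *
        kb (2 * k) (a i) (a j) r)) (Ioi 0) :=
      integrable_finsetSum _ fun i _ => integrable_finsetSum _ fun j _ => (hkbi i j).const_mul _
    refine h7.congr_fun (fun r _ => ?_) measurableSet_Ioi
    simp only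
    rw [Finset.mul_sum]
    refine Finset.sum_congr rfl fun i _ => ?_
    rw [Finset.mul_sum]
    refine Finset.sum_congr rfl fun j _ => ?_
    ring
  have hmono : ((k : ℝ) + 1) * J ^ k * ∫ r in Ioi (0 : ℝ), r ^ (α - 1) *
      ∑ i, ∑ j, ‖E i j‖ ^ 2 * kb (2 * k) (a i) (a j) r ≤
      In α (dg a) E (2 * (k + 1)) + k * J ^ (k + 1) *
        ∫ r in Ioi (0 : ℝ), ∑ i, r ^ (α - 1) * (a i / (a i + r)) ^ (2 * (k + 1)) := by
    unfold In
    rw [← integral_const_mul, ← integral_const_mul, ← integral_add hiT (hiN.const_mul _)]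
    apply setIntegral_mono_on (hiK.const_mul _) (hiT.add (hiN.const_mul _)) measurableSet_Ioi
    intro r hr
    have hr0 : (0 : ℝ) < r := hr
    have h8 := point_ineq a ha E hE k hJ hr0
    have h9 : 0 ≤ r ^ (α - 1) := by positivity
    calc ((k : ℝ) + 1) * J ^ k * (r ^ (α - 1) * ∑ i, ∑ j, ‖E i j‖ ^ 2 *
          kb (2 * k) (a i) (a j) r)
        = r ^ (α - 1) * (((k : ℝ) + 1) * J ^ k * ∑ i, ∑ j, ‖E i j‖ ^ 2 *
          kb (2 * k) (a i) (a j) r) := by ring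
      _ ≤ r ^ (α - 1) * (tn (dg a) E (2 * (k + 1)) r + k * J ^ (k + 1) *
          ∑ i, (a i / (a i + r)) ^ (2 * (k + 1))) := mul_le_mul_of_nonneg_left h8 h9
      _ = r ^ (α - 1) * tn (dg a) E (2 * (k + 1)) r + k * J ^ (k + 1) *
          ∑ i, r ^ (α - 1) * (a i / (a i + r)) ^ (2 * (k + 1)) := by
        rw [mul_add, ← Finset.mul_sum]
        ring
  have hN : ∫ r in Ioi (0 : ℝ), ∑ i, r ^ (α - 1) * (a i / (a i + r)) ^ (2 * (k + 1)) =
      bet α (2 * (k + 1)) * ∑ i, a i ^ α := by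
    rw [integral_finsetSum _ fun i _ => pow_ratio_integrable (2 * (k + 1)) h0 hαn (ha i),
      Finset.mul_sum]
    refine Finset.sum_congr rfl fun i _ => ?_
    exact pow_ratio_int (2 * (k + 1)) (ha i)
  rw [hN] at hmono
  refine le_trans ?_ hmono
  exact mul_le_mul_of_nonneg_left hL (by positivity)

/-- `Tr A^α` -/
noncomputable def NN (α : ℝ) (A : Matrix ι ι ℂ) : ℝ := trF (fun x => x ^ α) A

theorem trF_conj_dg (f : ℝ → ℝ) (U : Matrix ι ι ℂ) (a : ι → ℝ) (hU : star U * U = 1)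
    (hU' : U * star U = 1) : trF f (U * dg a * star U) = ∑ i, f (a i) := by
  have hh : (U * dg a * star U).IsHermitian := by
    rw [Matrix.IsHermitian, conjTranspose_mul, conjTranspose_mul, (dg_isHermitian a).eq,
      star_eq_conjTranspose, conjTranspose_conjTranspose, ← Matrix.mul_assoc]
  rw [trF_eq_cfc f hh]
  have h1 := Pool.Agent.Lib_helper98.Renyi.cfc_conj_diagonal f U hU a
  have h2 : U * dg a * star U = U * diagonal (fun i => (a i : ℂ)) * Uᴴ := rfl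
  rw [h2, h1, Matrix.trace_mul_comm, ← Matrix.mul_assoc]
  have h3 : Uᴴ * U = 1 := hU
  rw [h3, Matrix.one_mul, Matrix.trace_diagonal, Complex.re_sum]
  refine Finset.sum_congr rfl fun i _ => ?_
  exact Complex.ofReal_re _

theorem ts_young (α : ℝ) (h0 : 0 < α) (h4 : α < 4) (A D : Matrix ι ι ℂ) (h : IsPair A D)
    (m : ℕ) {J : ℝ} (hJ : 0 ≤ J) :
    ((m : ℝ) + 1) * J ^ m * Ts α A D 0 ≤ Ts α A D m + m * J ^ (m + 1) * NN α A := by
  rcases m with _ | m
  · simp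
  · obtain ⟨U, a, E, hU, hU', ha, hA, hD, hE⟩ := exists_diag_pair A D h.pos
    have hαn : α < ((2 * (m + 2) : ℕ) : ℝ) := by
      push_cast
      have : (0 : ℝ) ≤ m := Nat.cast_nonneg m
      linarith
    have hb := bet_pos α (2 * (m + 2)) h0 hαn
    have key := dg_young α h0 h4 a ha E (hE h.herm) (m + 1) (by omega) hJ
    have e0 : Ts α A D 0 = T2 α (dg a) E := by
      show T2 α A D = _
      rw [hA, hD, T2_conj α U _ _ hU hU']
    have e1 : Ts α A D (m + 1) = In α (dg a) E (2 * (m + 2)) / bet α (2 * (m + 2)) := by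
      show In α A D (2 * (m + 2)) / bet α (2 * (m + 2)) = _
      rw [hA, hD, In_conj α U _ _ hU hU']
    have e2 : NN α A = ∑ i, a i ^ α := by
      unfold NN
      rw [hA, trF_conj_dg _ U a hU hU']
    rw [e0, e1, e2]
    have e3 : m + 1 + 1 = m + 2 := rfl
    rw [e3] at key
    have key2 := div_le_div_of_nonneg_right key hb.le
    have e4 : (((m + 1 : ℕ) : ℝ) + 1) * J ^ (m + 1) * (bet α (2 * (m + 2)) * T2 α (dg a) E) /
        bet α (2 * (m + 2)) = (((m + 1 : ℕ) : ℝ) + 1) * J ^ (m + 1) * T2 α (dg a) E := by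
      field_simp
    have e5 : (In α (dg a) E (2 * (m + 2)) + ((m + 1 : ℕ) : ℝ) * J ^ (m + 2) *
        (bet α (2 * (m + 2)) * ∑ i, a i ^ α)) / bet α (2 * (m + 2)) =
        In α (dg a) E (2 * (m + 2)) / bet α (2 * (m + 2)) + ((m + 1 : ℕ) : ℝ) * J ^ (m + 2) *
          ∑ i, a i ^ α := by
      field_simp
    rw [e4, e5] at key2
    exact key2

end Pool.Agent.RN
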