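import Pool.Agent.Lib_helper88.RN.Wser

/-!
# Noisy states: the series `G = ∑ W_m T_m` with `W_0 = α (α-1) / 2`
-/

open scoped BigOperators ComplexOrder Kronecker MatrixOrder Topology
open MeasureTheory Set Matrix Filter

namespace Pool.Agent.RN

open Pool.Agent.RC

/-- the universal expansion of `G` with weights `W` -/
def Expands (α : ℝ) (W : ℕ → ℝ) : Prop :=
  ∀ (ι : Type) [Fintype ι] [DecidableEq ι] (A D : Matrix ι ι ℂ), IsPair A D →
    HasSum (fun m => W m * Ts α A D m) (G α A D)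

theorem Expands.scalar {α : ℝ} (h0 : 0 < α) (h4 : α < 4) {W : ℕ → ℝ} (h : Expands α W)
    {t : ℝ} (ht0 : 0 ≤ t) (ht1 : t ≤ 1) :
    HasSum (fun m => W m * t ^ (2 * (m + 1))) (gs α t) := by
  have h1 := h Unit 1 ((t : ℂ) • 1) ((noise_unit ht0 ht1).isPair le_rfl)
  rw [G_unit] at h1
  simpa only [Ts_unit α h0 h4] using h1

theorem gs_one (α : ℝ) (h0 : 0 < α) : gs α 1 = 2 ^ (α - 1) - 1 := by
  unfold gs
  rw [sub_self, Real.zero_rpow h0.ne', add_zero, Real.rpow_sub_one (by norm_num)]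
  norm_num

theorem Expands.one {α : ℝ} (h0 : 0 < α) (h4 : α < 4) {W : ℕ → ℝ} (h : Expands α W) :
    HasSum W (2 ^ (α - 1) - 1) := by
  have h1 := h.scalar h0 h4 zero_le_one le_rfl
  rw [gs_one α h0] at h1
  simpa using h1

/-- `∑ W_m t^(2m) = gs t / t²` -/
theorem Expands.ratio {α : ℝ} (h0 : 0 < α) (h4 : α < 4) {W : ℕ → ℝ} (h : Expands α W)
    {t : ℝ} (ht0 : 0 < t) (ht1 : t ≤ 1) :
    HasSum (fun m => W m * t ^ (2 * m)) (gs α t / t ^ 2) := by
  have h1 := (h.scalar h0 h4 ht0.le ht1).div_const (t ^ 2)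
  refine h1.congr_fun fun m => ?_
  have : t ^ 2 ≠ 0 := by positivity
  rw [eq_div_iff this]
  ring

/-- the first weight is `α (α-1) / 2` -/
theorem Expands.zero {α : ℝ} (h0 : 0 < α) (h4 : α < 4) {W : ℕ → ℝ} (h : Expands α W) :
    W 0 = α * (α - 1) / 2 := by
  have hs := h.one h0 h4
  have habs : Summable fun m => |W m| := hs.summable.abs
  have hlim : Tendsto (fun t : ℝ => gs α t / t ^ 2) (𝓝[>] 0) (𝓝 (W 0)) := by
    rw [← tendsto_sub_nhds_zero_iff]
    apply squeeze_zero_norm' (a := fun t : ℝ => t ^ 2 * ∑' m, |W m|)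
    · have hev : ∀ᶠ t : ℝ in 𝓝[>] 0, t ∈ Ioo (0 : ℝ) 1 := Ioo_mem_nhdsGT one_pos
      filter_upwards [hev] with t ht
      have h1 := h.ratio h0 h4 ht.1 ht.2.le
      have h2 := (hasSum_nat_add_iff' (f := fun m => W m * t ^ (2 * m)) 1).2 h1
      rw [Finset.sum_range_one] at h2
      simp only [mul_zero, pow_zero, mul_one] at h2
      have h3 : HasSum (fun m => t ^ 2 * |W (m + 1)|) (t ^ 2 * ∑' m, |W (m + 1)|) :=
        (((summable_nat_add_iff 1).2 habs).hasSum).mul_left _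
      have h4' : ‖gs α t / t ^ 2 - W 0‖ ≤ t ^ 2 * ∑' m, |W (m + 1)| := by
        rw [← h2.tsum_eq]
        apply tsum_of_norm_bounded h3
        intro m
        have ht0 := ht.1.le
        rw [Real.norm_eq_abs, abs_mul, abs_of_nonneg (pow_nonneg ht0 _), mul_comm]
        apply mul_le_mul_of_nonneg_right _ (abs_nonneg _)
        apply pow_le_pow_of_le_one ht.1.le ht.2.le
        omega
      refine h4'.trans ?_
      apply mul_le_mul_of_nonneg_left _ (by positivity)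
      have h5 := habs.tsum_eq_zero_add
      have h6 := abs_nonneg (W 0)
      linarith
    · have h1 : Tendsto (fun t : ℝ => t ^ 2 * ∑' m, |W m|) (𝓝 0) (𝓝 (0 ^ 2 * ∑' m, |W m|)) :=
        ((continuous_pow 2).mul continuous_const).tendsto 0
      rw [zero_pow two_ne_zero, zero_mul] at h1
      exact h1.mono_left nhdsWithin_le_nhds
  exact tendsto_nhds_unique hlim (tendsto_gs α)

theorem expands02 (α : ℝ) (h0 : 0 < α) (h2 : α < 2) (h1 : α ≠ 1) :
    ∃ c : ℝ, 0 < c * (α - 1) ∧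
      Expands α (fun m => c * (bet α (2 * (m + 1)) / (2 * ((m : ℝ) + 1)))) := by
  obtain ⟨c, hc, hser⟩ := series02 α h0 h2 h1
  have hc0 : c ≠ 0 := by
    rintro rfl
    simp at hc
  refine ⟨c, hc, ?_⟩
  intro ι _ _ A D h
  have h5 := (hser ι A D h).mul_left c
  rw [mul_div_cancel₀ _ hc0] at h5
  refine h5.congr_fun fun m => ?_
  have hα : α < ((2 * (m + 1) : ℕ) : ℝ) := by
    push_cast
    have : (0 : ℝ) ≤ m := Nat.cast_nonneg m
    linarith
  have hb := (bet_pos α _ h0 hα).ne'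
  have e : bet α (2 * (m + 1)) * Ts α A D m = In α A D (2 * (m + 1)) := by
    rcases m with _ | m
    · show bet α (2 * (0 + 1)) * T2 α A D = In α A D (2 * (0 + 1))
      rw [← In2_eq_T2 α h0 h2 A D h]
      exact mul_div_cancel₀ _ hb
    · exact mul_div_cancel₀ _ hb
  rw [← e]
  ring

theorem expands24 (α : ℝ) (h2 : 2 < α) (h4 : α < 4) (h3 : α ≠ 3) :
    ∃ (c : ℝ) (W : ℕ → ℝ), 0 < c * (α - 3) ∧ Expands α W ∧ 
      (∀ m : ℕ, W (m + 1) = c * (bet α (2 * (m + 2)) / (2 * ((m : ℝ) + 2)))) := by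
  obtain ⟨c, hc, hser⟩ := series24 α h2 h4 h3
  have h0 : 0 < α := by linarith
  have hc0 : c ≠ 0 := by
    rintro rfl
    simp at hc
  refine ⟨c, fun m => Nat.casesOn m (α * (α - 1) / 2)
    (fun m => c * (bet α (2 * (m + 2)) / (2 * ((m : ℝ) + 2)))), hc, ?_, fun m => rfl⟩
  intro ι _ _ A D h
  have h5 := (hser ι A D h).mul_left c
  rw [mul_div_cancel₀ _ hc0] at h5
  have h6 := (hasSum_nat_add_iff (f := fun m => (Nat.casesOn m (α * (α - 1) / 2)
    (fun m => c * (bet α (2 * (m + 2)) / (2 * ((m : ℝ) + 2)))) : ℝ) * Ts α A D m)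
    (g := G α A D - α * (α - 1) / 2 * T2 α A D) 1).1 (by
      refine h5.congr_fun fun m => ?_
      have hα : α < ((2 * (m + 2) : ℕ) : ℝ) := by
        push_cast
        have : (0 : ℝ) ≤ m := Nat.cast_nonneg m
        linarith
      have hb := (bet_pos α _ h0 hα).ne'
      show c * (bet α (2 * (m + 2)) / (2 * ((m : ℝ) + 2))) *
        (In α A D (2 * (m + 2)) / bet α (2 * (m + 2))) =
        c * (In α A D (2 * (m + 2)) / (2 * ((m : ℝ) + 2)))
      field_simp)
  rw [Finset.sum_range_one] at h6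
  have e : G α A D - α * (α - 1) / 2 * T2 α A D + α * (α - 1) / 2 * Ts α A D 0 = G α A D := by
    show G α A D - α * (α - 1) / 2 * T2 α A D + α * (α - 1) / 2 * T2 α A D = G α A D
    ring
  have h7 : HasSum (fun m => (Nat.casesOn m (α * (α - 1) / 2)
    (fun m => c * (bet α (2 * (m + 2)) / (2 * ((m : ℝ) + 2)))) : ℝ) * Ts α A D m)
    (G α A D - α * (α - 1) / 2 * T2 α A D + α * (α - 1) / 2 * Ts α A D 0) := h6
  rwa [e] at h7

end Pool.Agent.RN
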