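import Pool.Agent.Lib_helper88.RN.Moment
import Pool.Agent.Lib_helper88.RN.Limits

/-!
# The universal bound `G12 ≥ N gs(√(x₁x₂/N))`
-/

open scoped BigOperators ComplexOrder Kronecker MatrixOrder Topology
open MeasureTheory Set Matrix Filter

namespace Pool.Agent.RN

open Pool.Agent.RC Pool.Agent.RC.T2B

variable {ι κ : Type} [Fintype ι] [DecidableEq ι] [Fintype κ] [DecidableEq κ]

theorem NN_nonneg (α : ℝ) {A : Matrix ι ι ℂ} (hA : A.PosDef) : 0 ≤ NN α A := by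
  obtain ⟨U, a, hU, hU', ha, hA'⟩ := exists_diag A hA
  unfold NN
  rw [hA', trF_conj_dg _ U a hU hU']
  exact Finset.sum_nonneg fun i _ => Real.rpow_nonneg (ha i).le _

theorem NN_kron (α : ℝ) {A₁ : Matrix ι ι ℂ} (h₁ : A₁.PosDef) {A₂ : Matrix κ κ ℂ}
    (h₂ : A₂.PosDef) : NN α (A₁ ⊗ₖ A₂) = NN α A₁ * NN α A₂ := by
  obtain ⟨U, a, hU, hU', ha, hA⟩ := exists_diag A₁ h₁
  obtain ⟨V, b, hV, hV', hb, hB⟩ := exists_diag A₂ h₂
  have hW : star (U ⊗ₖ V) * (U ⊗ₖ V) = 1 := by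
    rw [star_eq_conjTranspose, conjTranspose_kronecker, ← mul_kronecker_mul,
      ← star_eq_conjTranspose, ← star_eq_conjTranspose, hU, hV, one_kronecker_one]
  have hW' : (U ⊗ₖ V) * star (U ⊗ₖ V) = 1 := by
    rw [star_eq_conjTranspose, conjTranspose_kronecker, ← mul_kronecker_mul,
      ← star_eq_conjTranspose, ← star_eq_conjTranspose, hU', hV', one_kronecker_one]
  have hdg : dg a ⊗ₖ dg b = dg fun p : ι × κ => a p.1 * b p.2 := by
    unfold dg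
    rw [diagonal_kronecker_diagonal]
    congr 1
    funext p
    push_cast
    rfl
  have e : A₁ ⊗ₖ A₂ = (U ⊗ₖ V) * dg (fun p : ι × κ => a p.1 * b p.2) * star (U ⊗ₖ V) := by
    rw [hA, hB, mul_kronecker_mul, mul_kronecker_mul, star_eq_conjTranspose (U ⊗ₖ V),
      conjTranspose_kronecker, star_eq_conjTranspose, star_eq_conjTranspose, hdg]
  unfold NN
  rw [e, trF_conj_dg _ _ _ hW hW', hA, hB, trF_conj_dg _ U a hU hU', trF_conj_dg _ V b hV hV',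
    Fintype.sum_prod_type, Finset.sum_mul_sum]
  refine Finset.sum_congr rfl fun i _ => Finset.sum_congr rfl fun j _ => ?_
  exact Real.mul_rpow (ha i).le (hb j).le

theorem Ts_le_NN (α : ℝ) (h0 : 0 < α) (h4 : α < 4) (A D : Matrix ι ι ℂ) (h : IsPair A D) :
    Ts α A D 0 ≤ NN α A := by
  have h1 := ts_young α h0 h4 A D h 1 zero_le_one
  have h2 := Ts_anti α h0 h4 A D h (Nat.zero_le 1)
  norm_num at h1
  linarith

theorem Ts_pow (α : ℝ) (h0 : 0 < α) (h4 : α < 4) (A D : Matrix ι ι ℂ) (h : IsPair A D) (m : ℕ) :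
    NN α A * (Ts α A D 0 / NN α A) ^ (m + 1) ≤ Ts α A D m := by
  have hn := Ts_nonneg α h0 h4 A D h 0
  rcases eq_or_lt_of_le (NN_nonneg α h.pos) with hN | hN
  · rw [← hN, zero_mul]
    exact Ts_nonneg α h0 h4 A D h m
  · have h1 := ts_young α h0 h4 A D h m (J := Ts α A D 0 / NN α A) (by positivity)
    set τ := Ts α A D 0 / NN α A with hτ
    have e : Ts α A D 0 = τ * NN α A := by
      rw [hτ, div_mul_cancel₀ _ hN.ne']
    have e2 : ((m : ℝ) + 1) * τ ^ m * Ts α A D 0 = ((m : ℝ) + 1) * (τ ^ (m + 1) * NN α A) := by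
      rw [e, pow_succ]
      ring
    rw [e2] at h1
    linarith

theorem sqrt_pow_two_mul {x : ℝ} (hx : 0 ≤ x) (m : ℕ) :
    Real.sqrt x ^ (2 * (m + 1)) = x ^ (m + 1) := by
  rw [pow_mul, Real.sq_sqrt hx]

theorem sqrt_le_one' {x : ℝ} (hx : x ≤ 1) : Real.sqrt x ≤ 1 := by
  calc Real.sqrt x ≤ Real.sqrt 1 := Real.sqrt_le_sqrt hx
    _ = 1 := Real.sqrt_one

/-- monotonicity of `gs(√x)/W₀`, weights of one sign -/
theorem mono_pos {α : ℝ} (h0 : 0 < α) (h4 : α < 4) {W : ℕ → ℝ} (h : Expands α W)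
    (hR : ∀ m, 0 ≤ W m / W 0) {x y : ℝ} (hx : 0 ≤ x) (hxy : x ≤ y) (hy : y ≤ 1) :
    gs α (Real.sqrt x) / W 0 ≤ gs α (Real.sqrt y) / W 0 := by
  have h1 := (h.scalar h0 h4 (Real.sqrt_nonneg x) (sqrt_le_one' (hxy.trans hy))).div_const (W 0)
  have h2 := (h.scalar h0 h4 (Real.sqrt_nonneg y) (sqrt_le_one' hy)).div_const (W 0)
  apply hasSum_le _ h1 h2
  intro m
  rw [sqrt_pow_two_mul hx, sqrt_pow_two_mul (hx.trans hxy)]
  have h3 := mul_le_mul_of_nonneg_left (pow_le_pow_left₀ hx hxy (m + 1)) (hR m)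
  calc W m * x ^ (m + 1) / W 0 = W m / W 0 * x ^ (m + 1) := by ring
    _ ≤ W m / W 0 * y ^ (m + 1) := h3
    _ = _ := by ring

/-- monotonicity of `gs` for `α ≥ 1` -/
theorem gs_mono {α : ℝ} (hα : 1 ≤ α) {s t : ℝ} (hs : 0 ≤ s) (hst : s ≤ t) (ht : t ≤ 1) :
    gs α s ≤ gs α t := by
  rcases eq_or_lt_of_le hs with h | h
  · rw [← h]
    have hc := (convexOn_rpow hα).2 (mem_Ici.2 (by linarith : (0 : ℝ) ≤ 1 + t))
      (mem_Ici.2 (by linarith : (0 : ℝ) ≤ 1 - t)) (by norm_num : (0 : ℝ) ≤ 1 / 2)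
      (by norm_num : (0 : ℝ) ≤ 1 / 2) (by norm_num)
    simp only [smul_eq_mul] at hc
    have e : (1 / 2 : ℝ) * (1 + t) + 1 / 2 * (1 - t) = 1 := by ring
    rw [e, Real.one_rpow] at hc
    unfold gs
    rw [add_zero, sub_zero, Real.one_rpow]
    linarith
  · have ht0 : 0 < t := lt_of_lt_of_le h hst
    set θ : ℝ := (1 + s / t) / 2 with hθ
    have hst' : s / t ≤ 1 := (div_le_one ht0).2 hst
    have hst0 : 0 ≤ s / t := by positivity
    have h1 : 0 ≤ θ := by rw [hθ]; linarith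
    have h2 : 0 ≤ 1 - θ := by rw [hθ]; linarith
    have c1 := (convexOn_rpow hα).2 (mem_Ici.2 (by linarith : (0 : ℝ) ≤ 1 + t))
      (mem_Ici.2 (by linarith : (0 : ℝ) ≤ 1 - t)) h1 h2 (by ring)
    have c2 := (convexOn_rpow hα).2 (mem_Ici.2 (by linarith : (0 : ℝ) ≤ 1 + t))
      (mem_Ici.2 (by linarith : (0 : ℝ) ≤ 1 - t)) h2 h1 (by ring)
    simp only [smul_eq_mul] at c1 c2
    have e1 : θ * (1 + t) + (1 - θ) * (1 - t) = 1 + s := by
      rw [hθ]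
      field_simp
      ring
    have e2 : (1 - θ) * (1 + t) + θ * (1 - t) = 1 - s := by
      rw [hθ]
      field_simp
      ring
    rw [e1] at c1
    rw [e2] at c2
    unfold gs
    linarith

/-- lower bound of `G / W₀` by the second coefficient -/
theorem G_lower {α : ℝ} (h0 : 0 < α) (h4 : α < 4) {W : ℕ → ℝ} (h : Expands α W)
    (hR : ∀ m, 0 ≤ W m / W 0) (A D : Matrix ι ι ℂ) (hp : IsPair A D) :
    NN α A * (gs α (Real.sqrt (Ts α A D 0 / NN α A)) / W 0) ≤ G α A D / W 0 := by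
  have hn := Ts_nonneg α h0 h4 A D hp 0
  have hN := NN_nonneg α hp.pos
  have hτ0 : 0 ≤ Ts α A D 0 / NN α A := div_nonneg hn hN
  have hτ1 : Ts α A D 0 / NN α A ≤ 1 := div_le_one_of_le₀ (Ts_le_NN α h0 h4 A D hp) hN
  have h1 := ((h.scalar h0 h4 (Real.sqrt_nonneg _) (sqrt_le_one' hτ1)).div_const (W 0)).mul_left
    (NN α A)
  apply hasSum_le _ h1 (h.norm A D hp)
  intro m
  rw [sqrt_pow_two_mul hτ0]
  have h3 := mul_le_mul_of_nonneg_left (Ts_pow α h0 h4 A D hp m) (hR m)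
  calc NN α A * (W m * (Ts α A D 0 / NN α A) ^ (m + 1) / W 0)
      = W m / W 0 * (NN α A * (Ts α A D 0 / NN α A) ^ (m + 1)) := by ring
    _ ≤ _ := h3

/-- upper bound of `G`, negative tail -/
theorem G_upper {α : ℝ} (h0 : 0 < α) (h4 : α < 4) {W : ℕ → ℝ} (h : Expands α W)
    (hR : ∀ m, W (m + 1) ≤ 0) (A D : Matrix ι ι ℂ) (hp : IsPair A D) :
    G α A D ≤ NN α A * gs α (Real.sqrt (Ts α A D 0 / NN α A)) := by
  have hn := Ts_nonneg α h0 h4 A D hp 0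
  have hN := NN_nonneg α hp.pos
  have hτ0 : 0 ≤ Ts α A D 0 / NN α A := div_nonneg hn hN
  have hτ1 : Ts α A D 0 / NN α A ≤ 1 := div_le_one_of_le₀ (Ts_le_NN α h0 h4 A D hp) hN
  have h1 := (h.scalar h0 h4 (Real.sqrt_nonneg _) (sqrt_le_one' hτ1)).mul_left (NN α A)
  apply hasSum_le _ (h ι A D hp) h1
  intro m
  rw [sqrt_pow_two_mul hτ0]
  rcases m with _ | m
  · rcases eq_or_lt_of_le hN with hN0 | hN0
    · have h5 : Ts α A D 0 = 0 := le_antisymm (hN0 ▸ Ts_le_NN α h0 h4 A D hp) hn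
      rw [h5]
      simp
    · rw [zero_add, pow_one]
      apply le_of_eq
      field_simp
  · have h3 := mul_le_mul_of_nonpos_left (Ts_pow α h0 h4 A D hp (m + 1)) (hR m)
    calc W (m + 1) * Ts α A D (m + 1)
        ≤ W (m + 1) * (NN α A * (Ts α A D 0 / NN α A) ^ (m + 1 + 1)) := h3
      _ = _ := by ring

/-- the argument of the universal bound -/
noncomputable def XX (α : ℝ) (A₁ D₁ : Matrix ι ι ℂ) (A₂ D₂ : Matrix κ κ ℂ) : ℝ :=
  (G α A₁ D₁ / (2 ^ (α - 1) - 1)) * (G α A₂ D₂ / (2 ^ (α - 1) - 1)) / (NN α A₁ * NN α A₂)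

theorem univ_pos {α : ℝ} (h0 : 0 < α) (h4 : α < 4) {W : ℕ → ℝ} (h : Expands α W)
    (hW : W 0 ≠ 0) (hR : ∀ m, 0 ≤ W m / W 0)
    {A₁ D₁ : Matrix ι ι ℂ} (h₁ : IsPair A₁ D₁) {A₂ D₂ : Matrix κ κ ℂ} (h₂ : IsPair A₂ D₂)
    (hT : T2 α A₁ D₁ * T2 α A₂ D₂ ≤ T2 α (A₁ ⊗ₖ A₂) (D₁ ⊗ₖ D₂)) :
    NN α A₁ * NN α A₂ * (gs α (Real.sqrt (XX α A₁ D₁ A₂ D₂)) / W 0) ≤
      G α (A₁ ⊗ₖ A₂) (D₁ ⊗ₖ D₂) / W 0 := by
  have hp := h₁.kron h₂
  have hL : 0 < (2 ^ (α - 1) - 1) / W 0 := by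
    have h5 := ((h.one h0 h4).div_const (W 0))
    have h7 := le_hasSum h5 0 fun m _ => hR m
    rw [div_self hW] at h7
    linarith
  have bnd : ∀ {ι : Type} [Fintype ι] [DecidableEq ι] {A D : Matrix ι ι ℂ}, IsPair A D →
      0 ≤ G α A D / (2 ^ (α - 1) - 1) ∧ G α A D / (2 ^ (α - 1) - 1) ≤ Ts α A D 0 := by
    intro ι _ _ A D hq
    have hq1 : Noise A D 1 := ⟨hq.pos, by rw [Complex.ofReal_one, one_smul]; exact hq.sub,
      by rw [Complex.ofReal_one, one_smul]; exact hq.add⟩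
    have u := norm_upper h0 h4 h hR one_pos le_rfl hq1
    rw [gs_one α h0, one_pow, div_one] at u
    have l := norm_lower h0 h4 h hW hR A D hq
    have n := Ts_nonneg α h0 h4 A D hq 0
    have e : G α A D / (2 ^ (α - 1) - 1) = (G α A D / W 0) / ((2 ^ (α - 1) - 1) / W 0) := by
      rw [div_div_div_cancel_right₀ hW]
    rw [e]
    refine ⟨div_nonneg (n.trans l) hL.le, ?_⟩
    rw [div_le_iff₀ hL, mul_comm]
    exact u
  obtain ⟨a1, a2⟩ := bnd h₁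
  obtain ⟨b1, b2⟩ := bnd h₂
  have key := G_lower h0 h4 h hR _ _ hp
  rw [NN_kron α h₁.pos h₂.pos] at key
  refine le_trans ?_ key
  have hN : 0 ≤ NN α A₁ * NN α A₂ := mul_nonneg (NN_nonneg α h₁.pos) (NN_nonneg α h₂.pos)
  apply mul_le_mul_of_nonneg_left _ hN
  have hT' : Ts α A₁ D₁ 0 * Ts α A₂ D₂ 0 ≤ Ts α (A₁ ⊗ₖ A₂) (D₁ ⊗ₖ D₂) 0 := hT
  apply mono_pos h0 h4 h hR
  · unfold XX
    exact div_nonneg (mul_nonneg a1 b1) hN
  · unfold XX
    apply div_le_div_of_nonneg_right _ hN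
    exact (mul_le_mul a2 b2 b1 (a1.trans a2)).trans hT'
  · have h6 := Ts_le_NN α h0 h4 _ _ hp
    rw [NN_kron α h₁.pos h₂.pos] at h6
    exact div_le_one_of_le₀ h6 hN

theorem univ_neg {α : ℝ} (h0 : 0 < α) (h4 : α < 4) (h1 : 1 < α) {W : ℕ → ℝ} (h : Expands α W)
    (hR : ∀ m, W (m + 1) ≤ 0)
    {A₁ D₁ : Matrix ι ι ℂ} (h₁ : IsPair A₁ D₁) {A₂ D₂ : Matrix κ κ ℂ} (h₂ : IsPair A₂ D₂)
    (hT : T2 α (A₁ ⊗ₖ A₂) (D₁ ⊗ₖ D₂) ≤ T2 α A₁ D₁ * T2 α A₂ D₂) :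
    G α (A₁ ⊗ₖ A₂) (D₁ ⊗ₖ D₂) ≤
      NN α A₁ * NN α A₂ * gs α (Real.sqrt (XX α A₁ D₁ A₂ D₂)) := by
  have hp := h₁.kron h₂
  have hL : 0 < (2 : ℝ) ^ (α - 1) - 1 := by
    have : (1 : ℝ) < 2 ^ (α - 1) := Real.one_lt_rpow (by norm_num) (by linarith)
    linarith
  have bnd : ∀ {ι : Type} [Fintype ι] [DecidableEq ι] {A D : Matrix ι ι ℂ}, IsPair A D →
      Ts α A D 0 ≤ G α A D / (2 ^ (α - 1) - 1) ∧ G α A D / (2 ^ (α - 1) - 1) ≤ NN α A := by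
    intro ι _ _ A D hq
    constructor
    · rw [le_div_iff₀ hL, mul_comm]
      have h2 := (h.one h0 h4).mul_right (Ts α A D 0)
      apply hasSum_le _ h2 (h ι A D hq)
      intro m
      rcases m with _ | m
      · exact le_rfl
      · exact mul_le_mul_of_nonpos_left (Ts_anti α h0 h4 A D hq (Nat.zero_le _)) (hR m)
    · rw [div_le_iff₀ hL]
      refine (G_upper h0 h4 h hR A D hq).trans ?_
      apply mul_le_mul_of_nonneg_left _ (NN_nonneg α hq.pos)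
      rw [← gs_one α h0]
      apply gs_mono h1.le (Real.sqrt_nonneg _) _ le_rfl
      exact sqrt_le_one' (div_le_one_of_le₀ (Ts_le_NN α h0 h4 A D hq) (NN_nonneg α hq.pos))
  obtain ⟨a1, a2⟩ := bnd h₁
  obtain ⟨b1, b2⟩ := bnd h₂
  have key := G_upper h0 h4 h hR _ _ hp
  rw [NN_kron α h₁.pos h₂.pos] at key
  refine key.trans ?_
  have hN₁ := NN_nonneg α h₁.pos
  have hN₂ := NN_nonneg α h₂.pos
  have hN : 0 ≤ NN α A₁ * NN α A₂ := mul_nonneg hN₁ hN₂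
  apply mul_le_mul_of_nonneg_left _ hN
  have hT' : Ts α (A₁ ⊗ₖ A₂) (D₁ ⊗ₖ D₂) 0 ≤ Ts α A₁ D₁ 0 * Ts α A₂ D₂ 0 := hT
  have n₁ := Ts_nonneg α h0 h4 _ _ h₁ 0
  have n₂ := Ts_nonneg α h0 h4 _ _ h₂ 0
  apply gs_mono h1.le (Real.sqrt_nonneg _)
  · apply Real.sqrt_le_sqrt
    unfold XX
    apply div_le_div_of_nonneg_right _ hN
    exact hT'.trans (mul_le_mul a1 b1 n₂ (n₁.trans a1))
  · apply sqrt_le_one'
    unfold XX
    exact div_le_one_of_le₀ (mul_le_mul a2 b2 (n₂.trans b1) hN₁) hN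

end Pool.Agent.RN
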