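import Pool.Agent.Lib_helper88.RN.UnivLim

/-!
# The universal bound: closed ranges of `α`, and `α = 1`
-/

open scoped BigOperators ComplexOrder Kronecker MatrixOrder Topology
open MeasureTheory Set Matrix Filter

namespace Pool.Agent.RN

open Pool.Agent.RC Pool.Agent.RC.T2B

variable {ι κ : Type} [Fintype ι] [DecidableEq ι] [Fintype κ] [DecidableEq κ]

theorem tendsto_NN_exp (M : Matrix ι ι ℂ) (α₀ : ℝ) (h : 0 < α₀) :
    Tendsto (fun α => NN α M) (𝓝 α₀) (𝓝 (NN α₀ M)) := by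
  unfold NN
  by_cases hM : M.IsHermitian
  · unfold trF
    simp only [dif_pos hM]
    exact tendsto_finsetSum _ fun i _ =>
      (Real.continuousAt_const_rpow' h.ne' : ContinuousAt (fun x => hM.eigenvalues i ^ x) α₀)
  · unfold trF
    simp only [dif_neg hM]
    exact tendsto_const_nhds

theorem NN_pos [Nonempty ι] (α : ℝ) {A : Matrix ι ι ℂ} (hA : A.PosDef) : 0 < NN α A := by
  obtain ⟨U, a, hU, hU', ha, hA'⟩ := exists_diag A hA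
  unfold NN
  rw [hA', trF_conj_dg _ U a hU hU']
  exact Finset.sum_pos (fun i _ => Real.rpow_pos_of_pos (ha i) _) Finset.univ_nonempty

theorem nonempty_of_NN {α : ℝ} {A : Matrix ι ι ℂ} (h : NN α A ≠ 0) : Nonempty ι := by
  rcases isEmpty_or_nonempty ι with he | hn
  · exfalso
    apply h
    unfold NN trF
    simp
  · exact hn

/-- joint continuity of `gs` -/
theorem tendsto_gs_joint {F : Filter ℝ} {α₀ : ℝ} (hF : F ≤ 𝓝 α₀) (h : 0 < α₀) {s : ℝ → ℝ}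
    {s₀ : ℝ} (hs : Tendsto s F (𝓝 s₀)) : Tendsto (fun α => gs α (s α)) F (𝓝 (gs α₀ s₀)) := by
  have hid : Tendsto (fun α : ℝ => α) F (𝓝 α₀) := hF
  unfold gs
  exact ((((tendsto_const_nhds.add hs).rpow hid (Or.inr h)).add
    ((tendsto_const_nhds.sub hs).rpow hid (Or.inr h))).div_const 2).sub tendsto_const_nhds

theorem L_ne_zero {α : ℝ} (h : α ≠ 1) : (2 : ℝ) ^ (α - 1) - 1 ≠ 0 := by
  intro h0
  have h1 : (2 : ℝ) ^ (α - 1) = 1 := by linarith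
  have h2 : Real.log ((2 : ℝ) ^ (α - 1)) = 0 := by rw [h1, Real.log_one]
  rw [Real.log_rpow (by norm_num)] at h2
  rcases mul_eq_zero.1 h2 with h3 | h3
  · exact h (by linarith)
  · exact (Real.log_pos (by norm_num : (1 : ℝ) < 2)).ne' h3

theorem tendsto_XX (A₁ D₁ : Matrix ι ι ℂ) (A₂ D₂ : Matrix κ κ ℂ) (α₀ : ℝ) (h : 0 < α₀)
    (h1 : α₀ ≠ 1) (hN : NN α₀ A₁ * NN α₀ A₂ ≠ 0) (F : Filter ℝ) (hF : F ≤ 𝓝 α₀) :
    Tendsto (fun α => XX α A₁ D₁ A₂ D₂) F (𝓝 (XX α₀ A₁ D₁ A₂ D₂)) := by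
  unfold XX
  exact ((((tendsto_G_exp A₁ D₁ α₀ h).div (tendsto_L α₀) (L_ne_zero h1)).mul
    ((tendsto_G_exp A₂ D₂ α₀ h).div (tendsto_L α₀) (L_ne_zero h1))).div
    ((tendsto_NN_exp A₁ α₀ h).mul (tendsto_NN_exp A₂ α₀ h)) hN).mono_left hF

/-- the homogeneous inequality on `(0,2] ∪ [3,4]`, `A > 0` -/
theorem pair_univ_pos (α : ℝ) (hα : (0 < α ∧ α ≤ 2) ∨ (3 ≤ α ∧ α ≤ 4)) (hα1 : α ≠ 1)
    {A₁ D₁ : Matrix ι ι ℂ} (h₁ : IsPair A₁ D₁) {A₂ D₂ : Matrix κ κ ℂ} (h₂ : IsPair A₂ D₂)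
    (hN : NN α A₁ * NN α A₂ ≠ 0) :
    NN α A₁ * NN α A₂ * (gs α (Real.sqrt (XX α A₁ D₁ A₂ D₂)) / (α * (α - 1) / 2)) ≤
      G α (A₁ ⊗ₖ A₂) (D₁ ⊗ₖ D₂) / (α * (α - 1) / 2) := by
  have lim : ∀ (α₀ : ℝ) (F : Filter ℝ) [F.NeBot], 0 < α₀ → α₀ ≠ 1 → F ≤ 𝓝 α₀ →
      NN α₀ A₁ * NN α₀ A₂ ≠ 0 →
      (∀ᶠ α in F, (0 < α ∧ α < 2 ∧ α ≠ 1) ∨ (3 < α ∧ α < 4)) →
      NN α₀ A₁ * NN α₀ A₂ * (gs α₀ (Real.sqrt (XX α₀ A₁ D₁ A₂ D₂)) / (α₀ * (α₀ - 1) / 2)) ≤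
        G α₀ (A₁ ⊗ₖ A₂) (D₁ ⊗ₖ D₂) / (α₀ * (α₀ - 1) / 2) := by
    intro α₀ F _ h0 h1 hF hN hev
    have hC : α₀ * (α₀ - 1) / 2 ≠ 0 :=
      div_ne_zero (mul_ne_zero h0.ne' (sub_ne_zero.2 h1)) two_ne_zero
    have tC : Tendsto (fun α : ℝ => α * (α - 1) / 2) F (𝓝 (α₀ * (α₀ - 1) / 2)) := by
      have : Continuous fun α : ℝ => α * (α - 1) / 2 := by fun_prop
      exact (this.tendsto α₀).mono_left hF
    have tX := (Real.continuous_sqrt.tendsto _).comp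
      (tendsto_XX A₁ D₁ A₂ D₂ α₀ h0 h1 hN F hF)
    have tg := (tendsto_gs_joint hF h0 tX).div tC hC
    have tN := ((tendsto_NN_exp A₁ α₀ h0).mul (tendsto_NN_exp A₂ α₀ h0)).mono_left hF
    have tG := ((tendsto_G_exp (A₁ ⊗ₖ A₂) (D₁ ⊗ₖ D₂) α₀ h0).mono_left hF).div tC hC
    apply le_of_tendsto_of_tendsto (tN.mul tg) tG
    filter_upwards [hev] with α hα
    exact open_univ_pos α hα h₁ h₂
  rcases hα with ⟨h0, h2⟩ | ⟨h3, h4⟩
  · rcases eq_or_lt_of_le h2 with rfl | h2'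
    · apply lim 2 (𝓝[<] 2) two_pos (by norm_num) nhdsWithin_le_nhds hN
      have hev : ∀ᶠ α : ℝ in 𝓝[<] 2, α ∈ Ioo (1 : ℝ) 2 := Ioo_mem_nhdsLT (by norm_num)
      filter_upwards [hev] with α hα
      exact Or.inl ⟨by linarith [hα.1], hα.2, ne_of_gt hα.1⟩
    · exact open_univ_pos α (Or.inl ⟨h0, h2', hα1⟩) h₁ h₂
  · rcases eq_or_lt_of_le h3 with rfl | h3'
    · apply lim 3 (𝓝[>] 3) three_pos (by norm_num) nhdsWithin_le_nhds hN
      have hev : ∀ᶠ α : ℝ in 𝓝[>] 3, α ∈ Ioo (3 : ℝ) 4 := Ioo_mem_nhdsGT (by norm_num)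
      filter_upwards [hev] with α hα
      exact Or.inr hα
    rcases eq_or_lt_of_le h4 with rfl | h4'
    · apply lim 4 (𝓝[<] 4) four_pos (by norm_num) nhdsWithin_le_nhds hN
      have hev : ∀ᶠ α : ℝ in 𝓝[<] 4, α ∈ Ioo (3 : ℝ) 4 := Ioo_mem_nhdsLT (by norm_num)
      filter_upwards [hev] with α hα
      exact Or.inr hα
    exact open_univ_pos α (Or.inr ⟨h3', h4'⟩) h₁ h₂

/-- the homogeneous inequality on `[2,3]`, `A > 0` -/
theorem pair_univ_neg (α : ℝ) (h2 : 2 ≤ α) (h3 : α ≤ 3)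
    {A₁ D₁ : Matrix ι ι ℂ} (h₁ : IsPair A₁ D₁) {A₂ D₂ : Matrix κ κ ℂ} (h₂ : IsPair A₂ D₂)
    (hN : NN α A₁ * NN α A₂ ≠ 0) :
    G α (A₁ ⊗ₖ A₂) (D₁ ⊗ₖ D₂) ≤
      NN α A₁ * NN α A₂ * gs α (Real.sqrt (XX α A₁ D₁ A₂ D₂)) := by
  have lim : ∀ (α₀ : ℝ) (F : Filter ℝ) [F.NeBot], 0 < α₀ → α₀ ≠ 1 → F ≤ 𝓝 α₀ →
      NN α₀ A₁ * NN α₀ A₂ ≠ 0 → (∀ᶠ α in F, 2 < α ∧ α < 3) →
      G α₀ (A₁ ⊗ₖ A₂) (D₁ ⊗ₖ D₂) ≤
        NN α₀ A₁ * NN α₀ A₂ * gs α₀ (Real.sqrt (XX α₀ A₁ D₁ A₂ D₂)) := by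
    intro α₀ F _ h0 h1 hF hN hev
    have tX := (Real.continuous_sqrt.tendsto _).comp
      (tendsto_XX A₁ D₁ A₂ D₂ α₀ h0 h1 hN F hF)
    have tg := tendsto_gs_joint hF h0 tX
    have tN := ((tendsto_NN_exp A₁ α₀ h0).mul (tendsto_NN_exp A₂ α₀ h0)).mono_left hF
    have tG := (tendsto_G_exp (A₁ ⊗ₖ A₂) (D₁ ⊗ₖ D₂) α₀ h0).mono_left hF
    apply le_of_tendsto_of_tendsto tG (tN.mul tg)
    filter_upwards [hev] with α hα
    exact open_univ_neg α hα.1 hα.2 h₁ h₂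
  rcases eq_or_lt_of_le h2 with rfl | h2'
  · apply lim 2 (𝓝[>] 2) two_pos (by norm_num) nhdsWithin_le_nhds hN
    have hev : ∀ᶠ α : ℝ in 𝓝[>] 2, α ∈ Ioo (2 : ℝ) 3 := Ioo_mem_nhdsGT (by norm_num)
    filter_upwards [hev] with α hα
    exact hα
  rcases eq_or_lt_of_le h3 with rfl | h3'
  · apply lim 3 (𝓝[<] 3) three_pos (by norm_num) nhdsWithin_le_nhds hN
    have hev : ∀ᶠ α : ℝ in 𝓝[<] 3, α ∈ Ioo (2 : ℝ) 3 := Ioo_mem_nhdsLT (by norm_num)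
    filter_upwards [hev] with α hα
    exact hα
  exact open_univ_neg α h2' h3' h₁ h₂

theorem tendsto_XX_shift {α : ℝ} (hα : 0 < α) {A₁ D₁ : Matrix ι ι ℂ} (h₁ : IsPsdPair A₁ D₁)
    {A₂ D₂ : Matrix κ κ ℂ} (h₂ : IsPsdPair A₂ D₂) (hN : NN α A₁ * NN α A₂ ≠ 0) :
    Tendsto (fun j => XX α (shift A₁ j) D₁ (shift A₂ j) D₂) atTop
      (𝓝 (XX α A₁ D₁ A₂ D₂)) := by
  have t1 := (tendsto_G_shift hα h₁.pos.1 h₁.herm).div_const ((2 : ℝ) ^ (α - 1) - 1)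
  have t2 := (tendsto_G_shift hα h₂.pos.1 h₂.herm).div_const ((2 : ℝ) ^ (α - 1) - 1)
  have t3 := (tendsto_NN hα h₁.pos.1).mul (tendsto_NN hα h₂.pos.1)
  exact (t1.mul t2).div t3 hN

theorem NN_shift_ne [Nonempty ι] (α : ℝ) {A : Matrix ι ι ℂ} (hA : A.PosSemidef) (j : ℕ) :
    NN α (shift A j) ≠ 0 := by
  have e := eps_posDef (ι := ι) j
  have : (shift A j).PosDef := by
    unfold RC.shift
    rw [add_comm]
    exact e.add_posSemidef hA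
  exact (NN_pos α this).ne'

/-- the homogeneous inequality on `(0,2] ∪ [3,4]`, `A ≥ 0` -/
theorem hom_univ_pos (α : ℝ) (hα : (0 < α ∧ α ≤ 2) ∨ (3 ≤ α ∧ α ≤ 4)) (hα1 : α ≠ 1)
    {A₁ D₁ : Matrix ι ι ℂ} (h₁ : IsPsdPair A₁ D₁) {A₂ D₂ : Matrix κ κ ℂ} (h₂ : IsPsdPair A₂ D₂)
    (hN : NN α A₁ * NN α A₂ ≠ 0) :
    NN α A₁ * NN α A₂ * (gs α (Real.sqrt (XX α A₁ D₁ A₂ D₂)) / (α * (α - 1) / 2)) ≤
      G α (A₁ ⊗ₖ A₂) (D₁ ⊗ₖ D₂) / (α * (α - 1) / 2) := by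
  have h0 : 0 < α := by
    rcases hα with h | h
    · exact h.1
    · linarith [h.1]
  have := nonempty_of_NN (left_ne_zero_of_mul hN)
  have := nonempty_of_NN (right_ne_zero_of_mul hN)
  have t12 := (tendsto_G_shift_kron h0 h₁.pos.1 h₁.herm h₂.pos.1 h₂.herm).div_const
    (α * (α - 1) / 2)
  have t3 := (tendsto_NN h0 h₁.pos.1).mul (tendsto_NN h0 h₂.pos.1)
  have hc : Continuous fun x : ℝ => gs α (Real.sqrt x) / (α * (α - 1) / 2) :=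
    ((continuous_gs h0).comp Real.continuous_sqrt).div_const _
  have t4 := t3.mul ((hc.tendsto _).comp (tendsto_XX_shift h0 h₁ h₂ hN))
  apply le_of_tendsto_of_tendsto' t4 t12
  intro j
  exact pair_univ_pos α hα hα1 (isPair_shift h₁.pos h₁.sub h₁.add j)
    (isPair_shift h₂.pos h₂.sub h₂.add j)
    (mul_ne_zero (NN_shift_ne α h₁.pos j) (NN_shift_ne α h₂.pos j))

/-- the homogeneous inequality on `[2,3]`, `A ≥ 0` -/
theorem hom_univ_neg (α : ℝ) (h2 : 2 ≤ α) (h3 : α ≤ 3)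
    {A₁ D₁ : Matrix ι ι ℂ} (h₁ : IsPsdPair A₁ D₁) {A₂ D₂ : Matrix κ κ ℂ} (h₂ : IsPsdPair A₂ D₂)
    (hN : NN α A₁ * NN α A₂ ≠ 0) :
    G α (A₁ ⊗ₖ A₂) (D₁ ⊗ₖ D₂) ≤
      NN α A₁ * NN α A₂ * gs α (Real.sqrt (XX α A₁ D₁ A₂ D₂)) := by
  have h0 : 0 < α := by linarith
  have := nonempty_of_NN (left_ne_zero_of_mul hN)
  have := nonempty_of_NN (right_ne_zero_of_mul hN)
  have t12 := tendsto_G_shift_kron h0 h₁.pos.1 h₁.herm h₂.pos.1 h₂.herm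
  have t3 := (tendsto_NN h0 h₁.pos.1).mul (tendsto_NN h0 h₂.pos.1)
  have hc : Continuous fun x : ℝ => gs α (Real.sqrt x) :=
    (continuous_gs h0).comp Real.continuous_sqrt
  have t4 := t3.mul ((hc.tendsto _).comp (tendsto_XX_shift h0 h₁ h₂ hN))
  apply le_of_tendsto_of_tendsto' t12 t4
  intro j
  exact pair_univ_neg α h2 h3 (isPair_shift h₁.pos h₁.sub h₁.add j)
    (isPair_shift h₂.pos h₂.sub h₂.add j)
    (mul_ne_zero (NN_shift_ne α h₁.pos j) (NN_shift_ne α h₂.pos j))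

/-- `0 ≤ G/L ≤ N` -/
theorem pair_bnd (α : ℝ) (hα : (0 < α ∧ α < 2 ∧ α ≠ 1) ∨ (3 < α ∧ α < 4) ∨ (2 < α ∧ α < 3))
    {A D : Matrix ι ι ℂ} (hq : IsPair A D) :
    0 ≤ G α A D / (2 ^ (α - 1) - 1) ∧ G α A D / (2 ^ (α - 1) - 1) ≤ NN α A := by
  have pos : 0 < α → α < 4 → ∀ W : ℕ → ℝ, Expands α W → W 0 ≠ 0 → (∀ m, 0 ≤ W m / W 0) →
      0 ≤ G α A D / (2 ^ (α - 1) - 1) ∧ G α A D / (2 ^ (α - 1) - 1) ≤ NN α A := by
    intro h0 h4 W h hW hR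
    have hL : 0 < (2 ^ (α - 1) - 1) / W 0 := by
      have h5 := ((h.one h0 h4).div_const (W 0))
      have h7 := le_hasSum h5 0 fun m _ => hR m
      rw [div_self hW] at h7
      linarith
    have hq1 : Noise A D 1 := ⟨hq.pos, by rw [Complex.ofReal_one, one_smul]; exact hq.sub,
      by rw [Complex.ofReal_one, one_smul]; exact hq.add⟩
    have u := norm_upper h0 h4 h hR one_pos le_rfl hq1
    rw [gs_one α h0, one_pow, div_one] at u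
    have l := norm_lower h0 h4 h hW hR A D hq
    have n := Ts_nonneg α h0 h4 A D hq 0
    have e : G α A D / (2 ^ (α - 1) - 1) = (G α A D / W 0) / ((2 ^ (α - 1) - 1) / W 0) := by
      rw [div_div_div_cancel_right₀ hW]
    rw [e]
    refine ⟨div_nonneg (n.trans l) hL.le, ?_⟩
    rw [div_le_iff₀ hL, mul_comm]
    exact u.trans (mul_le_mul_of_nonneg_left (Ts_le_NN α h0 h4 A D hq) hL.le)
  rcases hα with ⟨h0, h2, h1⟩ | ⟨h3, h4⟩ | ⟨h2, h3⟩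
  · obtain ⟨c, hc, hex⟩ := expands02 α h0 h2 h1
    have hc0 : c ≠ 0 := by
      rintro rfl
      simp at hc
    have hb : ∀ m : ℕ, 0 < bet α (2 * (m + 1)) := fun m => bet_pos α _ h0 (by
      push_cast
      have : (0 : ℝ) ≤ m := Nat.cast_nonneg m
      linarith)
    have hW : c * (bet α (2 * (0 + 1)) / (2 * (((0 : ℕ) : ℝ) + 1))) ≠ 0 := by
      have := hb 0
      positivity
    exact pos h0 (by linarith) _ hex hW (fun m => by
      show 0 ≤ c * (bet α (2 * (m + 1)) / (2 * ((m : ℝ) + 1))) /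
        (c * (bet α (2 * (0 + 1)) / (2 * (((0 : ℕ) : ℝ) + 1))))
      rw [mul_div_mul_left _ _ hc0]
      have h5 := hb m
      have h6 := hb 0
      positivity)
  · have h0 : 0 < α := by linarith
    obtain ⟨c, W, hc, hex, hW⟩ := expands24 α (by linarith) h4 (ne_of_gt h3)
    have hcpos : 0 < c := by
      rcases pos_and_pos_or_neg_and_neg_of_mul_pos hc with h | h
      · exact h.1
      · linarith [h.2]
    have hz := hex.zero h0 h4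
    have hz0 : 0 < W 0 := by
      rw [hz]
      have : 0 < α - 1 := by linarith
      positivity
    have hb : ∀ m : ℕ, 0 < bet α (2 * (m + 2)) := fun m => bet_pos α _ h0 (by
      push_cast
      have : (0 : ℝ) ≤ m := Nat.cast_nonneg m
      linarith)
    exact pos h0 h4 W hex hz0.ne' (fun m => by
      rcases m with _ | m
      · rw [div_self hz0.ne']; exact zero_le_one
      · apply div_nonneg _ hz0.le
        rw [hW m]
        have h5 := hb m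
        positivity)
  · have h0 : 0 < α := by linarith
    have h4 : α < 4 := by linarith
    obtain ⟨c, W, hc, hex, hW⟩ := expands24 α h2 h4 (ne_of_lt h3)
    have hcneg : c < 0 := by
      rcases pos_and_pos_or_neg_and_neg_of_mul_pos hc with h | h
      · linarith [h.2]
      · exact h.1
    have hb : ∀ m : ℕ, 0 < bet α (2 * (m + 2)) := fun m => bet_pos α _ h0 (by
      push_cast
      have : (0 : ℝ) ≤ m := Nat.cast_nonneg m
      linarith)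
    have hR : ∀ m, W (m + 1) ≤ 0 := fun m => by
      rw [hW m]
      apply mul_nonpos_of_nonpos_of_nonneg hcneg.le
      have h5 := hb m
      positivity
    have hL : 0 < (2 : ℝ) ^ (α - 1) - 1 := by
      have : (1 : ℝ) < 2 ^ (α - 1) := Real.one_lt_rpow (by norm_num) (by linarith)
      linarith
    have l : Ts α A D 0 ≤ G α A D / (2 ^ (α - 1) - 1) := by
      rw [le_div_iff₀ hL, mul_comm]
      have h2 := (hex.one h0 h4).mul_right (Ts α A D 0)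
      apply hasSum_le _ h2 (hex ι A D hq)
      intro m
      rcases m with _ | m
      · exact le_rfl
      · exact mul_le_mul_of_nonpos_left (Ts_anti α h0 h4 A D hq (Nat.zero_le _)) (hR m)
    refine ⟨(Ts_nonneg α h0 h4 A D hq 0).trans l, ?_⟩
    rw [div_le_iff₀ hL]
    refine (G_upper h0 h4 hex hR A D hq).trans ?_
    apply mul_le_mul_of_nonneg_left _ (NN_nonneg α hq.pos)
    rw [← gs_one α h0]
    apply gs_mono (by linarith) (Real.sqrt_nonneg _) _ le_rfl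
    exact sqrt_le_one' (div_le_one_of_le₀ (Ts_le_NN α h0 h4 A D hq) (NN_nonneg α hq.pos))

theorem psd_bnd (α : ℝ) (hα : (0 < α ∧ α < 2 ∧ α ≠ 1) ∨ (3 < α ∧ α < 4) ∨ (2 < α ∧ α < 3))
    {A D : Matrix ι ι ℂ} (hq : IsPsdPair A D) :
    0 ≤ G α A D / (2 ^ (α - 1) - 1) ∧ G α A D / (2 ^ (α - 1) - 1) ≤ NN α A := by
  have h0 : 0 < α := by
    rcases hα with h | h | h
    · exact h.1
    · linarith [h.1]
    · linarith [h.1]
  have t1 := (tendsto_G_shift h0 hq.pos.1 hq.herm).div_const ((2 : ℝ) ^ (α - 1) - 1)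
  have t2 := tendsto_NN h0 hq.pos.1
  constructor
  · apply ge_of_tendsto' t1
    intro j
    exact (pair_bnd α hα (isPair_shift hq.pos hq.sub hq.add j)).1
  · apply le_of_tendsto_of_tendsto' t1 t2
    intro j
    exact (pair_bnd α hα (isPair_shift hq.pos hq.sub hq.add j)).2

theorem tendsto_div_L (A D : Matrix ι ι ℂ) (α₀ : ℝ) (h : 0 < α₀) (h1 : α₀ ≠ 1) :
    Tendsto (fun α => G α A D / ((2 : ℝ) ^ (α - 1) - 1)) (𝓝 α₀)
      (𝓝 (G α₀ A D / (2 ^ (α₀ - 1) - 1))) :=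
  (tendsto_G_exp A D α₀ h).div (tendsto_L α₀) (L_ne_zero h1)

/-- `0 ≤ G/L ≤ N` for all `α ∈ (0,4]`, `α ≠ 1` -/
theorem psd_bnd' (α : ℝ) (h0 : 0 < α) (h4 : α ≤ 4) (h1 : α ≠ 1)
    {A D : Matrix ι ι ℂ} (hq : IsPsdPair A D) :
    0 ≤ G α A D / (2 ^ (α - 1) - 1) ∧ G α A D / (2 ^ (α - 1) - 1) ≤ NN α A := by
  have lim : ∀ (α₀ : ℝ) (F : Filter ℝ) [F.NeBot], 0 < α₀ → α₀ ≠ 1 → F ≤ 𝓝 α₀ →
      (∀ᶠ α in F, (0 < α ∧ α < 2 ∧ α ≠ 1) ∨ (3 < α ∧ α < 4) ∨ (2 < α ∧ α < 3)) →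
      0 ≤ G α₀ A D / (2 ^ (α₀ - 1) - 1) ∧ G α₀ A D / (2 ^ (α₀ - 1) - 1) ≤ NN α₀ A := by
    intro α₀ F _ h0 h1 hF hev
    have t1 := (tendsto_div_L A D α₀ h0 h1).mono_left hF
    have t2 := (tendsto_NN_exp A α₀ h0).mono_left hF
    constructor
    · apply ge_of_tendsto t1
      filter_upwards [hev] with α hα
      exact (psd_bnd α hα hq).1
    · apply le_of_tendsto_of_tendsto t1 t2
      filter_upwards [hev] with α hα
      exact (psd_bnd α hα hq).2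
  rcases lt_trichotomy α 2 with h | h | h
  · exact psd_bnd α (Or.inl ⟨h0, h, h1⟩) hq
  · subst h
    apply lim 2 (𝓝[<] 2) two_pos (by norm_num) nhdsWithin_le_nhds
    have hev : ∀ᶠ α : ℝ in 𝓝[<] 2, α ∈ Ioo (1 : ℝ) 2 := Ioo_mem_nhdsLT (by norm_num)
    filter_upwards [hev] with α hα
    exact Or.inl ⟨by linarith [hα.1], hα.2, ne_of_gt hα.1⟩
  · rcases lt_trichotomy α 3 with h' | h' | h'
    · exact psd_bnd α (Or.inr (Or.inr ⟨h, h'⟩)) hq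
    · subst h'
      apply lim 3 (𝓝[>] 3) three_pos (by norm_num) nhdsWithin_le_nhds
      have hev : ∀ᶠ α : ℝ in 𝓝[>] 3, α ∈ Ioo (3 : ℝ) 4 := Ioo_mem_nhdsGT (by norm_num)
      filter_upwards [hev] with α hα
      exact Or.inr (Or.inl hα)
    · rcases eq_or_lt_of_le h4 with rfl | h4'
      · apply lim 4 (𝓝[<] 4) four_pos (by norm_num) nhdsWithin_le_nhds
        have hev : ∀ᶠ α : ℝ in 𝓝[<] 4, α ∈ Ioo (3 : ℝ) 4 := Ioo_mem_nhdsLT (by norm_num)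
        filter_upwards [hev] with α hα
        exact Or.inr (Or.inl hα)
      · exact psd_bnd α (Or.inr (Or.inl ⟨h', h4'⟩)) hq

end Pool.Agent.RN
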