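import Pool.Agent.Lib_helper88.RN.UnivState

/-!
# The universal bound in terms of the information parameter
-/

open scoped BigOperators ComplexOrder Kronecker MatrixOrder Topology
open MeasureTheory Set Matrix Filter

namespace Pool.Agent.RN

open Pool.Agent.RC Pool.Agent.RC.T2B Pool.Agent.Lib_helper98.Renyi

variable {ι κ : Type} [Fintype ι] [DecidableEq ι] [Fintype κ] [DecidableEq κ]

theorem scalar_pos_open {α s : ℝ} (hα : (0 < α ∧ α < 2 ∧ α ≠ 1) ∨ (3 < α ∧ α < 4)) (hs : 0 ≤ s)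
    (hs1 : s ≤ 1) : s ^ 2 ≤ gs α s / (α * (α - 1) / 2) := by
  have pos : 0 < α → α < 4 → ∀ W : ℕ → ℝ, Expands α W → W 0 ≠ 0 → (∀ m, 0 ≤ W m / W 0) →
      s ^ 2 ≤ gs α s / (α * (α - 1) / 2) := by
    intro h0 h4 W h hW hR
    rw [← h.zero h0 h4]
    have t := (h.scalar h0 h4 hs hs1).div_const (W 0)
    have t2 := le_hasSum t 0 fun m _ => by
      have : W m * s ^ (2 * (m + 1)) / W 0 = W m / W 0 * s ^ (2 * (m + 1)) := by ring
      rw [this]
      exact mul_nonneg (hR m) (pow_nonneg hs _)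
    have e : W 0 * s ^ (2 * (0 + 1)) / W 0 = s ^ 2 := by
      rw [zero_add, mul_one, mul_div_assoc, mul_div_cancel₀ _ hW]
    rwa [e] at t2
  rcases hα with ⟨h0, h2, h1⟩ | ⟨h3, h4⟩
  · obtain ⟨c, hc, hex⟩ := expands02 α h0 h2 h1
    have hc0 : c ≠ 0 := by
      rintro rfl
      simp at hc
    have hb : ∀ m : ℕ, 0 < bet α (2 * (m + 1)) := fun m => bet_pos α _ h0 (by
      push_cast
      have : (0 : ℝ) ≤ m := Nat.cast_nonneg m
      linarith)
    have hW : c * (bet α (2 * (0 + 1)) / (2 * (((0 : ℕ) : ℝ) + 1))) ≠ 0 := by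
      have := hb 0
      positivity
    exact pos h0 (by linarith) _ hex hW (fun m => by
      show 0 ≤ c * (bet α (2 * (m + 1)) / (2 * ((m : ℝ) + 1))) /
        (c * (bet α (2 * (0 + 1)) / (2 * (((0 : ℕ) : ℝ) + 1))))
      rw [mul_div_mul_left _ _ hc0]
      have h5 := hb m
      have h6 := hb 0
      positivity)
  · have h0 : 0 < α := by linarith
    obtain ⟨c, W, hc, hex, hW⟩ := expands24 α (by linarith) h4 (ne_of_gt h3)
    have hcpos : 0 < c := by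
      rcases pos_and_pos_or_neg_and_neg_of_mul_pos hc with h | h
      · exact h.1
      · linarith [h.2]
    have hz := hex.zero h0 h4
    have hz0 : 0 < W 0 := by
      rw [hz]
      have : 0 < α - 1 := by linarith
      positivity
    have hb : ∀ m : ℕ, 0 < bet α (2 * (m + 2)) := fun m => bet_pos α _ h0 (by
      push_cast
      have : (0 : ℝ) ≤ m := Nat.cast_nonneg m
      linarith)
    exact pos h0 h4 W hex hz0.ne' (fun m => by
      rcases m with _ | m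
      · rw [div_self hz0.ne']; exact zero_le_one
      · apply div_nonneg _ hz0.le
        rw [hW m]
        have h5 := hb m
        positivity)

theorem scalar_neg_open {α s : ℝ} (h2 : 2 < α) (h3 : α < 3) (hs : 0 ≤ s) (hs1 : s ≤ 1) :
    gs α s ≤ α * (α - 1) / 2 * s ^ 2 := by
  have h0 : 0 < α := by linarith
  have h4 : α < 4 := by linarith
  obtain ⟨c, W, hc, hex, hW⟩ := expands24 α h2 h4 (ne_of_lt h3)
  have hcneg : c < 0 := by
    rcases pos_and_pos_or_neg_and_neg_of_mul_pos hc with h | h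
    · linarith [h.2]
    · exact h.1
  have hb : ∀ m : ℕ, 0 < bet α (2 * (m + 2)) := fun m => bet_pos α _ h0 (by
    push_cast
    have : (0 : ℝ) ≤ m := Nat.cast_nonneg m
    linarith)
  rw [← hex.zero h0 h4]
  have t := (hex.scalar h0 h4 hs hs1).neg
  have t2 := le_hasSum t 0 fun m hm => by
    obtain ⟨k, rfl⟩ := Nat.exists_eq_succ_of_ne_zero hm
    rw [Left.nonneg_neg_iff]
    apply mul_nonpos_of_nonpos_of_nonneg _ (pow_nonneg hs _)
    rw [Nat.succ_eq_add_one, hW k]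
    apply mul_nonpos_of_nonpos_of_nonneg hcneg.le
    have h5 := hb k
    positivity
  rw [zero_add, mul_one] at t2
  linarith

theorem scalar_pos {α s : ℝ} (hα : (0 < α ∧ α ≤ 2) ∨ (3 ≤ α ∧ α ≤ 4)) (h1 : α ≠ 1)
    (hs : 0 ≤ s) (hs1 : s ≤ 1) : s ^ 2 ≤ gs α s / (α * (α - 1) / 2) := by
  have hab : |s| ≤ 1 := by rw [abs_of_nonneg hs]; exact hs1
  have lim : ∀ (α₀ : ℝ) (F : Filter ℝ) [F.NeBot], 0 < α₀ → α₀ ≠ 1 → F ≤ 𝓝 α₀ →
      (∀ᶠ α in F, (0 < α ∧ α < 2 ∧ α ≠ 1) ∨ (3 < α ∧ α < 4)) →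
      s ^ 2 ≤ gs α₀ s / (α₀ * (α₀ - 1) / 2) := by
    intro α₀ F _ h0 h1 hF hev
    have hC : α₀ * (α₀ - 1) / 2 ≠ 0 :=
      div_ne_zero (mul_ne_zero h0.ne' (sub_ne_zero.2 h1)) two_ne_zero
    have tC : Tendsto (fun α : ℝ => α * (α - 1) / 2) F (𝓝 (α₀ * (α₀ - 1) / 2)) := by
      have : Continuous fun α : ℝ => α * (α - 1) / 2 := by fun_prop
      exact (this.tendsto α₀).mono_left hF
    have tg := ((tendsto_gs_exp s hab α₀ h0).mono_left hF).div tC hC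
    apply ge_of_tendsto tg
    filter_upwards [hev] with α hα
    exact scalar_pos_open hα hs hs1
  rcases hα with ⟨h0, h2⟩ | ⟨h3, h4⟩
  · rcases eq_or_lt_of_le h2 with rfl | h2'
    · apply lim 2 (𝓝[<] 2) two_pos (by norm_num) nhdsWithin_le_nhds
      have hev : ∀ᶠ α : ℝ in 𝓝[<] 2, α ∈ Ioo (1 : ℝ) 2 := Ioo_mem_nhdsLT (by norm_num)
      filter_upwards [hev] with α hα
      exact Or.inl ⟨by linarith [hα.1], hα.2, ne_of_gt hα.1⟩
    · exact scalar_pos_open (Or.inl ⟨h0, h2', h1⟩) hs hs1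
  · rcases eq_or_lt_of_le h3 with rfl | h3'
    · apply lim 3 (𝓝[>] 3) three_pos (by norm_num) nhdsWithin_le_nhds
      have hev : ∀ᶠ α : ℝ in 𝓝[>] 3, α ∈ Ioo (3 : ℝ) 4 := Ioo_mem_nhdsGT (by norm_num)
      filter_upwards [hev] with α hα
      exact Or.inr hα
    rcases eq_or_lt_of_le h4 with rfl | h4'
    · apply lim 4 (𝓝[<] 4) four_pos (by norm_num) nhdsWithin_le_nhds
      have hev : ∀ᶠ α : ℝ in 𝓝[<] 4, α ∈ Ioo (3 : ℝ) 4 := Ioo_mem_nhdsLT (by norm_num)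
      filter_upwards [hev] with α hα
      exact Or.inr hα
    exact scalar_pos_open (Or.inr ⟨h3', h4'⟩) hs hs1

theorem scalar_neg {α s : ℝ} (h2 : 2 ≤ α) (h3 : α ≤ 3) (hs : 0 ≤ s) (hs1 : s ≤ 1) :
    gs α s ≤ α * (α - 1) / 2 * s ^ 2 := by
  have hab : |s| ≤ 1 := by rw [abs_of_nonneg hs]; exact hs1
  have lim : ∀ (α₀ : ℝ) (F : Filter ℝ) [F.NeBot], 0 < α₀ → F ≤ 𝓝 α₀ →
      (∀ᶠ α in F, 2 < α ∧ α < 3) → gs α₀ s ≤ α₀ * (α₀ - 1) / 2 * s ^ 2 := by
    intro α₀ F _ h0 hF hev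
    have tC : Tendsto (fun α : ℝ => α * (α - 1) / 2 * s ^ 2) F
        (𝓝 (α₀ * (α₀ - 1) / 2 * s ^ 2)) := by
      have : Continuous fun α : ℝ => α * (α - 1) / 2 * s ^ 2 := by fun_prop
      exact (this.tendsto α₀).mono_left hF
    have tg := (tendsto_gs_exp s hab α₀ h0).mono_left hF
    apply le_of_tendsto_of_tendsto tg tC
    filter_upwards [hev] with α hα
    exact scalar_neg_open hα.1 hα.2 hs hs1
  rcases eq_or_lt_of_le h2 with rfl | h2'
  · apply lim 2 (𝓝[>] 2) two_pos nhdsWithin_le_nhds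
    have hev : ∀ᶠ α : ℝ in 𝓝[>] 2, α ∈ Ioo (2 : ℝ) 3 := Ioo_mem_nhdsGT (by norm_num)
    filter_upwards [hev] with α hα
    exact hα
  rcases eq_or_lt_of_le h3 with rfl | h3'
  · apply lim 3 (𝓝[<] 3) three_pos nhdsWithin_le_nhds
    have hev : ∀ᶠ α : ℝ in 𝓝[<] 3, α ∈ Ioo (2 : ℝ) 3 := Ioo_mem_nhdsLT (by norm_num)
    filter_upwards [hev] with α hα
    exact hα
  exact scalar_neg_open h2' h3' hs hs1

theorem scalar_one {s : ℝ} (hs : 0 ≤ s) (hs1 : s ≤ 1) : s ^ 2 / 2 ≤ gs1 s := by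
  rcases eq_or_lt_of_le hs with rfl | h
  · unfold gs1
    simp
  have hu := (noise_unit h.le hs1).isPair le_rfl
  have tg := tendsto_G1 (1 : Matrix Unit Unit ℂ) ((s : ℂ) • 1) hu.pos.posSemidef hu.sub hu.add
  rw [G1_unit] at tg
  have tα : Tendsto (fun α : ℝ => α / 2 * s ^ 2) (𝓝[>] 1) (𝓝 (1 / 2 * s ^ 2)) := by
    apply Tendsto.mono_left _ nhdsWithin_le_nhds
    have : Continuous fun α : ℝ => α / 2 * s ^ 2 := by fun_prop
    exact this.tendsto 1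
  have e : s ^ 2 / 2 = 1 / 2 * s ^ 2 := by ring
  rw [e]
  unfold gs1
  apply le_of_tendsto_of_tendsto tα tg
  have hev : ∀ᶠ α : ℝ in 𝓝[>] 1, α ∈ Ioo (1 : ℝ) 2 := Ioo_mem_nhdsGT (by norm_num)
  filter_upwards [hev] with α hα
  have h3 := scalar_pos_open (α := α) (Or.inl ⟨by linarith [hα.1], hα.2, ne_of_gt hα.1⟩) hs hs1
  have h4 : 0 < α - 1 := by linarith [hα.1]
  have h5 : 0 < α := by linarith
  rw [G_unit, le_div_iff₀ h4]
  rw [le_div_iff₀ (by positivity)] at h3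
  linarith

/-- the constant `c_α = α(α-1)/(2(2^(α-1)-1))`, and `1/(2 log 2)` at `α = 1` -/
noncomputable def cCoef (α : ℝ) : ℝ :=
  if α = 1 then 1 / (2 * Real.log 2) else (α * (α - 1) / 2) / (2 ^ (α - 1) - 1)

theorem cCoef_pos {α : ℝ} (h0 : 0 < α) (h1 : α ≠ 1) :
    0 < (α * (α - 1) / 2) / ((2 : ℝ) ^ (α - 1) - 1) := by
  rcases lt_or_gt_of_ne h1 with h | h
  · have : (2 : ℝ) ^ (α - 1) < 1 :=
      Real.rpow_lt_one_of_one_lt_of_neg (by norm_num) (by linarith)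
    apply div_pos_of_neg_of_neg _ (by linarith)
    nlinarith
  · have : (1 : ℝ) < 2 ^ (α - 1) := Real.one_lt_rpow (by norm_num) (by linarith)
    have h3 : 0 < α - 1 := by linarith
    apply div_pos _ (by linarith)
    positivity

theorem infoParam_Hsum {σ₁ : Fin 2 → Matrix ι ι ℂ} {σ₂ : Fin 2 → Matrix κ κ ℂ}
    (h₁ : ∀ x, IsDensity (σ₁ x)) (h₂ : ∀ x, IsDensity (σ₂ x)) {α : ℝ} (hα : 0 < α)
    (h1 : α ≠ 1) : infoParam α (Hsum α σ₁ σ₂) =
      G α (Aop α σ₁ ⊗ₖ Aop α σ₂) (Dop α σ₁ ⊗ₖ Dop α σ₂) / (2 ^ (α - 1) - 1) := by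
  rw [Hsum, traceMid_tau, infoParam_state (isDensity_sumState h₁ h₂) hα h1,
    Aop_sumState h₁ h₂, Dop_sumState h₁ h₂]

theorem infoParam_Hsum_one {σ₁ : Fin 2 → Matrix ι ι ℂ} {σ₂ : Fin 2 → Matrix κ κ ℂ}
    (h₁ : ∀ x, IsDensity (σ₁ x)) (h₂ : ∀ x, IsDensity (σ₂ x)) :
    infoParam 1 (Hsum 1 σ₁ σ₂) =
      G1 (rhoOf σ₁ ⊗ₖ rhoOf σ₂) (delOf σ₁ ⊗ₖ delOf σ₂) / Real.log 2 := by
  rw [Hsum, traceMid_tau, infoParam_state_one (isDensity_sumState h₁ h₂), rhoOf_sumState,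
    delOf_sumState]

theorem univ_x_pos {σ₁ : Fin 2 → Matrix ι ι ℂ} {σ₂ : Fin 2 → Matrix κ κ ℂ}
    (h₁ : ∀ x, IsDensity (σ₁ x)) (h₂ : ∀ x, IsDensity (σ₂ x)) (α : ℝ)
    (hα : (0 < α ∧ α ≤ 2) ∨ (3 ≤ α ∧ α ≤ 4)) :
    cCoef α * (infoParam α (condH α (cqState σ₁)) * infoParam α (condH α (cqState σ₂))) ≤
      infoParam α (Hsum α σ₁ σ₂) := by
  have h0 : 0 < α := by
    rcases hα with h | h
    · exact h.1
    · linarith [h.1]
  have h4 : α ≤ 4 := by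
    rcases hα with h | h
    · linarith [h.2]
    · exact h.2
  have m₁ := infoParam_mem h₁ h0 h4
  have m₂ := infoParam_mem h₂ h0 h4
  have hy : 0 ≤ infoParam α (condH α (cqState σ₁)) * infoParam α (condH α (cqState σ₂)) :=
    mul_nonneg m₁.1 m₂.1
  have hx0 : 0 ≤ Real.sqrt (infoParam α (condH α (cqState σ₁)) *
      infoParam α (condH α (cqState σ₂))) := Real.sqrt_nonneg _
  have hx1 : Real.sqrt (infoParam α (condH α (cqState σ₁)) *
      infoParam α (condH α (cqState σ₂))) ≤ 1 :=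
    sqrt_le_one' (mul_le_one₀ m₁.2 m₂.1 m₂.2)
  by_cases h1 : α = 1
  · subst h1
    have p₁ := psdPair_state_one h₁
    have p₂ := psdPair_state_one h₂
    have key := one_univ p₁ (NN_rho h₁) p₂ (NN_rho h₂)
    rw [← infoParam_state_one h₁, ← infoParam_state_one h₂] at key
    have k2 := scalar_one hx0 hx1
    rw [Real.sq_sqrt hy] at k2
    have hl : 0 < Real.log 2 := Real.log_pos (by norm_num)
    rw [infoParam_Hsum_one h₁ h₂, cCoef, if_pos rfl, le_div_iff₀ hl]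
    refine le_trans (le_of_eq ?_) (k2.trans key)
    field_simp
  · have p₁ := psdPair_state h₁ h0
    have p₂ := psdPair_state h₂ h0
    have hN : NN α (Aop α σ₁) * NN α (Aop α σ₂) ≠ 0 := by
      rw [NN_Aop h₁ h0, NN_Aop h₂ h0]; norm_num
    have key := hom_univ_pos α hα h1 p₁ p₂ hN
    rw [XX_state h₁ h₂ h0 h1, NN_Aop h₁ h0, NN_Aop h₂ h0, one_mul, one_mul] at key
    have k2 := scalar_pos hα h1 hx0 hx1
    rw [Real.sq_sqrt hy] at k2
    have hC : α * (α - 1) / 2 ≠ 0 :=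
      div_ne_zero (mul_ne_zero h0.ne' (sub_ne_zero.2 h1)) two_ne_zero
    rw [infoParam_Hsum h₁ h₂ h0 h1, cCoef, if_neg h1]
    refine (mul_le_mul_of_nonneg_left (k2.trans key) (cCoef_pos h0 h1).le).trans (le_of_eq ?_)
    field_simp

theorem univ_x_neg {σ₁ : Fin 2 → Matrix ι ι ℂ} {σ₂ : Fin 2 → Matrix κ κ ℂ}
    (h₁ : ∀ x, IsDensity (σ₁ x)) (h₂ : ∀ x, IsDensity (σ₂ x)) (α : ℝ) (h2 : 2 ≤ α) (h3 : α ≤ 3) :
    infoParam α (Hsum α σ₁ σ₂) ≤
      cCoef α * (infoParam α (condH α (cqState σ₁)) * infoParam α (condH α (cqState σ₂))) := by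
  have h0 : 0 < α := by linarith
  have h4 : α ≤ 4 := by linarith
  have h1 : α ≠ 1 := by
    intro h
    linarith
  have m₁ := infoParam_mem h₁ h0 h4
  have m₂ := infoParam_mem h₂ h0 h4
  have hy : 0 ≤ infoParam α (condH α (cqState σ₁)) * infoParam α (condH α (cqState σ₂)) :=
    mul_nonneg m₁.1 m₂.1
  have hx0 : 0 ≤ Real.sqrt (infoParam α (condH α (cqState σ₁)) *
      infoParam α (condH α (cqState σ₂))) := Real.sqrt_nonneg _
  have hx1 : Real.sqrt (infoParam α (condH α (cqState σ₁)) *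
      infoParam α (condH α (cqState σ₂))) ≤ 1 :=
    sqrt_le_one' (mul_le_one₀ m₁.2 m₂.1 m₂.2)
  have p₁ := psdPair_state h₁ h0
  have p₂ := psdPair_state h₂ h0
  have hN : NN α (Aop α σ₁) * NN α (Aop α σ₂) ≠ 0 := by
    rw [NN_Aop h₁ h0, NN_Aop h₂ h0]; norm_num
  have key := hom_univ_neg α h2 h3 p₁ p₂ hN
  rw [XX_state h₁ h₂ h0 h1, NN_Aop h₁ h0, NN_Aop h₂ h0, one_mul, one_mul] at key
  have k2 := scalar_neg h2 h3 hx0 hx1
  rw [Real.sq_sqrt hy] at k2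
  have hL : 0 < (2 : ℝ) ^ (α - 1) - 1 := by
    have : (1 : ℝ) < 2 ^ (α - 1) := Real.one_lt_rpow (by norm_num) (by linarith)
    linarith
  rw [infoParam_Hsum h₁ h₂ h0 h1, cCoef, if_neg h1, div_le_iff₀ hL]
  refine (key.trans k2).trans (le_of_eq ?_)
  field_simp

end Pool.Agent.RN
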