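import Pool.Agent.Lib_helper88.RN.Univ

/-!
# The universal bound: positive semidefinite `A`, all `α ∈ (0,4]`
-/

open scoped BigOperators ComplexOrder Kronecker MatrixOrder Topology
open MeasureTheory Set Matrix Filter

namespace Pool.Agent.RN

open Pool.Agent.RC Pool.Agent.RC.T2B

variable {ι κ : Type} [Fintype ι] [DecidableEq ι] [Fintype κ] [DecidableEq κ]

theorem open_univ_pos (α : ℝ) (hα : (0 < α ∧ α < 2 ∧ α ≠ 1) ∨ (3 < α ∧ α < 4))
    {A₁ D₁ : Matrix ι ι ℂ} (h₁ : IsPair A₁ D₁) {A₂ D₂ : Matrix κ κ ℂ} (h₂ : IsPair A₂ D₂) :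
    NN α A₁ * NN α A₂ * (gs α (Real.sqrt (XX α A₁ D₁ A₂ D₂)) / (α * (α - 1) / 2)) ≤
      G α (A₁ ⊗ₖ A₂) (D₁ ⊗ₖ D₂) / (α * (α - 1) / 2) := by
  rcases hα with ⟨h0, h2, h1⟩ | ⟨h3, h4⟩
  · obtain ⟨c, hc, hex⟩ := expands02 α h0 h2 h1
    have hc0 : c ≠ 0 := by
      rintro rfl
      simp at hc
    have hb : ∀ m : ℕ, 0 < bet α (2 * (m + 1)) := fun m => bet_pos α _ h0 (by
      push_cast
      have : (0 : ℝ) ≤ m := Nat.cast_nonneg m
      linarith)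
    have hz := hex.zero h0 (by linarith)
    have hW : c * (bet α (2 * (0 + 1)) / (2 * (((0 : ℕ) : ℝ) + 1))) ≠ 0 := by
      have := hb 0
      positivity
    have key := univ_pos h0 (by linarith) hex hW (fun m => by
      show 0 ≤ c * (bet α (2 * (m + 1)) / (2 * ((m : ℝ) + 1))) /
        (c * (bet α (2 * (0 + 1)) / (2 * (((0 : ℕ) : ℝ) + 1))))
      rw [mul_div_mul_left _ _ hc0]
      have h5 := hb m
      have h6 := hb 0
      positivity) h₁ h₂ (T2_kron_ge02 α h0 h2.le A₁ D₁ A₂ D₂ h₁.pos h₁.herm h₂.pos h₂.herm)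
    rw [← hz]
    exact key
  · have h0 : 0 < α := by linarith
    obtain ⟨c, W, hc, hex, hW⟩ := expands24 α (by linarith) h4 (ne_of_gt h3)
    have hcpos : 0 < c := by
      rcases pos_and_pos_or_neg_and_neg_of_mul_pos hc with h | h
      · exact h.1
      · linarith [h.2]
    have hz := hex.zero h0 h4
    have hz0 : 0 < W 0 := by
      rw [hz]
      have : 0 < α - 1 := by linarith
      positivity
    have hb : ∀ m : ℕ, 0 < bet α (2 * (m + 2)) := fun m => bet_pos α _ h0 (by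
      push_cast
      have : (0 : ℝ) ≤ m := Nat.cast_nonneg m
      linarith)
    have key := univ_pos h0 h4 hex hz0.ne' (fun m => by
      rcases m with _ | m
      · rw [div_self hz0.ne']; exact zero_le_one
      · apply div_nonneg _ hz0.le
        rw [hW m]
        have h5 := hb m
        positivity) h₁ h₂ (T2_kron_ge α h3.le h4 A₁ D₁ A₂ D₂ h₁.pos h₁.herm h₂.pos h₂.herm)
    rw [← hz]
    exact key

theorem open_univ_neg (α : ℝ) (h2 : 2 < α) (h3 : α < 3)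
    {A₁ D₁ : Matrix ι ι ℂ} (h₁ : IsPair A₁ D₁) {A₂ D₂ : Matrix κ κ ℂ} (h₂ : IsPair A₂ D₂) :
    G α (A₁ ⊗ₖ A₂) (D₁ ⊗ₖ D₂) ≤
      NN α A₁ * NN α A₂ * gs α (Real.sqrt (XX α A₁ D₁ A₂ D₂)) := by
  have h0 : 0 < α := by linarith
  have h4 : α < 4 := by linarith
  obtain ⟨c, W, hc, hex, hW⟩ := expands24 α h2 h4 (ne_of_lt h3)
  have hcneg : c < 0 := by
    rcases pos_and_pos_or_neg_and_neg_of_mul_pos hc with h | h
    · linarith [h.2]
    · exact h.1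
  have hb : ∀ m : ℕ, 0 < bet α (2 * (m + 2)) := fun m => bet_pos α _ h0 (by
    push_cast
    have : (0 : ℝ) ≤ m := Nat.cast_nonneg m
    linarith)
  exact univ_neg h0 h4 (by linarith) hex (fun m => by
    rw [hW m]
    apply mul_nonpos_of_nonpos_of_nonneg hcneg.le
    have h5 := hb m
    positivity) h₁ h₂ (T2_kron_le α h2.le h3.le A₁ D₁ A₂ D₂ h₁.pos h₁.herm h₂.pos h₂.herm)

theorem continuous_gs {α : ℝ} (hα : 0 < α) : Continuous (gs α) := by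
  have h1 : Continuous fun x : ℝ => x ^ α := Real.continuous_rpow_const hα.le
  have h2 : Continuous fun t : ℝ => (1 + t) ^ α := h1.comp (continuous_const.add continuous_id)
  have h3 : Continuous fun t : ℝ => (1 - t) ^ α := h1.comp (continuous_const.sub continuous_id)
  exact ((h2.add h3).div_const 2).sub continuous_const

theorem tendsto_NN {α : ℝ} (hα : 0 < α) {A : Matrix ι ι ℂ} (hA : A.IsHermitian) :
    Tendsto (fun j => NN α (shift A j)) atTop (𝓝 (NN α A)) := by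
  have hf : Continuous fun x : ℝ => x ^ α := Real.continuous_rpow_const hα.le
  unfold NN
  refine tendsto_trF _ hf _ _ (fun j => ?_) hA (tendsto_shift A)
  unfold RC.shift
  exact hA.add (eps_posDef j).isHermitian

/-- `x₁ x₂` -/
noncomputable def YY (α : ℝ) (A₁ D₁ : Matrix ι ι ℂ) (A₂ D₂ : Matrix κ κ ℂ) : ℝ :=
  (G α A₁ D₁ / (2 ^ (α - 1) - 1)) * (G α A₂ D₂ / (2 ^ (α - 1) - 1))

theorem tendsto_gsXX {α : ℝ} (hα : 0 < α) {A₁ D₁ : Matrix ι ι ℂ} (h₁ : IsPsdPair A₁ D₁)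
    (hN₁ : NN α A₁ = 1) {A₂ D₂ : Matrix κ κ ℂ} (h₂ : IsPsdPair A₂ D₂) (hN₂ : NN α A₂ = 1) :
    Tendsto (fun j => gs α (Real.sqrt (XX α (shift A₁ j) D₁ (shift A₂ j) D₂))) atTop
      (𝓝 (gs α (Real.sqrt (YY α A₁ D₁ A₂ D₂)))) := by
  have hX : Tendsto (fun j => XX α (shift A₁ j) D₁ (shift A₂ j) D₂) atTop
      (𝓝 (YY α A₁ D₁ A₂ D₂)) := by
    have t1 := (tendsto_G_shift hα h₁.pos.1 h₁.herm).div_const ((2 : ℝ) ^ (α - 1) - 1)
    have t2 := (tendsto_G_shift hα h₂.pos.1 h₂.herm).div_const ((2 : ℝ) ^ (α - 1) - 1)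
    have t3 := (tendsto_NN hα h₁.pos.1).mul (tendsto_NN hα h₂.pos.1)
    have t4 := (t1.mul t2).div t3 (by rw [hN₁, hN₂]; norm_num)
    rw [hN₁, hN₂, mul_one, div_one] at t4
    exact t4
  have hc : Continuous fun x : ℝ => gs α (Real.sqrt x) :=
    (continuous_gs hα).comp Real.continuous_sqrt
  exact (hc.tendsto _).comp hX

theorem psd_univ_pos (α : ℝ) (hα : (0 < α ∧ α < 2 ∧ α ≠ 1) ∨ (3 < α ∧ α < 4))
    {A₁ D₁ : Matrix ι ι ℂ} (h₁ : IsPsdPair A₁ D₁) (hN₁ : NN α A₁ = 1)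
    {A₂ D₂ : Matrix κ κ ℂ} (h₂ : IsPsdPair A₂ D₂) (hN₂ : NN α A₂ = 1) :
    gs α (Real.sqrt (YY α A₁ D₁ A₂ D₂)) / (α * (α - 1) / 2) ≤
      G α (A₁ ⊗ₖ A₂) (D₁ ⊗ₖ D₂) / (α * (α - 1) / 2) := by
  have h0 : 0 < α := by
    rcases hα with h | h
    · exact h.1
    · linarith [h.1]
  have t12 := (tendsto_G_shift_kron h0 h₁.pos.1 h₁.herm h₂.pos.1 h₂.herm).div_const
    (α * (α - 1) / 2)
  have t3 := (tendsto_NN h0 h₁.pos.1).mul (tendsto_NN h0 h₂.pos.1)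
  rw [hN₁, hN₂, mul_one] at t3
  have t4 := t3.mul ((tendsto_gsXX h0 h₁ hN₁ h₂ hN₂).div_const (α * (α - 1) / 2))
  rw [one_mul] at t4
  apply le_of_tendsto_of_tendsto' t4 t12
  intro j
  exact open_univ_pos α hα (isPair_shift h₁.pos h₁.sub h₁.add j)
    (isPair_shift h₂.pos h₂.sub h₂.add j)

theorem psd_univ_neg (α : ℝ) (h2 : 2 < α) (h3 : α < 3)
    {A₁ D₁ : Matrix ι ι ℂ} (h₁ : IsPsdPair A₁ D₁) (hN₁ : NN α A₁ = 1)
    {A₂ D₂ : Matrix κ κ ℂ} (h₂ : IsPsdPair A₂ D₂) (hN₂ : NN α A₂ = 1) :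
    G α (A₁ ⊗ₖ A₂) (D₁ ⊗ₖ D₂) ≤ gs α (Real.sqrt (YY α A₁ D₁ A₂ D₂)) := by
  have h0 : 0 < α := by linarith
  have t12 := tendsto_G_shift_kron h0 h₁.pos.1 h₁.herm h₂.pos.1 h₂.herm
  have t3 := (tendsto_NN h0 h₁.pos.1).mul (tendsto_NN h0 h₂.pos.1)
  rw [hN₁, hN₂, mul_one] at t3
  have t4 := t3.mul (tendsto_gsXX h0 h₁ hN₁ h₂ hN₂)
  rw [one_mul] at t4
  apply le_of_tendsto_of_tendsto' t12 t4
  intro j
  exact open_univ_neg α h2 h3 (isPair_shift h₁.pos h₁.sub h₁.add j)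
    (isPair_shift h₂.pos h₂.sub h₂.add j)

end Pool.Agent.RN
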