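import Pool.Agent.Lib_helper88.RN.UnivEnd
import Pool.Agent.Lib_helper95.RC.State

/-!
# The universal bound: `α = 1` and the state level
-/

open scoped BigOperators ComplexOrder Kronecker MatrixOrder Topology
open MeasureTheory Set Matrix Filter

namespace Pool.Agent.RN

open Pool.Agent.RC Pool.Agent.RC.T2B Pool.Agent.Lib_helper98.Renyi

variable {ι κ : Type} [Fintype ι] [DecidableEq ι] [Fintype κ] [DecidableEq κ]

theorem rpow_ge_xlogx {α x : ℝ} (hα : α ≠ 0) (hx : 0 ≤ x) :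
    x + (α - 1) * (x * Real.log x) ≤ x ^ α := by
  rcases eq_or_lt_of_le hx with rfl | hx
  · rw [Real.zero_rpow hα]
    simp
  · have h1 : x ^ α = x * Real.exp ((α - 1) * Real.log x) := by
      rw [Real.rpow_def_of_pos hx]
      have : Real.log x * α = Real.log x + (α - 1) * Real.log x := by ring
      rw [this, Real.exp_add, Real.exp_log hx]
    rw [h1]
    have h2 := mul_le_mul_of_nonneg_left (Real.add_one_le_exp ((α - 1) * Real.log x)) hx.le
    linarith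

theorem gs_ge_gs1 {α s : ℝ} (hα : α ≠ 0) (h0 : 0 ≤ s) (h1 : s ≤ 1) :
    (α - 1) * gs1 s ≤ gs α s := by
  have k1 := rpow_ge_xlogx hα (by linarith : (0 : ℝ) ≤ 1 + s)
  have k2 := rpow_ge_xlogx hα (by linarith : (0 : ℝ) ≤ 1 - s)
  unfold gs gs1
  linarith

theorem continuous_gs1 : Continuous gs1 := by
  have h := Real.continuous_mul_log
  have h2 : Continuous fun t : ℝ => (1 + t) * Real.log (1 + t) :=
    h.comp (continuous_const.add continuous_id)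
  have h3 : Continuous fun t : ℝ => (1 - t) * Real.log (1 - t) :=
    h.comp (continuous_const.sub continuous_id)
  exact (h2.add h3).div_const 2

theorem tendsto_L_div : Tendsto (fun α : ℝ => ((2 : ℝ) ^ (α - 1) - 1) / (α - 1)) (𝓝[>] 1)
    (𝓝 (Real.log 2)) := by
  have h1 : HasDerivAt (fun α : ℝ => (2 : ℝ) ^ α) ((2 : ℝ) ^ (1 : ℝ) * Real.log 2) 1 := by
    have := (hasDerivAt_id (1 : ℝ)).const_rpow (by norm_num : (0 : ℝ) < 2)
    simpa [mul_comm] using this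
  have h3 : Tendsto (slope (fun α : ℝ => (2 : ℝ) ^ α) 1) (𝓝[>] 1)
      (𝓝 ((2 : ℝ) ^ (1 : ℝ) * Real.log 2)) :=
    h1.tendsto_slope.mono_left (nhdsWithin_mono _ fun y hy => ne_of_gt hy)
  have h4 := h3.const_mul (1 / 2)
  have e : 1 / 2 * ((2 : ℝ) ^ (1 : ℝ) * Real.log 2) = Real.log 2 := by
    rw [Real.rpow_one]; ring
  rw [e] at h4
  refine h4.congr fun α => ?_
  rw [slope_def_field, Real.rpow_one, Real.rpow_sub_one (by norm_num)]
  ring

theorem log_two_ne : Real.log 2 ≠ 0 := (Real.log_pos (by norm_num : (1 : ℝ) < 2)).ne'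

theorem tendsto_x_one {A D : Matrix ι ι ℂ} (h : IsPsdPair A D) :
    Tendsto (fun α => G α A D / ((2 : ℝ) ^ (α - 1) - 1)) (𝓝[>] 1)
      (𝓝 (G1 A D / Real.log 2)) := by
  have t := (tendsto_G1 A D h.pos h.sub h.add).div tendsto_L_div log_two_ne
  refine t.congr' ?_
  filter_upwards [self_mem_nhdsWithin] with α hα
  have : α - 1 ≠ 0 := sub_ne_zero.2 (ne_of_gt hα)
  show G α A D / (α - 1) / (((2 : ℝ) ^ (α - 1) - 1) / (α - 1)) = _
  rw [div_div_div_cancel_right₀ this]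

theorem tendsto_NN_one (A : Matrix ι ι ℂ) :
    Tendsto (fun α => NN α A) (𝓝[>] 1) (𝓝 (NN 1 A)) :=
  (tendsto_NN_exp A 1 one_pos).mono_left nhdsWithin_le_nhds

theorem one_bnd {A D : Matrix ι ι ℂ} (h : IsPsdPair A D) :
    0 ≤ G1 A D / Real.log 2 ∧ G1 A D / Real.log 2 ≤ NN 1 A := by
  have hev : ∀ᶠ α : ℝ in 𝓝[>] 1, α ∈ Ioo (1 : ℝ) 2 := Ioo_mem_nhdsGT (by norm_num)
  constructor
  · apply ge_of_tendsto (tendsto_x_one h)
    filter_upwards [hev] with α hα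
    exact (psd_bnd α (Or.inl ⟨by linarith [hα.1], hα.2, ne_of_gt hα.1⟩) h).1
  · apply le_of_tendsto_of_tendsto (tendsto_x_one h) (tendsto_NN_one A)
    filter_upwards [hev] with α hα
    exact (psd_bnd α (Or.inl ⟨by linarith [hα.1], hα.2, ne_of_gt hα.1⟩) h).2

/-- the universal bound at `α = 1` -/
theorem one_univ {A₁ D₁ : Matrix ι ι ℂ} (h₁ : IsPsdPair A₁ D₁) (hN₁ : NN 1 A₁ = 1)
    {A₂ D₂ : Matrix κ κ ℂ} (h₂ : IsPsdPair A₂ D₂) (hN₂ : NN 1 A₂ = 1) :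
    gs1 (Real.sqrt ((G1 A₁ D₁ / Real.log 2) * (G1 A₂ D₂ / Real.log 2))) ≤
      G1 (A₁ ⊗ₖ A₂) (D₁ ⊗ₖ D₂) := by
  have hk := h₁.kron h₂
  have tG := tendsto_G1 (A₁ ⊗ₖ A₂) (D₁ ⊗ₖ D₂) hk.pos hk.sub hk.add
  have tN := (tendsto_NN_one A₁).mul (tendsto_NN_one A₂)
  rw [hN₁, hN₂, mul_one] at tN
  have tX : Tendsto (fun α => XX α A₁ D₁ A₂ D₂) (𝓝[>] 1)
      (𝓝 ((G1 A₁ D₁ / Real.log 2) * (G1 A₂ D₂ / Real.log 2))) := by
    have := ((tendsto_x_one h₁).mul (tendsto_x_one h₂)).div tN one_ne_zero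
    rw [div_one] at this
    exact this
  have hc : Continuous fun x : ℝ => gs1 (Real.sqrt x) :=
    continuous_gs1.comp Real.continuous_sqrt
  have tL := tN.mul ((hc.tendsto _).comp tX)
  rw [one_mul] at tL
  apply le_of_tendsto_of_tendsto tL tG
  have hev : ∀ᶠ α : ℝ in 𝓝[>] 1, α ∈ Ioo (1 : ℝ) 2 := Ioo_mem_nhdsGT (by norm_num)
  have hev2 : ∀ᶠ α : ℝ in 𝓝[>] 1, 1 / 2 < NN α A₁ * NN α A₂ :=
    tN.eventually (lt_mem_nhds (by norm_num))
  filter_upwards [hev, hev2] with α hα hN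
  have ha : (0 < α ∧ α < 2 ∧ α ≠ 1) := ⟨by linarith [hα.1], hα.2, ne_of_gt hα.1⟩
  have hN0 : 0 < NN α A₁ * NN α A₂ := by linarith
  have key := hom_univ_pos α (Or.inl ⟨ha.1, ha.2.1.le⟩) ha.2.2 h₁ h₂ hN0.ne'
  obtain ⟨a1, a2⟩ := psd_bnd α (Or.inl ha) h₁
  obtain ⟨b1, b2⟩ := psd_bnd α (Or.inl ha) h₂
  have hX1 : XX α A₁ D₁ A₂ D₂ ≤ 1 := by
    unfold XX
    exact div_le_one_of_le₀ (mul_le_mul a2 b2 b1 (a1.trans a2)) hN0.le
  have h5 := gs_ge_gs1 (α := α) (s := Real.sqrt (XX α A₁ D₁ A₂ D₂)) ha.1.ne'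
    (Real.sqrt_nonneg _) (sqrt_le_one' hX1)
  have h6 : 0 < α - 1 := by linarith [hα.1]
  have h7 : 0 < α * (α - 1) / 2 := by
    have := ha.1
    positivity
  rw [← mul_div_assoc, div_le_div_iff_of_pos_right h7] at key
  show NN α A₁ * NN α A₂ * gs1 (Real.sqrt (XX α A₁ D₁ A₂ D₂)) ≤
    G α (A₁ ⊗ₖ A₂) (D₁ ⊗ₖ D₂) / (α - 1)
  rw [le_div_iff₀ h6]
  calc NN α A₁ * NN α A₂ * gs1 (Real.sqrt (XX α A₁ D₁ A₂ D₂)) * (α - 1)
      = NN α A₁ * NN α A₂ * ((α - 1) * gs1 (Real.sqrt (XX α A₁ D₁ A₂ D₂))) := by ring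
    _ ≤ NN α A₁ * NN α A₂ * gs α (Real.sqrt (XX α A₁ D₁ A₂ D₂)) :=
        mul_le_mul_of_nonneg_left h5 hN0.le
    _ ≤ _ := key

/-! ### definitions of the result -/

/-- The normalised information `x(H)` of a bit with conditional entropy `H` (order `α`):
`x = (K - δ)/(1 - δ)` with `K = exp((1-α)H)`, `δ = 2^(1-α)`, and `x = (log 2 - H)/log 2` at
`α = 1`. It is `0` for `H = log 2` and `1` for `H = 0`. The bit sent through an erasure channel
with erasure probability `1 - x` has entropy `H`. -/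
noncomputable def infoParam (α H : ℝ) : ℝ :=
  if α = 1 then (Real.log 2 - H) / Real.log 2
  else (Kof α H - (2 : ℝ) ^ (1 - α)) / (1 - (2 : ℝ) ^ (1 - α))

/-- The binary Renyi entropy `h_α(p)`; Shannon entropy (natural logarithm) at `α = 1`. -/
noncomputable def binRenyi (α p : ℝ) : ℝ :=
  if α = 1 then Real.binEntropy p
  else 1 / (1 - α) * Real.log (p ^ α + (1 - p) ^ α)

theorem delta_eq (α : ℝ) : (2 : ℝ) ^ (α - 1) = ((2 : ℝ) ^ (1 - α))⁻¹ := by
  rw [← Real.rpow_neg (by norm_num)]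
  congr 1
  ring

theorem infoParam_of_K {α H g : ℝ} (h1 : α ≠ 1) (hK : Kof α H = 2 ^ (1 - α) * (1 + g)) :
    infoParam α H = g / (2 ^ (α - 1) - 1) := by
  have hL := L_ne_zero h1
  rw [infoParam, if_neg h1, hK, delta_eq]
  rw [delta_eq] at hL
  have hd : (2 : ℝ) ^ (1 - α) ≠ 0 := (Real.rpow_pos_of_pos (by norm_num) _).ne'
  generalize (2 : ℝ) ^ (1 - α) = δ at *
  have h2 : δ⁻¹ - 1 = (1 - δ) / δ := by field_simp
  rw [h2] at hL ⊢
  have h3 : 1 - δ ≠ 0 := fun h => hL (by rw [h, zero_div])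
  field_simp
  ring

theorem binRenyi_eq {α s : ℝ} (h1 : α ≠ 1) (hs : 0 ≤ s) (hs1 : s ≤ 1) :
    binRenyi α ((1 - s) / 2) = 1 / (1 - α) * Real.log (2 ^ (1 - α) * (1 + gs α s)) := by
  have e1 : 1 - (1 - s) / 2 = (1 + s) / 2 := by ring
  have e2 : (2 : ℝ) ^ (1 - α) = 2 / 2 ^ α := by
    rw [Real.rpow_sub (by norm_num), Real.rpow_one]
  have hp : (2 : ℝ) ^ α ≠ 0 := (Real.rpow_pos_of_pos (by norm_num) _).ne'
  rw [binRenyi, if_neg h1, e1, Real.div_rpow (by linarith) (by norm_num),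
    Real.div_rpow (by linarith) (by norm_num), e2]
  congr 2
  unfold gs
  field_simp
  ring

theorem one_add_gs_pos {α s : ℝ} (hs : 0 ≤ s) (hs1 : s ≤ 1) : 0 < 1 + gs α s := by
  have h1 : 0 < (1 + s) ^ α := Real.rpow_pos_of_pos (by linarith) _
  have h2 : 0 ≤ (1 - s) ^ α := Real.rpow_nonneg (by linarith) _
  unfold gs
  linarith

theorem binEntropy_eq {s : ℝ} (hs : 0 ≤ s) (hs1 : s ≤ 1) :
    Real.binEntropy ((1 - s) / 2) = Real.log 2 - gs1 s := by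
  have e1 : 1 - (1 - s) / 2 = (1 + s) / 2 := by ring
  have hp : (1 + s) ≠ 0 := by linarith
  rw [Real.binEntropy, e1, Real.log_inv, Real.log_inv, Real.log_div hp two_ne_zero]
  rcases eq_or_lt_of_le hs1 with h | h
  · subst h
    unfold gs1
    norm_num
  · rw [Real.log_div (by linarith) two_ne_zero]
    unfold gs1
    ring

theorem NN_Aop {σ : Fin 2 → Matrix ι ι ℂ} (h : ∀ x, IsDensity (σ x)) {α : ℝ} (hα : 0 < α) :
    NN α (Aop α σ) = 1 := by
  unfold NN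
  rw [trF_rpow_eq_trPow hα (Aop_posSemidef h α).1, trPow_Aop h hα]

theorem NN_rho {σ : Fin 2 → Matrix ι ι ℂ} (h : ∀ x, IsDensity (σ x)) :
    NN 1 (rhoOf σ) = 1 := by
  unfold NN
  rw [trF_rpow_eq_trPow one_pos (rhoOf_posSemidef h).1, trPow, mpow_one (rhoOf_posSemidef h),
    rhoOf_trace h]
  simp

theorem infoParam_state {σ : Fin 2 → Matrix ι ι ℂ} (h : ∀ x, IsDensity (σ x)) {α : ℝ}
    (hα : 0 < α) (h1 : α ≠ 1) : infoParam α (condH α (cqState σ)) =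
      G α (Aop α σ) (Dop α σ) / (2 ^ (α - 1) - 1) := by
  rw [← (psdPair_state h hα).Gfun_eq hα]
  exact infoParam_of_K h1 (Kof_condH h hα h1)

theorem infoParam_state_one {σ : Fin 2 → Matrix ι ι ℂ} (h : ∀ x, IsDensity (σ x)) :
    infoParam 1 (condH 1 (cqState σ)) = G1 (rhoOf σ) (delOf σ) / Real.log 2 := by
  rw [infoParam, if_pos rfl, condH_one h, (psdPair_state_one h).GfunOne_eq]
  ring

/-- the parameter lies in `[0,1]` -/
theorem infoParam_mem {σ : Fin 2 → Matrix ι ι ℂ} (h : ∀ x, IsDensity (σ x)) {α : ℝ}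
    (hα : 0 < α) (h4 : α ≤ 4) : infoParam α (condH α (cqState σ)) ∈ Icc (0 : ℝ) 1 := by
  by_cases h1 : α = 1
  · subst h1
    rw [infoParam_state_one h]
    have := one_bnd (psdPair_state_one h)
    rw [NN_rho h] at this
    exact this
  · rw [infoParam_state h hα h1]
    have := psd_bnd' α hα h4 h1 (psdPair_state h hα)
    rw [NN_Aop h hα] at this
    exact this

theorem XX_state {σ₁ : Fin 2 → Matrix ι ι ℂ} {σ₂ : Fin 2 → Matrix κ κ ℂ}
    (h₁ : ∀ x, IsDensity (σ₁ x)) (h₂ : ∀ x, IsDensity (σ₂ x)) {α : ℝ} (hα : 0 < α)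
    (h1 : α ≠ 1) : XX α (Aop α σ₁) (Dop α σ₁) (Aop α σ₂) (Dop α σ₂) =
      infoParam α (condH α (cqState σ₁)) * infoParam α (condH α (cqState σ₂)) := by
  rw [infoParam_state h₁ hα h1, infoParam_state h₂ hα h1]
  unfold XX
  rw [NN_Aop h₁ hα, NN_Aop h₂ hα, mul_one, div_one]

theorem univ_le {σ₁ : Fin 2 → Matrix ι ι ℂ} {σ₂ : Fin 2 → Matrix κ κ ℂ}
    (h₁ : ∀ x, IsDensity (σ₁ x)) (h₂ : ∀ x, IsDensity (σ₂ x)) (α : ℝ)
    (hα : (0 < α ∧ α ≤ 2) ∨ (3 ≤ α ∧ α ≤ 4)) :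
    Hsum α σ₁ σ₂ ≤ binRenyi α ((1 - Real.sqrt (infoParam α (condH α (cqState σ₁)) *
      infoParam α (condH α (cqState σ₂)))) / 2) := by
  have h0 : 0 < α := by
    rcases hα with h | h
    · exact h.1
    · linarith [h.1]
  have h4 : α ≤ 4 := by
    rcases hα with h | h
    · linarith [h.2]
    · exact h.2
  have m₁ := infoParam_mem h₁ h0 h4
  have m₂ := infoParam_mem h₂ h0 h4
  have hx0 : 0 ≤ Real.sqrt (infoParam α (condH α (cqState σ₁)) *
      infoParam α (condH α (cqState σ₂))) := Real.sqrt_nonneg _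
  have hx1 : Real.sqrt (infoParam α (condH α (cqState σ₁)) *
      infoParam α (condH α (cqState σ₂))) ≤ 1 :=
    sqrt_le_one' (mul_le_one₀ m₁.2 m₂.1 m₂.2)
  by_cases h1 : α = 1
  · subst h1
    have p₁ := psdPair_state_one h₁
    have p₂ := psdPair_state_one h₂
    have key := one_univ p₁ (NN_rho h₁) p₂ (NN_rho h₂)
    rw [← infoParam_state_one h₁, ← infoParam_state_one h₂] at key
    rw [binRenyi, if_pos rfl, binEntropy_eq hx0 hx1, Hsum, traceMid_tau,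
      condH_one (isDensity_sumState h₁ h₂), rhoOf_sumState, delOf_sumState,
      (p₁.kron p₂).GfunOne_eq]
    linarith
  · have p₁ := psdPair_state h₁ h0
    have p₂ := psdPair_state h₂ h0
    have hN : NN α (Aop α σ₁) * NN α (Aop α σ₂) ≠ 0 := by
      rw [NN_Aop h₁ h0, NN_Aop h₂ h0]; norm_num
    have key := hom_univ_pos α hα h1 p₁ p₂ hN
    rw [XX_state h₁ h₂ h0 h1, NN_Aop h₁ h0, NN_Aop h₂ h0, one_mul, one_mul] at key
    rw [binRenyi_eq h1 hx0 hx1, Hsum_eq h₁ h₂ h0 h1, (p₁.kron p₂).Gfun_eq h0]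
    have hp := one_add_G12_pos h₁ h₂ h0
    rw [(p₁.kron p₂).Gfun_eq h0] at hp
    have hd : 0 < (2 : ℝ) ^ (1 - α) := Real.rpow_pos_of_pos (by norm_num) _
    have hg := one_add_gs_pos (α := α) hx0 hx1
    rcases lt_or_gt_of_ne h1 with hlt | hgt
    · have hC : α * (α - 1) / 2 < 0 := by nlinarith
      rw [div_le_div_right_of_neg hC] at key
      refine mul_le_mul_of_nonneg_left ?_ (one_div_nonneg.2 (by linarith))
      exact Real.log_le_log (mul_pos hd hp) (mul_le_mul_of_nonneg_left (by linarith) hd.le)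
    · have hC : 0 < α * (α - 1) / 2 := by
        have : 0 < α - 1 := by linarith
        positivity
      rw [div_le_div_iff_of_pos_right hC] at key
      refine mul_le_mul_of_nonpos_left ?_ (one_div_nonpos.2 (by linarith))
      exact Real.log_le_log (mul_pos hd hg) (mul_le_mul_of_nonneg_left (by linarith) hd.le)

theorem univ_ge {σ₁ : Fin 2 → Matrix ι ι ℂ} {σ₂ : Fin 2 → Matrix κ κ ℂ}
    (h₁ : ∀ x, IsDensity (σ₁ x)) (h₂ : ∀ x, IsDensity (σ₂ x)) (α : ℝ) (h2 : 2 ≤ α) (h3 : α ≤ 3) :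
    binRenyi α ((1 - Real.sqrt (infoParam α (condH α (cqState σ₁)) *
      infoParam α (condH α (cqState σ₂)))) / 2) ≤ Hsum α σ₁ σ₂ := by
  have h0 : 0 < α := by linarith
  have h4 : α ≤ 4 := by linarith
  have h1 : α ≠ 1 := by
    intro h
    linarith
  have m₁ := infoParam_mem h₁ h0 h4
  have m₂ := infoParam_mem h₂ h0 h4
  have hx0 : 0 ≤ Real.sqrt (infoParam α (condH α (cqState σ₁)) *
      infoParam α (condH α (cqState σ₂))) := Real.sqrt_nonneg _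
  have hx1 : Real.sqrt (infoParam α (condH α (cqState σ₁)) *
      infoParam α (condH α (cqState σ₂))) ≤ 1 :=
    sqrt_le_one' (mul_le_one₀ m₁.2 m₂.1 m₂.2)
  have p₁ := psdPair_state h₁ h0
  have p₂ := psdPair_state h₂ h0
  have hN : NN α (Aop α σ₁) * NN α (Aop α σ₂) ≠ 0 := by
    rw [NN_Aop h₁ h0, NN_Aop h₂ h0]; norm_num
  have key := hom_univ_neg α h2 h3 p₁ p₂ hN
  rw [XX_state h₁ h₂ h0 h1, NN_Aop h₁ h0, NN_Aop h₂ h0, one_mul, one_mul] at key
  rw [binRenyi_eq h1 hx0 hx1, Hsum_eq h₁ h₂ h0 h1, (p₁.kron p₂).Gfun_eq h0]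
  have hp := one_add_G12_pos h₁ h₂ h0
  rw [(p₁.kron p₂).Gfun_eq h0] at hp
  have hd : 0 < (2 : ℝ) ^ (1 - α) := Real.rpow_pos_of_pos (by norm_num) _
  refine mul_le_mul_of_nonpos_left ?_ (one_div_nonpos.2 (by linarith))
  exact Real.log_le_log (mul_pos hd hp) (mul_le_mul_of_nonneg_left (by linarith) hd.le)

end Pool.Agent.RN
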