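import Pool.Agent.Lib_helper88.RN.Kern
import Pool.Agent.Lib_helper95.RC.Final24

/-!
# Noisy states: homogeneity, the scalar pair `(1, t)`, normalised series
-/

open scoped BigOperators ComplexOrder Kronecker MatrixOrder Topology
open MeasureTheory Set Matrix Filter

namespace Pool.Agent.RN

open Pool.Agent.RC

variable {ι κ : Type} [Fintype ι] [DecidableEq ι] [Fintype κ] [DecidableEq κ]

theorem tn_smul (A D : Matrix ι ι ℂ) (t : ℝ) (n : ℕ) (r : ℝ) :
    tn A ((t : ℂ) • D) n r = t ^ n * tn A D n r := by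
  unfold tn
  rw [Matrix.mul_smul, smul_pow, Matrix.trace_smul, smul_eq_mul, ← Complex.ofReal_pow,
    Complex.re_ofReal_mul]

theorem In_smul (α : ℝ) (A D : Matrix ι ι ℂ) (t : ℝ) (n : ℕ) :
    In α A ((t : ℂ) • D) n = t ^ n * In α A D n := by
  unfold In
  rw [← integral_const_mul]
  congr 1
  funext r
  rw [tn_smul]
  ring

theorem j2_smul (A D : Matrix ι ι ℂ) (t : ℝ) (r : ℝ) :
    j2 A ((t : ℂ) • D) r = t ^ 2 * j2 A D r := by
  unfold j2
  simp only [Matrix.mul_smul, Matrix.smul_mul, Matrix.trace_smul, smul_eq_mul, ← mul_assoc]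
  rw [← Complex.ofReal_mul, Complex.re_ofReal_mul, Complex.re_ofReal_mul]
  ring

theorem T2_smul (α : ℝ) (A D : Matrix ι ι ℂ) (t : ℝ) :
    T2 α A ((t : ℂ) • D) = t ^ 2 * T2 α A D := by
  unfold T2
  rw [← mul_div_assoc, ← integral_const_mul]
  congr 2
  funext r
  rw [j2_smul]
  ring

theorem Ts_smul (α : ℝ) (A D : Matrix ι ι ℂ) (t : ℝ) (m : ℕ) :
    Ts α A ((t : ℂ) • D) m = t ^ (2 * (m + 1)) * Ts α A D m := by
  rcases m with _ | m
  · exact T2_smul α A D t
  · show In α A ((t : ℂ) • D) (2 * (m + 2)) / bet α (2 * (m + 2)) =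
      t ^ (2 * (m + 1 + 1)) * (In α A D (2 * (m + 2)) / bet α (2 * (m + 2)))
    rw [In_smul, mul_div_assoc]

theorem Ts_nonneg (α : ℝ) (h0 : 0 < α) (h4 : α < 4) (A D : Matrix ι ι ℂ) (h : IsPair A D) (m : ℕ) :
    0 ≤ Ts α A D m := by
  have h1 : ∀ m, 0 ≤ Ts α A D (m + 1) := by
    intro m
    have hα : α < ((2 * (m + 2) : ℕ) : ℝ) := by
      push_cast
      have : (0 : ℝ) ≤ m := Nat.cast_nonneg m
      linarith
    show 0 ≤ In α A D (2 * (m + 2)) / bet α (2 * (m + 2))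
    apply div_nonneg _ (bet_pos α _ h0 hα).le
    unfold In
    apply setIntegral_nonneg measurableSet_Ioi
    intro r hr
    have hr0 : (0 : ℝ) < r := hr
    exact mul_nonneg (by positivity) (DEC.tn_nonneg' h hr0.le (even_two_mul _))
  rcases m with _ | m
  · exact (h1 0).trans (Ts_anti α h0 h4 A D h (Nat.zero_le 1))
  · exact h1 m

/-- `D` is at most `d` times `A` -/
structure Noise (A D : Matrix ι ι ℂ) (d : ℝ) : Prop where
  pos : A.PosDef
  sub : ((d : ℂ) • A - D).PosSemidef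
  add : ((d : ℂ) • A + D).PosSemidef

theorem psd_smul_real {M : Matrix ι ι ℂ} (h : M.PosSemidef) {c : ℝ} (hc : 0 ≤ c) :
    ((c : ℂ) • M).PosSemidef := by
  apply Matrix.PosSemidef.smul h
  exact_mod_cast hc

theorem Noise.scaled {A D : Matrix ι ι ℂ} {d : ℝ} (h : Noise A D d) (hd : 0 < d) :
    IsPair A (((d⁻¹ : ℝ) : ℂ) • D) where
  pos := h.pos
  sub := by
    have h1 := psd_smul_real h.sub (inv_nonneg.2 hd.le)
    have h2 : ((d⁻¹ : ℝ) : ℂ) • ((d : ℂ) • A - D) = A - ((d⁻¹ : ℝ) : ℂ) • D := by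
      rw [smul_sub, smul_smul, ← Complex.ofReal_mul, inv_mul_cancel₀ hd.ne', Complex.ofReal_one,
        one_smul]
    rwa [h2] at h1
  add := by
    have h1 := psd_smul_real h.add (inv_nonneg.2 hd.le)
    have h2 : ((d⁻¹ : ℝ) : ℂ) • ((d : ℂ) • A + D) = A + ((d⁻¹ : ℝ) : ℂ) • D := by
      rw [smul_add, smul_smul, ← Complex.ofReal_mul, inv_mul_cancel₀ hd.ne', Complex.ofReal_one,
        one_smul]
    rwa [h2] at h1

theorem Noise.isPair {A D : Matrix ι ι ℂ} {d : ℝ} (h : Noise A D d) (hd : d ≤ 1) : IsPair A D where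
  pos := h.pos
  sub := by
    have h1 := h.sub.add (psd_smul_real h.pos.posSemidef (sub_nonneg.2 hd))
    have h2 : (d : ℂ) • A - D + ((1 - d : ℝ) : ℂ) • A = A - D := by
      rw [Complex.ofReal_sub, Complex.ofReal_one, sub_smul, one_smul]
      abel
    rwa [h2] at h1
  add := by
    have h1 := h.add.add (psd_smul_real h.pos.posSemidef (sub_nonneg.2 hd))
    have h2 : (d : ℂ) • A + D + ((1 - d : ℝ) : ℂ) • A = A + D := by
      rw [Complex.ofReal_sub, Complex.ofReal_one, sub_smul, one_smul]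
      abel
    rwa [h2] at h1

/-- decay of the normalised coefficients of a noisy pair -/
theorem Ts_noise (α : ℝ) (h0 : 0 < α) (h4 : α < 4) {A D : Matrix ι ι ℂ} {d : ℝ} (hd : 0 < d)
    (h : Noise A D d) (m : ℕ) : Ts α A D m ≤ d ^ (2 * m) * Ts α A D 0 := by
  set D' := ((d⁻¹ : ℝ) : ℂ) • D with hD'
  have e : D = (d : ℂ) • D' := by
    rw [hD', smul_smul, ← Complex.ofReal_mul, mul_inv_cancel₀ hd.ne', Complex.ofReal_one, one_smul]
  have h1 : Ts α A D m = d ^ (2 * (m + 1)) * Ts α A D' m := by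
    conv_lhs => rw [e]
    exact Ts_smul α A D' d m
  have h2 : Ts α A D 0 = d ^ (2 * (0 + 1)) * Ts α A D' 0 := by
    conv_lhs => rw [e]
    exact Ts_smul α A D' d 0
  have h3 := Ts_anti α h0 h4 A D' (h.scaled hd) (Nat.zero_le m)
  rw [h1, h2]
  calc d ^ (2 * (m + 1)) * Ts α A D' m ≤ d ^ (2 * (m + 1)) * Ts α A D' 0 := by gcongr
    _ = d ^ (2 * m) * (d ^ (2 * (0 + 1)) * Ts α A D' 0) := by ring

/-! ### the scalar pair -/

/-- `½((1+t)^α + (1-t)^α) - 1` -/
noncomputable def gs (α t : ℝ) : ℝ := ((1 + t) ^ α + (1 - t) ^ α) / 2 - 1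

theorem psd_unit {c : ℝ} (hc : 0 ≤ c) : ((c : ℂ) • (1 : Matrix Unit Unit ℂ)).PosSemidef :=
  psd_smul_real Matrix.PosSemidef.one hc

theorem noise_unit {t d : ℝ} (h0 : 0 ≤ t) (h1 : t ≤ d) :
    Noise (1 : Matrix Unit Unit ℂ) ((t : ℂ) • 1) d where
  pos := Matrix.PosDef.one
  sub := by
    rw [← sub_smul, ← Complex.ofReal_sub]
    exact psd_unit (sub_nonneg.2 h1)
  add := by
    rw [← add_smul, ← Complex.ofReal_add]
    exact psd_unit (by linarith)

theorem trF_unit (f : ℝ → ℝ) (c : ℝ) : trF f ((c : ℂ) • (1 : Matrix Unit Unit ℂ)) = f c := by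
  have hh : ((c : ℂ) • (1 : Matrix Unit Unit ℂ)).IsHermitian := by
    rw [dg_smul_one]
    exact dg_isHermitian _
  unfold trF
  rw [dif_pos hh]
  have h1 := hh.trace_eq_sum_eigenvalues
  rw [Matrix.trace_smul, Matrix.trace_one] at h1
  simp only [Fintype.card_unique, Nat.cast_one, smul_eq_mul, mul_one, Finset.univ_unique,
    Finset.sum_singleton] at h1
  rw [Finset.univ_unique, Finset.sum_singleton]
  have h2 : ((c : ℝ) : ℂ) = ((hh.eigenvalues default : ℝ) : ℂ) := h1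
  exact congrArg f (Complex.ofReal_inj.1 h2).symm

theorem G_unit (α t : ℝ) : G α (1 : Matrix Unit Unit ℂ) ((t : ℂ) • 1) = gs α t := by
  have e1 : (1 : Matrix Unit Unit ℂ) + (t : ℂ) • 1 = ((1 + t : ℝ) : ℂ) • 1 := by
    rw [Complex.ofReal_add, Complex.ofReal_one, add_smul, one_smul]
  have e2 : (1 : Matrix Unit Unit ℂ) - (t : ℂ) • 1 = ((1 - t : ℝ) : ℂ) • 1 := by
    rw [Complex.ofReal_sub, Complex.ofReal_one, sub_smul, one_smul]
  have e3 : trF (fun x => x ^ α) (1 : Matrix Unit Unit ℂ) = 1 := by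
    have := trF_unit (fun x => x ^ α) 1
    simpa using this
  unfold G gs
  rw [e1, e2, trF_unit, trF_unit, e3]

theorem G1_unit (t : ℝ) : G1 (1 : Matrix Unit Unit ℂ) ((t : ℂ) • 1) =
    ((1 + t) * Real.log (1 + t) + (1 - t) * Real.log (1 - t)) / 2 := by
  have e1 : (1 : Matrix Unit Unit ℂ) + (t : ℂ) • 1 = ((1 + t : ℝ) : ℂ) • 1 := by
    rw [Complex.ofReal_add, Complex.ofReal_one, add_smul, one_smul]
  have e2 : (1 : Matrix Unit Unit ℂ) - (t : ℂ) • 1 = ((1 - t : ℝ) : ℂ) • 1 := by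
    rw [Complex.ofReal_sub, Complex.ofReal_one, sub_smul, one_smul]
  have e3 : trF (fun x => x * Real.log x) (1 : Matrix Unit Unit ℂ) = 0 := by
    have := trF_unit (fun x => x * Real.log x) 1
    simpa using this
  unfold G1
  rw [e1, e2, trF_unit, trF_unit, e3, sub_zero]

theorem Ts_unit (α : ℝ) (h0 : 0 < α) (h4 : α < 4) (t : ℝ) (m : ℕ) :
    Ts α (1 : Matrix Unit Unit ℂ) ((t : ℂ) • 1) m = t ^ (2 * (m + 1)) := by
  rw [Ts_smul]
  rcases m with _ | m
  · show t ^ (2 * (0 + 1)) * T2 α (1 : Matrix Unit Unit ℂ) 1 = _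
    rw [T2_one α h0 h4, mul_one]
  · show t ^ (2 * (m + 1 + 1)) * (In α (1 : Matrix Unit Unit ℂ) 1 (2 * (m + 2)) /
      bet α (2 * (m + 2))) = _
    have hα : α < ((2 * (m + 2) : ℕ) : ℝ) := by
      push_cast
      have : (0 : ℝ) ≤ m := Nat.cast_nonneg m
      linarith
    rw [In_one, div_self (bet_pos α _ h0 hα).ne', mul_one]

/-- second order of `gs` at `0` -/
theorem tendsto_gs (α : ℝ) :
    Tendsto (fun t : ℝ => gs α t / t ^ 2) (𝓝[>] 0) (𝓝 (α * (α - 1) / 2)) := by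
  have hd : ∀ t ∈ Ioo (0 : ℝ) 1, HasDerivAt (gs α)
      ((α * (1 + t) ^ (α - 1) - α * (1 - t) ^ (α - 1)) / 2) t := by
    intro t ht
    have h1 : HasDerivAt (fun s : ℝ => (1 + s) ^ α) (1 * α * (1 + t) ^ (α - 1)) t := by
      have h2 : HasDerivAt (fun s : ℝ => 1 + s) 1 t := (hasDerivAt_id t).const_add 1
      exact h2.rpow_const (Or.inl (by linarith [ht.1]))
    have h3 : HasDerivAt (fun s : ℝ => (1 - s) ^ α) (-1 * α * (1 - t) ^ (α - 1)) t := by
      have h2 : HasDerivAt (fun s : ℝ => 1 - s) (-1) t := (hasDerivAt_id t).const_sub 1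
      exact h2.rpow_const (Or.inl (by linarith [ht.2]))
    have h4 := ((h1.add h3).div_const 2).sub_const 1
    have e : (α * (1 + t) ^ (α - 1) - α * (1 - t) ^ (α - 1)) / 2 =
        (1 * α * (1 + t) ^ (α - 1) + -1 * α * (1 - t) ^ (α - 1)) / 2 := by ring
    rw [e]
    exact h4
  have hd2 : ∀ t ∈ Ioo (0 : ℝ) 1, HasDerivAt (fun t : ℝ => t ^ 2) (2 * t) t := by
    intro t _
    simpa using hasDerivAt_pow 2 t
  have hder0 : HasDerivAt (fun t : ℝ => (α * (1 + t) ^ (α - 1) - α * (1 - t) ^ (α - 1)) / 2)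
      (α * (α - 1)) 0 := by
    have h1 : HasDerivAt (fun s : ℝ => (1 + s) ^ (α - 1)) (1 * (α - 1) * (1 + 0) ^ (α - 1 - 1)) 0 := by
      have h2 : HasDerivAt (fun s : ℝ => 1 + s) 1 0 := (hasDerivAt_id (0 : ℝ)).const_add 1
      exact h2.rpow_const (Or.inl (by norm_num))
    have h3 : HasDerivAt (fun s : ℝ => (1 - s) ^ (α - 1))
        (-1 * (α - 1) * (1 - 0) ^ (α - 1 - 1)) 0 := by
      have h2 : HasDerivAt (fun s : ℝ => 1 - s) (-1) 0 := (hasDerivAt_id (0 : ℝ)).const_sub 1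
      exact h2.rpow_const (Or.inl (by norm_num))
    have h4 := ((h1.const_mul α).sub (h3.const_mul α)).div_const 2
    have e : α * (α - 1) = (α * (1 * (α - 1) * (1 + 0) ^ (α - 1 - 1)) -
        α * (-1 * (α - 1) * (1 - 0) ^ (α - 1 - 1))) / 2 := by
      simp only [add_zero, sub_zero, Real.one_rpow]
      ring
    rw [e]
    exact h4
  have hq : Tendsto (fun t : ℝ => ((α * (1 + t) ^ (α - 1) - α * (1 - t) ^ (α - 1)) / 2) / (2 * t))
      (𝓝[>] 0) (𝓝 (α * (α - 1) / 2)) := by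
    have h1 := (hder0.tendsto_slope).mono_left
      (nhdsWithin_mono (0 : ℝ) (fun y (hy : y ∈ Ioi (0 : ℝ)) => ne_of_gt hy))
    have h2 := h1.div_const 2
    refine h2.congr fun t => ?_
    rw [slope_def_field]
    simp only [add_zero, sub_zero, Real.one_rpow, mul_one, sub_self, zero_div]
    rw [div_div, mul_comm t 2]
  refine HasDerivAt.lhopital_zero_right_on_Ioo (zero_lt_one) hd hd2 ?_ ?_ ?_ hq
  · intro t ht
    have := ht.1
    positivity
  · have h1 : ContinuousAt (gs α) 0 := by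
      unfold gs
      have c1 : ContinuousAt (fun t : ℝ => (1 + t) ^ α) 0 :=
        ContinuousAt.rpow_const (by fun_prop) (Or.inl (by norm_num))
      have c2 : ContinuousAt (fun t : ℝ => (1 - t) ^ α) 0 :=
        ContinuousAt.rpow_const (by fun_prop) (Or.inl (by norm_num))
      exact ((c1.add c2).div_const 2).sub continuousAt_const
    have h2 : gs α 0 = 0 := by
      unfold gs
      simp
    have h3 : Tendsto (gs α) (𝓝 0) (𝓝 (gs α 0)) := h1
    rw [h2] at h3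
    exact h3.mono_left nhdsWithin_le_nhds
  · have h1 : Tendsto (fun t : ℝ => t ^ 2) (𝓝 0) (𝓝 (0 ^ 2)) := (continuous_pow 2).tendsto 0
    rw [zero_pow two_ne_zero] at h1
    exact h1.mono_left nhdsWithin_le_nhds

end Pool.Agent.RN
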