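import Pool.Agent.Lib_helper88.RN.Kb
import Pool.Agent.Lib_helper88.RN.Series

/-!
# `T_n ≥ T_2^(n/2)` for normalised pairs
-/

open scoped BigOperators ComplexOrder Kronecker MatrixOrder Topology
open MeasureTheory Set Matrix Filter

namespace Pool.Agent.RN

open Pool.Agent.RC Pool.Agent.RC.T2B

variable {ι κ : Type} [Fintype ι] [DecidableEq ι] [Fintype κ] [DecidableEq κ]

theorem pow_mul_swap (X Y : Matrix ι ι ℂ) (n : ℕ) : (X * Y) ^ (n + 1) = X * (Y * X) ^ n * Y := by
  induction n with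
  | zero => simp
  | succ n ih =>
    rw [pow_succ, ih, pow_succ (Y * X)]
    simp only [Matrix.mul_assoc]

theorem trace_pow_comm (X Y : Matrix ι ι ℂ) (n : ℕ) :
    ((X * Y) ^ n).trace = ((Y * X) ^ n).trace := by
  rcases n with _ | n
  · simp
  · rw [pow_mul_swap, Matrix.trace_mul_comm, ← Matrix.mul_assoc, ← pow_succ']

/-- row sums of squares of a unitary matrix -/
theorem row_sum (U : Matrix ι ι ℂ) (hU' : U * star U = 1) (i : ι) : ∑ j, ‖U i j‖ ^ 2 = 1 := by
  have h := congrFun (congrFun hU' i) i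
  rw [Matrix.mul_apply, Matrix.one_apply_eq] at h
  have h2 : ((∑ j, ‖U i j‖ ^ 2 : ℝ) : ℂ) = 1 := by
    rw [← h]
    push_cast
    refine Finset.sum_congr rfl fun j _ => ?_
    rw [Matrix.star_apply, Complex.star_def, Complex.mul_conj, Complex.normSq_eq_norm_sq]
    push_cast
    rfl
  exact_mod_cast h2

theorem col_sum (U : Matrix ι ι ℂ) (hU : star U * U = 1) (j : ι) : ∑ i, ‖U i j‖ ^ 2 = 1 := by
  have h := congrFun (congrFun hU j) j
  rw [Matrix.mul_apply, Matrix.one_apply_eq] at h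
  have h2 : ((∑ i, ‖U i j‖ ^ 2 : ℝ) : ℂ) = 1 := by
    rw [← h]
    push_cast
    refine Finset.sum_congr rfl fun i _ => ?_
    rw [Matrix.star_apply, Complex.star_def, mul_comm, Complex.mul_conj,
      Complex.normSq_eq_norm_sq]
    push_cast
    rfl
  exact_mod_cast h2

/-- diagonal entries of `H²` -/
theorem sum_sq_pow_le (H : Matrix ι ι ℂ) (hH : H.IsHermitian) (k : ℕ) :
    ∑ i, (∑ j, ‖H i j‖ ^ 2) ^ k ≤ ((H ^ (2 * k)).trace).re := by
  obtain ⟨U, h, hU, hU', hHU⟩ := exists_diag_herm H hH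
  have htr : ((H ^ (2 * k)).trace).re = ∑ j, (h j ^ 2) ^ k := by
    rw [hHU, trace_conj_pow U _ hU hU']
    unfold dg
    rw [Matrix.diagonal_pow, Matrix.trace_diagonal, Complex.re_sum]
    refine Finset.sum_congr rfl fun j _ => ?_
    rw [Pi.pow_apply, ← Complex.ofReal_pow, Complex.ofReal_re, pow_mul]
  have hrow : ∀ i, ∑ j, ‖H i j‖ ^ 2 = ∑ j, ‖U i j‖ ^ 2 * h j ^ 2 := by
    intro i
    have h1 : (H * H) i i = ((∑ j, ‖H i j‖ ^ 2 : ℝ) : ℂ) := by
      rw [Matrix.mul_apply]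
      push_cast
      refine Finset.sum_congr rfl fun j _ => ?_
      have := entry_mul hH i j
      push_cast at this
      exact this
    have h2 : H * H = U * dg (fun j => h j ^ 2) * star U := by
      have e : dg h * dg h = dg fun j => h j ^ 2 := by
        rw [dg_mul_dg]
        congr 1
        funext j
        ring
      calc H * H = (U * dg h * star U) * (U * dg h * star U) := by rw [← hHU]
        _ = U * dg h * (star U * U) * dg h * star U := by simp only [Matrix.mul_assoc]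
        _ = U * (dg h * dg h) * star U := by rw [hU]; simp only [Matrix.mul_assoc, Matrix.one_mul]
        _ = _ := by rw [e]
    have h3 : (H * H) i i = ((∑ j, ‖U i j‖ ^ 2 * h j ^ 2 : ℝ) : ℂ) := by
      rw [h2, Matrix.mul_apply]
      push_cast
      refine Finset.sum_congr rfl fun j _ => ?_
      unfold dg
      rw [Matrix.mul_diagonal, Matrix.star_apply, Complex.star_def]
      have h4 : U i j * (starRingEnd ℂ) (U i j) = ((‖U i j‖ ^ 2 : ℝ) : ℂ) := by
        rw [Complex.mul_conj, Complex.normSq_eq_norm_sq]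
      push_cast at h4 ⊢
      rw [← h4]
      ring
    rw [h1] at h3
    exact_mod_cast h3
  rw [htr]
  calc ∑ i, (∑ j, ‖H i j‖ ^ 2) ^ k = ∑ i, (∑ j, ‖U i j‖ ^ 2 * h j ^ 2) ^ k := by
        refine Finset.sum_congr rfl fun i _ => ?_
        rw [hrow i]
    _ ≤ ∑ i, ∑ j, ‖U i j‖ ^ 2 * (h j ^ 2) ^ k := by
        refine Finset.sum_le_sum fun i _ => ?_
        have hc := (convexOn_pow k).map_sum_le (t := Finset.univ) (w := fun j => ‖U i j‖ ^ 2)
          (p := fun j => h j ^ 2) (fun j _ => by positivity) (row_sum U hU' i)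
          (fun j _ => mem_Ici.2 (by positivity))
        simpa [smul_eq_mul] using hc
    _ = ∑ j, (h j ^ 2) ^ k := by
        rw [Finset.sum_comm]
        refine Finset.sum_congr rfl fun j _ => ?_
        rw [← Finset.sum_mul, col_sum U hU j, one_mul]

/-- `k u c^(k-1) ≤ u^k + (k-1) c^k` -/
theorem young (k : ℕ) {u c : ℝ} (hu : 0 ≤ u) (hc : 0 ≤ c) :
    ((k : ℝ) + 1) * (u * c ^ k) ≤ u ^ (k + 1) + k * c ^ (k + 1) := by
  rcases eq_or_lt_of_le hc with h | h
  · rw [← h]
    rcases Nat.eq_zero_or_pos k with rfl | hk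
    · simp
    · rw [zero_pow (by omega), zero_pow (by omega)]
      simp
      positivity
  · have h1 := one_add_mul_le_pow (a := u / c - 1) (by
      have : 0 ≤ u / c := by positivity
      linarith) (k + 1)
    have h2 : 1 + (u / c - 1) = u / c := by ring
    rw [h2, div_pow, le_div_iff₀ (by positivity)] at h1
    have h3 : (1 + ((k + 1 : ℕ) : ℝ) * (u / c - 1)) * c ^ (k + 1) =
        ((k : ℝ) + 1) * (u * c ^ k) - k * c ^ (k + 1) := by
      push_cast
      rw [pow_succ]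
      field_simp
      ring
    rw [h3] at h1
    linarith

/-- pointwise inequality -/
theorem point_ineq (a : ι → ℝ) (ha : ∀ i, 0 < a i) (E : Matrix ι ι ℂ) (hE : E.IsHermitian)
    (k : ℕ) {J : ℝ} (hJ : 0 ≤ J) {r : ℝ} (hr : 0 < r) :
    ((k : ℝ) + 1) * J ^ k * (∑ i, ∑ j, ‖E i j‖ ^ 2 * kb (2 * k) (a i) (a j) r) ≤
      tn (dg a) E (2 * (k + 1)) r + k * J ^ (k + 1) * ∑ i, (a i / (a i + r)) ^ (2 * (k + 1)) := by
  have hne : ∀ i, a i + r ≠ 0 := fun i => by
    have := ha i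
    positivity
  set c : ι → ℝ := fun i => Real.sqrt ((a i + r)⁻¹) with hc
  have hcc : ∀ i, c i * c i = (a i + r)⁻¹ := fun i => by
    have := ha i
    exact Real.mul_self_sqrt (by positivity)
  set H : Matrix ι ι ℂ := dg c * E * dg c with hHdef
  have hH : H.IsHermitian := by
    rw [Matrix.IsHermitian, hHdef, conjTranspose_mul, conjTranspose_mul, hE.eq,
      (dg_isHermitian c).eq, ← Matrix.mul_assoc]
  have hHij : ∀ i j, ‖H i j‖ ^ 2 = ‖E i j‖ ^ 2 * ((a i + r)⁻¹ * (a j + r)⁻¹) := by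
    intro i j
    have e : H i j = (c i : ℂ) * E i j * (c j : ℂ) := by
      rw [hHdef]
      unfold dg
      rw [Matrix.mul_diagonal, Matrix.diagonal_mul]
    have hci : 0 ≤ c i := Real.sqrt_nonneg _
    have hcj : 0 ≤ c j := Real.sqrt_nonneg _
    rw [e, norm_mul, norm_mul, Complex.norm_real, Complex.norm_real, Real.norm_of_nonneg hci,
      Real.norm_of_nonneg hcj]
    rw [← hcc i, ← hcc j]
    ring
  have htn : tn (dg a) E (2 * (k + 1)) r = ((H ^ (2 * (k + 1))).trace).re := by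
    unfold tn
    rw [res_dg a r hne]
    have e1 : (dg fun k => (a k + r)⁻¹) = dg c * dg c := by
      rw [dg_mul_dg]
      congr 1
      funext i
      exact (hcc i).symm
    rw [e1, Matrix.mul_assoc, trace_pow_comm]
  have hJen := sum_sq_pow_le H hH (k + 1)
  rw [← htn] at hJen
  have hsum : ∀ i, ∑ j, ‖E i j‖ ^ 2 * kb (2 * k) (a i) (a j) r =
      (a i / (a i + r)) ^ (2 * k) * ∑ j, ‖H i j‖ ^ 2 := by
    intro i
    rw [Finset.mul_sum]
    refine Finset.sum_congr rfl fun j _ => ?_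
    rw [hHij i j]
    unfold kb
    rw [div_pow, pow_succ (a i + r) (2 * k)]
    have h1 := hne i
    have h2 := hne j
    field_simp
  have hrow : ∀ i, ((k : ℝ) + 1) * J ^ k * ((a i / (a i + r)) ^ (2 * k) * ∑ j, ‖H i j‖ ^ 2) ≤
      (∑ j, ‖H i j‖ ^ 2) ^ (k + 1) + k * J ^ (k + 1) * (a i / (a i + r)) ^ (2 * (k + 1)) := by
    intro i
    have hai := ha i
    have h1 := young k (u := ∑ j, ‖H i j‖ ^ 2) (c := J * (a i / (a i + r)) ^ 2)
      (Finset.sum_nonneg fun j _ => by positivity) (by positivity)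
    have e1 : (J * (a i / (a i + r)) ^ 2) ^ k = J ^ k * (a i / (a i + r)) ^ (2 * k) := by
      rw [mul_pow, ← pow_mul]
    have e2 : (J * (a i / (a i + r)) ^ 2) ^ (k + 1) =
        J ^ (k + 1) * (a i / (a i + r)) ^ (2 * (k + 1)) := by
      rw [mul_pow, ← pow_mul]
    rw [e1, e2] at h1
    calc ((k : ℝ) + 1) * J ^ k * ((a i / (a i + r)) ^ (2 * k) * ∑ j, ‖H i j‖ ^ 2)
        = ((k : ℝ) + 1) * ((∑ j, ‖H i j‖ ^ 2) * (J ^ k * (a i / (a i + r)) ^ (2 * k))) := by ring
      _ ≤ (∑ j, ‖H i j‖ ^ 2) ^ (k + 1) + k * (J ^ (k + 1) *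
          (a i / (a i + r)) ^ (2 * (k + 1))) := h1
      _ = _ := by ring
  calc ((k : ℝ) + 1) * J ^ k * (∑ i, ∑ j, ‖E i j‖ ^ 2 * kb (2 * k) (a i) (a j) r)
      = ∑ i, ((k : ℝ) + 1) * J ^ k * ((a i / (a i + r)) ^ (2 * k) * ∑ j, ‖H i j‖ ^ 2) := by
        rw [Finset.mul_sum]
        refine Finset.sum_congr rfl fun i _ => ?_
        rw [hsum i]
    _ ≤ ∑ i, ((∑ j, ‖H i j‖ ^ 2) ^ (k + 1) +
          k * J ^ (k + 1) * (a i / (a i + r)) ^ (2 * (k + 1))) :=
        Finset.sum_le_sum fun i _ => hrow i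
    _ = ∑ i, (∑ j, ‖H i j‖ ^ 2) ^ (k + 1) +
          k * J ^ (k + 1) * ∑ i, (a i / (a i + r)) ^ (2 * (k + 1)) := by
        rw [Finset.sum_add_distrib, Finset.mul_sum]
    _ ≤ _ := by linarith

end Pool.Agent.RN
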